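import Pool.Agent.Q276.UR.A3
import Pool.Agent.Q241.OP.Asm

/-! # Smooth functions cut off at `1/2` are admissible test functions -/

set_option autoImplicit false

open Filter Topology Set MeasureTheory

namespace Q241.SC

open Pool.Agent.Q276.UR (Cut ct Sm Cut_in Cut_out Sm_contDiff Sm_end Sm_deriv_end Cut_lip Cut_cont)
open Pool.Agent.Y750.OM (bl)
open Q241.OP (OT)

lemma bl_same (r : ℝ → ℝ) (u : ℝ) : bl r u = Pool.Agent.Q276.UR.bl r u := rfl

/-- `r + α r'` for the smooth version -/
noncomputable def hh (g : ℝ → ℝ) (a x : ℝ) : ℝ := Sm g a x + x * deriv (Sm g a) x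

lemma hh_end {g : ℝ → ℝ} (hg : ContDiff ℝ 2 g) {a x : ℝ} (h : (a * x) ^ 2 = 1) : hh g a x = 0 := by
  unfold hh
  rw [Sm_end h, Sm_deriv_end hg h]
  simp

lemma Sm_cd3 {g : ℝ → ℝ} (hg : ContDiff ℝ 3 g) (a : ℝ) : ContDiff ℝ 3 (Sm g a) := by
  unfold Sm
  exact hg.mul ((contDiff_const.sub ((contDiff_const.mul contDiff_id).pow 2)).pow 2)

lemma hh_cd {g : ℝ → ℝ} (hg : ContDiff ℝ 3 g) (a : ℝ) : ContDiff ℝ 2 (hh g a) := by
  have h1 := Sm_cd3 hg a
  have h2 : ContDiff ℝ 2 (deriv (Sm g a)) := by
    have : ContDiff ℝ (2 + 1) (Sm g a) := by norm_num; exact h1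
    exact (contDiff_succ_iff_deriv.1 this).2.2
  unfold hh
  exact (h1.of_le (by norm_num)).add (contDiff_id.mul h2)

/-- decay of the transform of a function which vanishes at the ends -/
lemma int_decay {f : ℝ → ℝ} (hf : ContDiff ℝ 2 f) {b : ℝ} (hb : 0 < b) (h1 : f b = 0)
    (h2 : f (-b) = 0) : ∃ C : ℝ, 0 ≤ C ∧ ∀ x, |∫ α in (-b)..b, f α * Real.cos (2 * Real.pi * α * x)| ≤
      C / (1 + x ^ 2) := by
  have hd : Differentiable ℝ f := hf.differentiable (by norm_num)
  have hc1 : ContDiff ℝ 1 (deriv f) := by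
    have : ContDiff ℝ (1 + 1) f := by norm_num; exact hf
    exact (contDiff_succ_iff_deriv.1 this).2.2
  have hd1 : Differentiable ℝ (deriv f) := hc1.differentiable (by norm_num)
  have hc2 : Continuous (deriv (deriv f)) := hc1.continuous_deriv (by norm_num)
  set C := ∫ α in (-b)..b, |deriv (deriv f) α| with hC
  set C0 := ∫ α in (-b)..b, |f α| with hC0
  set D := |deriv f b| + |deriv f (-b)| with hD
  have hle : -b ≤ b := by linarith
  have hCn : 0 ≤ C := intervalIntegral.integral_nonneg hle fun _ _ => abs_nonneg _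
  have hC0n : 0 ≤ C0 := intervalIntegral.integral_nonneg hle fun _ _ => abs_nonneg _
  refine ⟨C0 + (C + D), by positivity, fun x => ?_⟩
  set z : ℝ := 2 * Real.pi * x with hz
  have hcc : Continuous fun α : ℝ => Real.cos (2 * Real.pi * α * x) := by fun_prop
  have hcs : Continuous fun α : ℝ => Real.sin (2 * Real.pi * α * x) := by fun_prop
  have hds : ∀ α : ℝ, HasDerivAt (fun α => Real.sin (2 * Real.pi * α * x))
      (Real.cos (2 * Real.pi * α * x) * z) α := fun α => by
    have h : HasDerivAt (fun α : ℝ => 2 * Real.pi * α * x) z α := by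
      have := ((hasDerivAt_id α).const_mul (2 * Real.pi)).mul_const x
      refine this.congr_deriv ?_
      rw [hz]; ring
    exact h.sin
  have hdc : ∀ α : ℝ, HasDerivAt (fun α => Real.cos (2 * Real.pi * α * x))
      (-Real.sin (2 * Real.pi * α * x) * z) α := fun α => by
    have h : HasDerivAt (fun α : ℝ => 2 * Real.pi * α * x) z α := by
      have := ((hasDerivAt_id α).const_mul (2 * Real.pi)).mul_const x
      refine this.congr_deriv ?_
      rw [hz]; ring
    exact h.cos
  have key : z ^ 2 * (∫ α in (-b)..b, f α * Real.cos (2 * Real.pi * α * x)) =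
      (deriv f b * Real.cos (2 * Real.pi * b * x) - deriv f (-b) * Real.cos (2 * Real.pi * (-b) * x)) -
      ∫ α in (-b)..b, deriv (deriv f) α * Real.cos (2 * Real.pi * α * x) := by
    have hdd : ∀ α ∈ Set.uIcc (-b) b, HasDerivAt
        (fun α => z * (f α * Real.sin (2 * Real.pi * α * x)) +
          deriv f α * Real.cos (2 * Real.pi * α * x))
        (z ^ 2 * (f α * Real.cos (2 * Real.pi * α * x)) +
          deriv (deriv f) α * Real.cos (2 * Real.pi * α * x)) α := fun α _ => by
      have := (((hd α).hasDerivAt.mul (hds α)).const_mul z).add ((hd1 α).hasDerivAt.mul (hdc α))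
      refine this.congr_deriv ?_
      ring
    have i1 : IntervalIntegrable (fun α => z ^ 2 * (f α * Real.cos (2 * Real.pi * α * x)))
        volume (-b) b :=
      (continuous_const.mul (hf.continuous.mul hcc)).intervalIntegrable _ _
    have i2 : IntervalIntegrable (fun α => deriv (deriv f) α *
        Real.cos (2 * Real.pi * α * x)) volume (-b) b :=
      (hc2.mul hcc).intervalIntegrable _ _
    have h4 := intervalIntegral.integral_eq_sub_of_hasDerivAt hdd (i1.add i2)
    rw [intervalIntegral.integral_add i1 i2, intervalIntegral.integral_const_mul, h1, h2] at h4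
    linarith
  have h5 : |∫ α in (-b)..b, deriv (deriv f) α * Real.cos (2 * Real.pi * α * x)| ≤ C := by
    refine (intervalIntegral.abs_integral_le_integral_abs hle).trans ?_
    apply intervalIntegral.integral_mono_on hle ((hc2.mul hcc).abs.intervalIntegrable _ _)
      (hc2.abs.intervalIntegrable _ _)
    intro α _
    rw [Pi.mul_apply, abs_mul]
    exact mul_le_of_le_one_right (abs_nonneg _) (Real.abs_cos_le_one _)
  have h5' : |∫ α in (-b)..b, f α * Real.cos (2 * Real.pi * α * x)| ≤ C0 := by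
    refine (intervalIntegral.abs_integral_le_integral_abs hle).trans ?_
    apply intervalIntegral.integral_mono_on hle ((hf.continuous.mul hcc).abs.intervalIntegrable _ _)
      (hf.continuous.abs.intervalIntegrable _ _)
    intro α _
    rw [Pi.mul_apply, abs_mul]
    exact mul_le_of_le_one_right (abs_nonneg _) (Real.abs_cos_le_one _)
  have h6 : z ^ 2 * |∫ α in (-b)..b, f α * Real.cos (2 * Real.pi * α * x)| ≤ C + D := by
    rw [← abs_of_nonneg (sq_nonneg z), ← abs_mul, key]
    have t1 : |deriv f b * Real.cos (2 * Real.pi * b * x)| ≤ |deriv f b| := by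
      rw [abs_mul]; exact mul_le_of_le_one_right (abs_nonneg _) (Real.abs_cos_le_one _)
    have t2 : |deriv f (-b) * Real.cos (2 * Real.pi * (-b) * x)| ≤ |deriv f (-b)| := by
      rw [abs_mul]; exact mul_le_of_le_one_right (abs_nonneg _) (Real.abs_cos_le_one _)
    refine (abs_sub _ _).trans ?_
    have := abs_sub (deriv f b * Real.cos (2 * Real.pi * b * x))
      (deriv f (-b) * Real.cos (2 * Real.pi * (-b) * x))
    linarith
  have h7 : x ^ 2 ≤ z ^ 2 := by
    rw [hz, mul_pow]
    have : 1 ≤ (2 * Real.pi) ^ 2 := by nlinarith [Real.pi_gt_three]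
    nlinarith [sq_nonneg x]
  rw [le_div_iff₀ (by positivity), mul_add, mul_one]
  apply add_le_add h5'
  calc |∫ α in (-b)..b, f α * Real.cos (2 * Real.pi * α * x)| * x ^ 2 ≤
      |∫ α in (-b)..b, f α * Real.cos (2 * Real.pi * α * x)| * z ^ 2 :=
        mul_le_mul_of_nonneg_left h7 (abs_nonneg _)
    _ ≤ C + D := by rw [mul_comm]; exact h6

/-- `u` times the derivative of the transform -/
lemma mul_deriv {f : ℝ → ℝ} (hf : ContDiff ℝ 1 f) {b : ℝ} (h1 : f b = 0)
    (h2 : f (-b) = 0) (u : ℝ) :
    u * ∫ α in (-b)..b, f α * (-(Real.sin (2 * Real.pi * α * u)) * (2 * Real.pi * α)) =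
      -∫ α in (-b)..b, (f α + α * deriv f α) * Real.cos (2 * Real.pi * α * u) := by
  have hd : Differentiable ℝ f := hf.differentiable (by norm_num)
  have hdc' : Continuous (deriv f) := hf.continuous_deriv (by norm_num)
  have hcc : Continuous fun α : ℝ => Real.cos (2 * Real.pi * α * u) := by fun_prop
  have hcs : Continuous fun α : ℝ => Real.sin (2 * Real.pi * α * u) := by fun_prop
  have hdc : ∀ α : ℝ, HasDerivAt (fun α => Real.cos (2 * Real.pi * α * u))
      (-Real.sin (2 * Real.pi * α * u) * (2 * Real.pi * u)) α := fun α => by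
    have h : HasDerivAt (fun α : ℝ => 2 * Real.pi * α * u) (2 * Real.pi * u) α := by
      have := ((hasDerivAt_id α).const_mul (2 * Real.pi)).mul_const u
      refine this.congr_deriv ?_
      ring
    exact h.cos
  have hdd : ∀ α ∈ Set.uIcc (-b) b, HasDerivAt
      (fun α => (α * f α) * Real.cos (2 * Real.pi * α * u))
      ((f α + α * deriv f α) * Real.cos (2 * Real.pi * α * u) +
        u * (f α * (-(Real.sin (2 * Real.pi * α * u)) * (2 * Real.pi * α)))) α := fun α _ => by
    have := ((hasDerivAt_id α).mul (hd α).hasDerivAt).mul (hdc α)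
    refine this.congr_deriv ?_
    simp only [id, Pi.mul_apply]
    ring
  have i1 : IntervalIntegrable (fun α => (f α + α * deriv f α) * Real.cos (2 * Real.pi * α * u))
      volume (-b) b := by
    have := hf.continuous
    exact Continuous.intervalIntegrable (by fun_prop) _ _
  have i2 : IntervalIntegrable (fun α => u * (f α * (-(Real.sin (2 * Real.pi * α * u)) *
      (2 * Real.pi * α)))) volume (-b) b := by
    have := hf.continuous
    exact Continuous.intervalIntegrable (by fun_prop) _ _
  have h4 := intervalIntegral.integral_eq_sub_of_hasDerivAt hdd (i1.add i2)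
  rw [intervalIntegral.integral_add i1 i2, intervalIntegral.integral_const_mul, h1, h2] at h4
  linarith

lemma deriv_int {f : ℝ → ℝ} (hf : Continuous f) (b : ℝ) (y σ : ℝ) :
    HasDerivAt (fun σ => ∫ α in (-b)..b, f α * Real.cos (2 * Real.pi * α * (σ * y)))
      (∫ α in (-b)..b, f α * (-(Real.sin (2 * Real.pi * α * (σ * y))) * (2 * Real.pi * α * y))) σ := by
  have h := intervalIntegral.hasDerivAt_integral_of_dominated_loc_of_deriv_le (μ := volume)
    (F := fun σ α => f α * Real.cos (2 * Real.pi * α * (σ * y)))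
    (F' := fun σ α => f α * (-(Real.sin (2 * Real.pi * α * (σ * y))) * (2 * Real.pi * α * y)))
    (x₀ := σ) (a := -b) (b := b) (s := Set.univ)
    (bound := fun α => |f α| * |2 * Real.pi * α * y|) Filter.univ_mem
    (Eventually.of_forall fun x => by
      exact (Continuous.aestronglyMeasurable (by fun_prop)))
    (Continuous.intervalIntegrable (by fun_prop) _ _)
    (Continuous.aestronglyMeasurable (by fun_prop))
    (Eventually.of_forall fun α _ x _ => by
      rw [Real.norm_eq_abs, abs_mul, abs_mul, abs_neg]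
      refine mul_le_mul_of_nonneg_left ?_ (abs_nonneg _)
      exact mul_le_of_le_one_left (abs_nonneg _) (Real.abs_sin_le_one _))
    (Continuous.intervalIntegrable (by fun_prop) _ _)
    (Eventually.of_forall fun α _ x _ => by
      have h1 : HasDerivAt (fun σ : ℝ => 2 * Real.pi * α * (σ * y)) (2 * Real.pi * α * y) x := by
        have := ((hasDerivAt_id x).mul_const y).const_mul (2 * Real.pi * α)
        refine this.congr_deriv ?_
        ring
      exact h1.cos.const_mul (f α))
  exact h.2

theorem OT_Cut {g : ℝ → ℝ} (hg : ContDiff ℝ 3 g) {a : ℝ} (ha : 0 < a) :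
    OT (Cut g a) (1 / a) := by
  have hg2 : ContDiff ℝ 2 g := hg.of_le (by norm_num)
  have hb : 0 < 1 / a := by positivity
  have hend1 : (a * (1 / a)) ^ 2 = 1 := by
    rw [mul_one_div_cancel ha.ne']; norm_num
  have hend2 : (a * (-(1 / a))) ^ 2 = 1 := by
    rw [mul_neg, mul_one_div_cancel ha.ne']; norm_num
  refine ⟨Cut_lip hg2 ha, fun α h => Cut_out ha h.le, ?_, ?_⟩
  · obtain ⟨C, hC0, hC⟩ := int_decay (Sm_contDiff hg2 a) hb (Sm_end hend1) (Sm_end hend2)
    refine ⟨C, hC0, fun y => ?_⟩
    rw [bl_same, Pool.Agent.Q276.UR.bl_Cut ha]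
    exact hC y
  · obtain ⟨C, hC0, hC⟩ := int_decay (hh_cd hg a) hb (hh_end hg2 hend1) (hh_end hg2 hend2)
    refine ⟨C, hC0, fun y s hs => ?_⟩
    rw [bl_same, bl_same, Pool.Agent.Q276.UR.bl_Cut ha, Pool.Agent.Q276.UR.bl_Cut ha]
    set F : ℝ → ℝ := fun σ => ∫ α in (-(1 / a) : ℝ)..(1 / a),
      Sm g a α * Real.cos (2 * Real.pi * α * (σ * y)) with hF
    have hSc : Continuous (Sm g a) := (Sm_contDiff hg2 a).continuous
    have hder : ∀ σ ∈ Icc (1 : ℝ) s, HasDerivWithinAt F (∫ α in (-(1 / a) : ℝ)..(1 / a),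
        Sm g a α * (-(Real.sin (2 * Real.pi * α * (σ * y))) * (2 * Real.pi * α * y)))
        (Icc (1 : ℝ) s) σ := fun σ _ => (deriv_int hSc (1 / a) y σ).hasDerivWithinAt
    have hbd : ∀ σ ∈ Icc (1 : ℝ) s, ‖∫ α in (-(1 / a) : ℝ)..(1 / a),
        Sm g a α * (-(Real.sin (2 * Real.pi * α * (σ * y))) * (2 * Real.pi * α * y))‖ ≤
        C / (1 + y ^ 2) := by
      intro σ hσ
      have hσ0 : 0 < σ := by linarith [hσ.1]
      have e1 := mul_deriv ((Sm_contDiff hg2 a).of_le (by norm_num) : ContDiff ℝ 1 (Sm g a))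
        (Sm_end (g := g) hend1) (Sm_end (g := g) hend2) (σ * y)
      have e2 : (∫ α in (-(1 / a) : ℝ)..(1 / a),
          Sm g a α * (-(Real.sin (2 * Real.pi * α * (σ * y))) * (2 * Real.pi * α * y))) =
          y * ∫ α in (-(1 / a) : ℝ)..(1 / a),
          Sm g a α * (-(Real.sin (2 * Real.pi * α * (σ * y))) * (2 * Real.pi * α)) := by
        rw [← intervalIntegral.integral_const_mul]
        refine intervalIntegral.integral_congr fun α _ => ?_
        ring
      rw [e2, Real.norm_eq_abs]
      have e3 : y * ∫ α in (-(1 / a) : ℝ)..(1 / a),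
          Sm g a α * (-(Real.sin (2 * Real.pi * α * (σ * y))) * (2 * Real.pi * α)) =
          σ⁻¹ * (-∫ α in (-(1 / a) : ℝ)..(1 / a), hh g a α * Real.cos (2 * Real.pi * α * (σ * y))) := by
        unfold hh
        rw [← e1, ← mul_assoc, ← mul_assoc, inv_mul_cancel₀ hσ0.ne', one_mul]
      rw [e3, abs_mul, abs_neg]
      have e4 := hC (σ * y)
      have e5 : |σ⁻¹| ≤ 1 := by
        rw [abs_of_pos (by positivity)]
        exact inv_le_one_of_one_le₀ hσ.1
      have e6 : C / (1 + (σ * y) ^ 2) ≤ C / (1 + y ^ 2) := by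
        apply div_le_div_of_nonneg_left hC0 (by positivity)
        have : y ^ 2 ≤ (σ * y) ^ 2 := by
          rw [mul_pow]
          have h1 : 1 ≤ σ ^ 2 := one_le_pow₀ hσ.1
          nlinarith [sq_nonneg y]
        linarith
      calc |σ⁻¹| * |∫ α in (-(1 / a) : ℝ)..(1 / a), hh g a α * Real.cos (2 * Real.pi * α * (σ * y))| ≤
          1 * (C / (1 + y ^ 2)) := mul_le_mul e5 (e4.trans e6) (abs_nonneg _) zero_le_one
        _ = _ := one_mul _
    have h := (convex_Icc (1 : ℝ) s).norm_image_sub_le_of_norm_hasDerivWithin_le hder hbd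
      (⟨le_rfl, hs⟩ : (1 : ℝ) ∈ Icc (1 : ℝ) s) (⟨hs, le_rfl⟩ : s ∈ Icc (1 : ℝ) s)
    rw [Real.norm_eq_abs, Real.norm_eq_abs, abs_of_nonneg (by linarith : 0 ≤ s - 1)] at h
    have e7 : F s - F 1 = (∫ α in (-(1 / a) : ℝ)..(1 / a), Sm g a α * Real.cos (2 * Real.pi * α * (s * y))) -
        ∫ α in (-(1 / a) : ℝ)..(1 / a), Sm g a α * Real.cos (2 * Real.pi * α * y) := by
      simp only [hF, one_mul]
    rw [← e7]
    refine h.trans (le_of_eq ?_)
    ring

end Q241.SC
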