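import Pool.Agent.Q241.SC.A1
import Pool.Agent.Q276.UR.B2
import Pool.Agent.Q241.GL.E

/-! # The pair sum over all ordinates up to height `T` -/

set_option autoImplicit false

open Filter Topology Set MeasureTheory FourierTransform

namespace Q241.SC

open Pool.Agent.Q276.UR (Cut PSm PSm_eq pair_upper Cut_Psi bl_RR int_Psi_full)
open Pool.Agent.Q276.LR (PH Psi mJ mJ_nonneg PH_nonneg PH_abs PH_zero tp four_tri)
open Pool.Agent.Y750.OM (bl)
open Q241.OP (OT BlkE Qb Qb_eq mo nn_lim pair_up)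
open Pool.Agent.Y744
open H370 (NN)
open H370.A2 (RR)
open H177.Lat (yy kI KK tri tri_zero tri_cont)
open SG (ord NZ)
open Q241.KL (JZ sum_JZ)
open Q241.GL (sum_ord)

lemma KK_cd3 {e : ℝ} (he : 0 < e) : ContDiff ℝ 3 (KK e) := by
  have h1 : ContDiff ℝ (3 : ℕ∞) (𝓕 (fun u : ℝ => ((tri e u : ℝ) : ℂ))) := by
    apply Real.contDiff_fourier
    intro n _
    have hc : Continuous fun v : ℝ => ‖v‖ ^ n * ‖((tri e v : ℝ) : ℂ)‖ := by
      have := tri_cont e
      fun_prop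
    apply hc.integrable_of_hasCompactSupport
    apply HasCompactSupport.intro (isCompact_Icc (a := -e) (b := e))
    intro x hx
    have : e ≤ |x| := by
      by_contra h
      push Not at h
      obtain ⟨h3, h4⟩ := abs_lt.1 h
      exact hx ⟨h3.le, h4.le⟩
    rw [tri_zero he this]
    simp
  have h2 : KK e = fun x => Complex.reCLM (𝓕 (fun u : ℝ => ((tri e u : ℝ) : ℂ)) x) := by
    funext x
    rw [four_tri he]
    simp
  rw [h2]
  exact Complex.reCLM.contDiff.comp h1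

lemma PH_cd3 (J : ℕ) : ContDiff ℝ 3 (PH J) := by
  unfold PH
  exact contDiff_const.mul (ContDiff.sum fun j _ => KK_cd3 (tp j))

/-- single sums over the zeros and over the ordinates -/
lemma sum_Zt_ord (T : ℝ) (f : ℝ → ℝ) : ∑ s ∈ Zt T, mz s * f s.im = ∑ n ∈ Finset.Ioc 0 (NZ T), f (ord n) := by
  rw [← sum_JZ T fun s => f s.im]
  exact sum_ord T f

lemma Q2_ord (f : ℝ → ℝ) (T : ℝ) : Q2 f T (Real.log T) =
    ∑ n ∈ Finset.Ioc 0 (NZ T), ∑ m ∈ Finset.Ioc 0 (NZ T), f (yy T n - yy T m) := by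
  unfold Q2 QS
  have h1 : ∀ s ∈ Zt T, ∑ s' ∈ Zt T, mz s * mz s' * f ((s.im - s'.im) * Real.log T / (2 * Real.pi)) =
      mz s * ∑ m ∈ Finset.Ioc 0 (NZ T), f ((s.im - ord m) * Real.log T / (2 * Real.pi)) := by
    intro s _
    rw [← sum_Zt_ord T (fun x => f ((s.im - x) * Real.log T / (2 * Real.pi))), Finset.mul_sum]
    refine Finset.sum_congr rfl fun s' _ => ?_
    ring
  rw [Finset.sum_congr rfl h1,
    sum_Zt_ord T (fun x => ∑ m ∈ Finset.Ioc 0 (NZ T), f ((x - ord m) * Real.log T / (2 * Real.pi)))]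
  refine Finset.sum_congr rfl fun n _ => Finset.sum_congr rfl fun m _ => ?_
  congr 1
  unfold yy
  ring

/-- the assumption on the blocks, from the theorem on pair sums -/
lemma blkE_of {r : ℝ → ℝ} {E : ℝ} (hE : 0 ≤ E)
    (h : ∀ ε : ℝ, 0 < ε → ∃ T0 : ℝ, 10 ≤ T0 ∧ ∀ T : ℝ, T0 ≤ T →
      |PSm r T - NN riemannZeta T (2 * T) * mo r| ≤ (E + ε) * NN riemannZeta T (2 * T)) :
    BlkE r E := by
  intro ε hε
  obtain ⟨T0, hT0, h1⟩ := h (ε / 4) (by positivity)
  have h2 := (Metric.tendsto_nhds.1 nn_lim) (min 1 (ε / (4 * (|mo r| + E + 1)))) (by positivity)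
  filter_upwards [eventually_ge_atTop T0, h2] with V hV hn
  have hV1 : 1 ≤ V := by linarith
  have hX := Xf_pos (V := V) (by linarith)
  have h3 := h1 V hV
  rw [← PSm_eq hV1, ← Qb_eq] at h3
  set n : ℝ := (NN riemannZeta V (2 * V) : ℝ) with hn'
  rw [Real.dist_eq] at hn
  have hn1 : |n / Xf V - 1| < 1 := hn.trans_le (min_le_left _ _)
  have hn2 : |n / Xf V - 1| < ε / (4 * (|mo r| + E + 1)) := hn.trans_le (min_le_right _ _)
  have hn3 : n / Xf V ≤ 2 := by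
    have := (abs_lt.1 hn1).2
    linarith
  have hnn : 0 ≤ n / Xf V := div_nonneg (Nat.cast_nonneg _) hX.le
  have e : Qb (bl r) V (Real.log V) / Xf V - mo r =
      (Qb (bl r) V (Real.log V) - n * mo r) / Xf V + mo r * (n / Xf V - 1) := by
    field_simp
    ring
  rw [e]
  refine (abs_add_le _ _).trans ?_
  have a1 : |(Qb (bl r) V (Real.log V) - n * mo r) / Xf V| ≤ (E + ε / 4) * (n / Xf V) := by
    rw [abs_div, abs_of_pos hX, ← mul_div_assoc]
    exact div_le_div_of_nonneg_right h3 hX.le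
  have hm0 := abs_nonneg (mo r)
  have a2 : (|mo r| + E + 1) * |n / Xf V - 1| ≤ ε / 4 := by
    have h5 : (|mo r| + E + 1) * |n / Xf V - 1| ≤ (|mo r| + E + 1) * (ε / (4 * (|mo r| + E + 1))) :=
      mul_le_mul_of_nonneg_left hn2.le (by positivity)
    refine h5.trans (le_of_eq ?_)
    field_simp
  have a3 : n / Xf V ≤ 1 + |n / Xf V - 1| := by
    have := le_abs_self (n / Xf V - 1)
    linarith
  have a4 : E * (n / Xf V) ≤ E + E * |n / Xf V - 1| := by
    have := mul_le_mul_of_nonneg_left a3 hE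
    linarith
  have a5 : ε / 4 * (n / Xf V) ≤ ε / 4 * 2 := mul_le_mul_of_nonneg_left hn3 (by positivity)
  rw [abs_mul (mo r)]
  have a6 := abs_nonneg (n / Xf V - 1)
  nlinarith

/-- **the pair sum over all ordinates** -/
theorem pair_whole : ∃ E0 : ℝ, 0 < E0 ∧ ∀ J : ℕ, 1 ≤ J → ∀ ε : ℝ, 0 < ε → ∀ᶠ T : ℝ in atTop,
    ∑ n ∈ Finset.Ioc 0 (NZ T), ∑ m ∈ Finset.Ioc 0 (NZ T), RR (Psi J) (1 / 2) (yy T n - yy T m) ≤
      Xf T * (mJ J ^ 2 + E0 / J + ε) := by
  obtain ⟨C, hC, hp⟩ := pair_upper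
  refine ⟨28 + 16 * C, by positivity, fun J hJ ε hε => ?_⟩
  have hJ1 : (1 : ℝ) ≤ J := by exact_mod_cast hJ
  have hJ0 : (0 : ℝ) < J := by linarith
  have hA : ∀ x : ℝ, x ^ 2 * PH J x ^ 2 ≤ 16 / J ^ 2 := by
    intro x
    have h2 := PH_abs (J := J) x
    have h3 : 0 ≤ |x| * PH J x := mul_nonneg (abs_nonneg _) (PH_nonneg _ _)
    have h4 : (|x| * PH J x) ^ 2 ≤ (4 / J) ^ 2 := pow_le_pow_left₀ h3 h2 2
    have h5 : (|x| * PH J x) ^ 2 = x ^ 2 * PH J x ^ 2 := by rw [mul_pow, sq_abs]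
    have h6 : (4 / (J : ℝ)) ^ 2 = 16 / J ^ 2 := by rw [div_pow]; norm_num
    rw [h5, h6] at h4
    exact h4
  have hg3 : ContDiff ℝ 3 (fun x => PH J x ^ 2) := (PH_cd3 J).pow 2
  have hblk : BlkE (Cut (fun x => PH J x ^ 2) 2) (C * (16 / J ^ 2)) := by
    refine blkE_of (by positivity) fun ε hε => ?_
    obtain ⟨T1, hT1, h1⟩ := hp (fun x => PH J x ^ 2) (hg3.of_le (by norm_num)) (fun x => sq_nonneg _)
      (16 / J ^ 2) hA ε hε
    refine ⟨T1, hT1, fun T hT => ?_⟩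
    have h2 := h1 T hT
    have e : mo (Cut (fun x => PH J x ^ 2) 2) =
        PH J 0 ^ 2 + ∫ α : ℝ, |α| * Cut (fun x => PH J x ^ 2) 2 α := by
      unfold mo
      congr 1
      unfold Cut Pool.Agent.Q276.UR.ct
      simp
    rw [e]
    exact h2
  have h1 := pair_up (OT_Cut hg3 two_pos) (by positivity) hblk ε hε
  filter_upwards [h1, eventually_gt_atTop 1] with T hT hT1
  have hX := Xf_pos hT1
  have g1 := (abs_le.1 hT).2
  have g4 := int_Psi_full J
  have e : mo (Cut (fun x => PH J x ^ 2) 2) ≤ mJ J ^ 2 + 28 / J := by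
    unfold mo
    rw [Cut_Psi]
    have : Psi J 0 = mJ J ^ 2 := Pool.Agent.Q276.LR.Psi_zero J
    rw [this]
    linarith
  have e1 : C * (16 / (J : ℝ) ^ 2) ≤ 16 * C / J := by
    rw [mul_div_assoc', div_le_div_iff₀ (by positivity) hJ0]
    have : (J : ℝ) ≤ J ^ 2 := by nlinarith
    nlinarith [mul_le_mul_of_nonneg_left this (by positivity : 0 ≤ 16 * C)]
  have g2 : Q2 (bl (Cut (fun x => PH J x ^ 2) 2)) T (Real.log T) / Xf T ≤
      mJ J ^ 2 + (28 + 16 * C) / J + ε := by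
    have : (28 + 16 * C) / (J : ℝ) = 28 / J + 16 * C / J := by ring
    rw [this]
    linarith
  rw [div_le_iff₀ hX, Q2_ord, Cut_Psi] at g2
  have e3 : ∀ u, bl (Psi J) u = RR (Psi J) (1 / 2) u := fun u => bl_RR J u
  simp_rw [e3] at g2
  linarith

end Q241.SC
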