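import Pool.Agent.Q241.SC.A2

/-! # Moments of the local counts, for all ordinates up to height `T` -/

set_option autoImplicit false

open Filter Topology Set MeasureTheory

namespace Q241.SC

open Pool.Agent.Y744
open Pool.Agent.Y750.OM (cell cell_pow cntmom)
open H370 (Zf mult zset)
open H177.Lat (yy kI)
open SG (ord NZ)
open Pool.Agent.Q276.UR (bx kb kb_le sum_shift sum_fiber card_Icc_int bx_nonneg kb_sum)

/-- the local count -/
noncomputable def lc (S : Finset ℂ) (Λ t : ℝ) : ℝ := ∑ s ∈ S.filter (fun s => |s.im - t| ≤ 1 / Λ), mz s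

lemma lc_nonneg (S : Finset ℂ) (Λ t : ℝ) : 0 ≤ lc S Λ t := Finset.sum_nonneg fun s _ => mz_nonneg s

lemma lc_meas (S : Finset ℂ) (Λ : ℝ) : Measurable (lc S Λ) := by
  have e : lc S Λ = fun t => ∑ s ∈ S, if |s.im - t| ≤ 1 / Λ then mz s else 0 := by
    funext t
    unfold lc
    rw [Finset.sum_filter]
  rw [e]
  refine Finset.measurable_sum _ fun s _ => ?_
  refine Measurable.ite ?_ measurable_const measurable_const
  exact measurableSet_le (by fun_prop) measurable_const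

lemma lc_anti (S : Finset ℂ) {Λ Λ' : ℝ} (h0 : 0 < Λ) (h : Λ ≤ Λ') (t : ℝ) : lc S Λ' t ≤ lc S Λ t := by
  unfold lc
  refine Finset.sum_le_sum_of_subset_of_nonneg (fun s hs => ?_) fun s _ _ => mz_nonneg s
  rw [Finset.mem_filter] at hs ⊢
  exact ⟨hs.1, hs.2.trans (one_div_le_one_div_of_le h0 h)⟩

lemma lc_mono {S S' : Finset ℂ} (h : S ⊆ S') (Λ t : ℝ) : lc S Λ t ≤ lc S' Λ t := by
  unfold lc
  refine Finset.sum_le_sum_of_subset_of_nonneg (fun s hs => ?_) fun s _ _ => mz_nonneg s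
  rw [Finset.mem_filter] at hs ⊢
  exact ⟨h hs.1, hs.2⟩

lemma lc_union {S S' : Finset ℂ} (h : Disjoint S S') (Λ t : ℝ) :
    lc (S ∪ S') Λ t = lc S Λ t + lc S' Λ t := by
  classical
  unfold lc
  rw [Finset.filter_union, Finset.sum_union]
  exact Finset.disjoint_filter_filter h

/-- the moments -/
noncomputable def A (S : Finset ℂ) (q : ℕ) (Λ : ℝ) : ENNReal :=
  ∫⁻ t : ℝ, ENNReal.ofReal (lc S Λ t ^ q)

lemma A_anti (S : Finset ℂ) (q : ℕ) {Λ Λ' : ℝ} (h0 : 0 < Λ) (h : Λ ≤ Λ') : A S q Λ' ≤ A S q Λ := by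
  refine lintegral_mono fun t => ENNReal.ofReal_le_ofReal ?_
  exact pow_le_pow_left₀ (lc_nonneg _ _ _) (lc_anti S h0 h t) q

lemma A_mono {S S' : Finset ℂ} (h : S ⊆ S') (q : ℕ) (Λ : ℝ) : A S q Λ ≤ A S' q Λ := by
  refine lintegral_mono fun t => ENNReal.ofReal_le_ofReal ?_
  exact pow_le_pow_left₀ (lc_nonneg _ _ _) (lc_mono h Λ t) q

/-- `(a+b)^q ≤ (3/2) a^q + C b^q` -/
lemma add_pow_le' (q : ℕ) : ∃ C : ℝ, 0 < C ∧ ∀ a b : ℝ, 0 ≤ a → 0 ≤ b →
    (a + b) ^ q ≤ 3 / 2 * a ^ q + C * b ^ q := by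
  obtain ⟨δ, hδ, hδq⟩ : ∃ δ : ℝ, 0 < δ ∧ (1 + δ) ^ q ≤ 3 / 2 := by
    have hc : Tendsto (fun δ : ℝ => (1 + δ) ^ q) (𝓝[>] 0) (𝓝 ((1 + 0) ^ q)) := by
      have : Continuous fun δ : ℝ => (1 + δ) ^ q := by fun_prop
      exact this.continuousAt.tendsto.mono_left nhdsWithin_le_nhds
    have h2 : ((1 : ℝ) + 0) ^ q < 3 / 2 := by simp; norm_num
    have h3 : ∀ᶠ ε : ℝ in 𝓝[>] 0, ε ∈ Set.Ioi (0 : ℝ) := self_mem_nhdsWithin
    obtain ⟨ε, h4, h5⟩ := (h3.and (hc.eventually (gt_mem_nhds h2))).exists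
    exact ⟨ε, h4, h5.le⟩
  refine ⟨(1 + 1 / δ) ^ q, by positivity, fun a b ha hb => ?_⟩
  rcases le_total b (δ * a) with h | h
  · have h1 : (a + b) ^ q ≤ ((1 + δ) * a) ^ q := pow_le_pow_left₀ (by positivity) (by linarith) q
    rw [mul_pow] at h1
    have h2 : (1 + δ) ^ q * a ^ q ≤ 3 / 2 * a ^ q := mul_le_mul_of_nonneg_right hδq (by positivity)
    have h3 : 0 ≤ (1 + 1 / δ) ^ q * b ^ q := by positivity
    linarith
  · have h0 : a ≤ 1 / δ * b := by
      rw [one_div, ← div_eq_inv_mul, le_div_iff₀ hδ]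
      linarith
    have h1 : (a + b) ^ q ≤ ((1 + 1 / δ) * b) ^ q := pow_le_pow_left₀ (by positivity) (by linarith) q
    rw [mul_pow] at h1
    have h3 : 0 ≤ 3 / 2 * a ^ q := by positivity
    linarith

lemma A_union {S S' : Finset ℂ} (h : Disjoint S S') (q : ℕ) (Λ : ℝ) {C : ℝ} (hC : 0 < C)
    (hadd : ∀ a b : ℝ, 0 ≤ a → 0 ≤ b → (a + b) ^ q ≤ 3 / 2 * a ^ q + C * b ^ q) :
    A (S ∪ S') q Λ ≤ ENNReal.ofReal (3 / 2) * A S q Λ + ENNReal.ofReal C * A S' q Λ := by
  unfold A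
  rw [← lintegral_const_mul' _ _ ENNReal.ofReal_ne_top, ← lintegral_const_mul' _ _ ENNReal.ofReal_ne_top,
    ← lintegral_add_left]
  · refine lintegral_mono fun t => ?_
    rw [lc_union h, ← ENNReal.ofReal_mul (by norm_num), ← ENNReal.ofReal_mul hC.le,
      ← ENNReal.ofReal_add]
    · exact ENNReal.ofReal_le_ofReal (hadd _ _ (lc_nonneg _ _ _) (lc_nonneg _ _ _))
    · have := lc_nonneg S Λ t
      positivity
    · have := lc_nonneg S' Λ t
      positivity
  · exact ((lc_meas S Λ).pow_const q).ennreal_ofReal.const_mul _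

lemma A_small (S : Finset ℂ) (q : ℕ) (hq : 1 ≤ q) {B Λ : ℝ} (_hB : 0 ≤ B) (hΛ : 1 ≤ Λ)
    (hS : ∀ s ∈ S, 0 ≤ s.im ∧ s.im ≤ B) :
    A S q Λ ≤ ENNReal.ofReal ((∑ s ∈ S, mz s) ^ q * (B + 2)) := by
  have h1 : ∀ t : ℝ, ENNReal.ofReal (lc S Λ t ^ q) ≤
      (Icc (-1 : ℝ) (B + 1)).indicator (fun _ => ENNReal.ofReal ((∑ s ∈ S, mz s) ^ q)) t := by
    intro t
    have hle : 1 / Λ ≤ 1 := by
      rw [div_le_one (by linarith)]
      exact hΛ
    by_cases ht : t ∈ Icc (-1 : ℝ) (B + 1)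
    · rw [indicator_of_mem ht]
      refine ENNReal.ofReal_le_ofReal (pow_le_pow_left₀ (lc_nonneg _ _ _) ?_ q)
      unfold lc
      exact Finset.sum_le_sum_of_subset_of_nonneg (Finset.filter_subset _ _) fun s _ _ => mz_nonneg s
    · rw [indicator_of_notMem ht]
      have : lc S Λ t = 0 := by
        unfold lc
        rw [Finset.filter_eq_empty_iff.2, Finset.sum_empty]
        intro s hs hcon
        obtain ⟨a1, a2⟩ := hS s hs
        obtain ⟨b1, b2⟩ := abs_le.1 (hcon.trans hle)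
        exact ht ⟨by linarith, by linarith⟩
      rw [this, zero_pow (by omega), ENNReal.ofReal_zero]
  unfold A
  refine (lintegral_mono h1).trans ?_
  rw [lintegral_indicator measurableSet_Icc, lintegral_const, Measure.restrict_apply_univ,
    Real.volume_Icc, ← ENNReal.ofReal_mul]
  · refine ENNReal.ofReal_le_ofReal (le_of_eq ?_)
    ring
  · exact pow_nonneg (Finset.sum_nonneg fun s _ => mz_nonneg s) q

/-- **moments of the local counts up to height `T`** -/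
theorem mom_whole (q : ℕ) (hq : 1 ≤ q) : ∃ C V0 : ℝ, 0 < C ∧ 20 ≤ V0 ∧ ∀ T : ℝ, V0 ≤ T →
    A (Zt T) q (Real.log T) ≤ ENNReal.ofReal (C * T) := by
  obtain ⟨C1, T0, hC1, hT0, h⟩ := cntmom q hq
  obtain ⟨C2, hC2, hadd⟩ := add_pow_le' q
  set V0 : ℝ := max T0 20 with hV0
  have hV020 : 20 ≤ V0 := le_max_right _ _
  set B0 : ℝ := (∑ s ∈ Zt (2 * V0), mz s) ^ q * (2 * V0 + 2) with hB0
  have hB00 : 0 ≤ B0 := by
    rw [hB0]
    exact mul_nonneg (pow_nonneg (Finset.sum_nonneg fun s _ => mz_nonneg s) q) (by linarith)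
  have hsmall : ∀ T : ℝ, T ≤ 2 * V0 → ∀ Λ : ℝ, 1 ≤ Λ → A (Zt T) q Λ ≤ ENNReal.ofReal B0 := by
    intro T hT Λ hΛ
    have hsub : Zt T ⊆ Zt (2 * V0) := by
      intro s hs
      rw [mem_Zt] at hs ⊢
      exact ⟨hs.1, hs.2.1, hs.2.2.1, hs.2.2.2.1.trans hT, hs.2.2.2.2⟩
    refine (A_mono hsub q Λ).trans ?_
    refine A_small (Zt (2 * V0)) q hq (by linarith) hΛ fun s hs => ?_
    rw [mem_Zt] at hs
    exact ⟨hs.2.2.1.le, hs.2.2.2.1⟩
  set C : ℝ := 2 * C2 * C1 + B0 + 1 with hC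
  have hC0 : 0 < C := by positivity
  have hlog1 : ∀ T : ℝ, V0 ≤ T → 1 ≤ Real.log T := by
    intro T hT
    rw [Real.le_log_iff_exp_le (by linarith)]
    linarith [Real.exp_one_lt_d9]
  have hmain : ∀ n : ℕ, ∀ T : ℝ, V0 ≤ T → T ≤ 2 ^ n * (2 * V0) → ∀ Λ : ℝ, Real.log T ≤ Λ →
      A (Zt T) q Λ ≤ ENNReal.ofReal (C * T) := by
    intro n
    induction n with
    | zero =>
      intro T hT hT2 Λ hΛ
      rw [pow_zero, one_mul] at hT2
      refine (hsmall T hT2 Λ ((hlog1 T hT).trans hΛ)).trans (ENNReal.ofReal_le_ofReal ?_)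
      nlinarith [mul_pos hC2 hC1]
    | succ n ih =>
      intro T hT hT2 Λ hΛ
      have hL1 := hlog1 T hT
      rcases le_or_gt T (2 * V0) with h' | h'
      · refine (hsmall T h' Λ (hL1.trans hΛ)).trans (ENNReal.ofReal_le_ofReal ?_)
        nlinarith [mul_pos hC2 hC1]
      · set V := T / 2 with hV
        have hVV : V0 ≤ V := by linarith
        have hV1 : 1 ≤ V := by linarith
        have hTV : T = 2 * V := by rw [hV]; ring
        have hlog : Real.log V ≤ Real.log T := Real.log_le_log (by linarith) (by linarith)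
        have h1 := ih V hVV (by
          rw [pow_succ] at hT2
          linarith) Λ (hlog.trans hΛ)
        have h2 : A (Zb V (2 * V)) q Λ ≤ ENNReal.ofReal (C1 * V) := by
          refine (A_anti _ q (by linarith [hlog1 V hVV]) (hlog.trans hΛ)).trans ?_
          exact h V ((le_max_left _ _).trans hVV)
        have h3 : A (Zt T) q Λ ≤ ENNReal.ofReal (3 / 2) * A (Zt V) q Λ +
            ENNReal.ofReal C2 * A (Zb V (2 * V)) q Λ := by
          rw [hTV, Zt_split (V := V) (T := 2 * V) hV1 (by linarith)]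
          exact A_union (Zt_disj hV1) q Λ hC2 hadd
        refine h3.trans ((add_le_add (mul_le_mul_right h1 _) (mul_le_mul_right h2 _)).trans ?_)
        rw [← ENNReal.ofReal_mul (by norm_num), ← ENNReal.ofReal_mul hC2.le,
          ← ENNReal.ofReal_add (by positivity) (by positivity)]
        refine ENNReal.ofReal_le_ofReal ?_
        rw [hTV]
        have : C2 * (C1 * V) ≤ C / 2 * V := by
          have : C2 * C1 ≤ C / 2 := by rw [hC]; linarith
          nlinarith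
        linarith
  refine ⟨C, V0, hC0, hV020, fun T hT => ?_⟩
  obtain ⟨n, hn⟩ := pow_unbounded_of_one_lt (T / (2 * V0)) (one_lt_two)
  refine hmain n T hT ?_ _ le_rfl
  rw [div_lt_iff₀ (by linarith)] at hn
  exact hn.le

/-- the box of the `n`-th ordinate -/
noncomputable def fb (T : ℝ) (n : ℕ) : ℤ := ⌊ord n * Real.log T⌋

/-- the indices up to height `T` -/
noncomputable def IT (T : ℝ) : Finset ℕ := Finset.Ioc 0 (NZ T)

theorem boxes (q : ℕ) (hq : 1 ≤ q) : ∃ C T0 : ℝ, 0 < C ∧ 20 ≤ T0 ∧ ∀ T : ℝ, T0 ≤ T →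
    ∑ k ∈ (IT T).image (fb T), bx (IT T) (fb T) k ^ q ≤ C * (T * Real.log T) := by
  classical
  obtain ⟨C, T0, hC, hT0, h⟩ := mom_whole q hq
  refine ⟨C, T0, hC, hT0, fun T hT => ?_⟩
  have hT1 : 1 ≤ T := by linarith
  have hL : 0 < Real.log T := Real.log_pos (by linarith)
  have h1 := cell_pow q hL (Zt T) mz mz_nonneg (by positivity : 0 ≤ C * T) (h T hT)
    ((IT T).image (fb T))
  refine le_trans (le_of_eq ?_) (h1.trans (le_of_eq (by ring)))
  refine Finset.sum_congr rfl fun k _ => ?_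
  congr 1
  have h2 := sum_Zt_ord T (fun x => if ⌊x * Real.log T⌋ = k then (1 : ℝ) else 0)
  have h3 : ∑ s ∈ (Zt T).filter (fun s => cell (Real.log T) s = k), mz s =
      ∑ s ∈ Zt T, mz s * (if ⌊s.im * Real.log T⌋ = k then (1 : ℝ) else 0) := by
    rw [Finset.sum_filter]
    refine Finset.sum_congr rfl fun s _ => ?_
    unfold cell
    split_ifs <;> simp
  rw [h3, h2]
  unfold bx fb IT
  rw [Finset.card_eq_sum_ones, Finset.sum_filter]
  push_cast
  rfl

lemma kI_le (I : Finset ℕ) (T : ℝ) (ρ : ℕ) (n : ℕ) :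
    (kI I (yy T) ρ n : ℝ) ≤ kb I (fb T) (7 * ρ) n := by
  unfold kI kb
  have h : I.filter (fun n' => |yy T n - yy T n'| ≤ ρ) ⊆
      I.filter (fun m => |fb T n - fb T m| ≤ (7 * ρ : ℕ)) := by
    intro m hm
    rw [Finset.mem_filter] at hm ⊢
    refine ⟨hm.1, ?_⟩
    have h1 := hm.2
    have hpi := Real.pi_lt_d2
    have hpi0 := Real.pi_pos
    have e1 : yy T n - yy T m = (ord n * Real.log T - ord m * Real.log T) / (2 * Real.pi) := by
      unfold yy
      ring
    rw [e1, abs_div, abs_of_pos (by positivity : 0 < 2 * Real.pi), div_le_iff₀ (by positivity)] at h1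
    have h2 : |ord n * Real.log T - ord m * Real.log T| ≤ ((7 * ρ : ℕ) : ℝ) := by
      refine h1.trans ?_
      push_cast
      have : (0 : ℝ) ≤ ρ := Nat.cast_nonneg ρ
      nlinarith
    unfold fb
    have h3 := abs_le.1 h2
    rw [abs_le]
    constructor
    · have h4 : ⌊ord m * Real.log T⌋ ≤ ⌊ord n * Real.log T⌋ + ((7 * ρ : ℕ) : ℤ) := by
        rw [← Int.floor_add_natCast]
        apply Int.floor_le_floor
        linarith
      linarith
    · have h4 : ⌊ord n * Real.log T⌋ ≤ ⌊ord m * Real.log T⌋ + ((7 * ρ : ℕ) : ℤ) := by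
        rw [← Int.floor_add_natCast]
        apply Int.floor_le_floor
        linarith
      linarith
  exact_mod_cast Finset.card_le_card h

lemma mul_pow_le {x y : ℝ} (hx : 0 ≤ x) (hy : 0 ≤ y) (q : ℕ) : x * y ^ q ≤ x ^ (q + 1) + y ^ (q + 1) := by
  rcases le_total x y with h | h
  · have h1 : x * y ^ q ≤ y * y ^ q := mul_le_mul_of_nonneg_right h (by positivity)
    have h2 : y * y ^ q = y ^ (q + 1) := by ring
    have h3 : 0 ≤ x ^ (q + 1) := by positivity
    linarith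
  · have h1 : x * y ^ q ≤ x * x ^ q := mul_le_mul_of_nonneg_left (pow_le_pow_left₀ hy h q) hx
    have h2 : x * x ^ q = x ^ (q + 1) := by ring
    have h3 : 0 ≤ y ^ (q + 1) := by positivity
    linarith

/-- moments of the local counts -/
theorem kb_pow (I : Finset ℕ) (f : ℕ → ℤ) (D q : ℕ) :
    ∑ n ∈ I, kb I f D n ^ (q + 1) ≤
      2 * (2 * D + 1) ^ (q + 1) * ∑ k ∈ I.image f, bx I f k ^ (q + 2) := by
  set U : Finset ℤ := Finset.Icc (-(D : ℤ)) D with hU
  have hcard : (U.card : ℝ) = 2 * D + 1 := card_Icc_int D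
  have h0 : ∀ n, kb I f D n ^ (q + 1) ≤ (2 * D + 1) ^ q * ∑ d ∈ U, bx I f (f n + d) ^ (q + 1) := by
    intro n
    have h1 : kb I f D n ^ (q + 1) ≤ (∑ d ∈ U, bx I f (f n + d)) ^ (q + 1) :=
      pow_le_pow_left₀ (Nat.cast_nonneg _) (kb_le I f D n) _
    refine h1.trans ?_
    have h2 := pow_sum_div_card_le_sum_pow (s := U) (f := fun d => bx I f (f n + d))
      (fun d _ => bx_nonneg _ _ _) q
    rw [hcard, div_le_iff₀ (by positivity)] at h2
    linarith
  calc ∑ n ∈ I, kb I f D n ^ (q + 1) ≤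
        ∑ n ∈ I, (2 * D + 1) ^ q * ∑ d ∈ U, bx I f (f n + d) ^ (q + 1) :=
        Finset.sum_le_sum fun n _ => h0 n
    _ = (2 * D + 1) ^ q * ∑ d ∈ U, ∑ k ∈ I.image f, bx I f k * bx I f (k + d) ^ (q + 1) := by
        rw [← Finset.mul_sum, Finset.sum_comm]
        congr 1
        refine Finset.sum_congr rfl fun d _ => ?_
        exact sum_fiber I f (fun k => bx I f (k + d) ^ (q + 1))
    _ ≤ (2 * D + 1) ^ q * ∑ d ∈ U, 2 * ∑ k ∈ I.image f, bx I f k ^ (q + 2) := by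
        apply mul_le_mul_of_nonneg_left _ (by positivity)
        refine Finset.sum_le_sum fun d _ => ?_
        have h1 : ∀ k ∈ I.image f, bx I f k * bx I f (k + d) ^ (q + 1) ≤
            bx I f k ^ (q + 2) + bx I f (k + d) ^ (q + 2) := fun k _ =>
          mul_pow_le (bx_nonneg _ _ _) (bx_nonneg _ _ _) (q + 1)
        refine (Finset.sum_le_sum h1).trans ?_
        rw [Finset.sum_add_distrib]
        have g1 := sum_shift I f (q + 2) (by omega) d
        linarith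
    _ = _ := by
        rw [Finset.sum_const, nsmul_eq_mul, hcard]
        ring

/-- **all moments of the local counts of the ordinates up to height `T`** -/
theorem kI_pow (q ρ : ℕ) : ∃ C : ℝ, 0 < C ∧ ∀ᶠ T : ℝ in atTop,
    ∑ n ∈ IT T, (kI (IT T) (yy T) ρ n : ℝ) ^ (q + 1) ≤ C * Xf T := by
  obtain ⟨C, T0, hC, hT0, h⟩ := boxes (q + 2) (by omega)
  set K : ℝ := 2 * (2 * ((7 * ρ : ℕ) : ℝ) + 1) ^ (q + 1) with hK
  have hK0 : 0 < K := by positivity
  have hpi := Real.pi_pos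
  refine ⟨K * C * (2 * Real.pi), by positivity, ?_⟩
  filter_upwards [eventually_ge_atTop T0] with T hT
  refine (Finset.sum_le_sum fun n _ => pow_le_pow_left₀ (Nat.cast_nonneg _)
    (kI_le (IT T) T ρ n) (q + 1)).trans ?_
  refine (kb_pow (IT T) (fb T) (7 * ρ) q).trans ?_
  have h1 := mul_le_mul_of_nonneg_left (h T hT) hK0.le
  refine h1.trans (le_of_eq ?_)
  unfold Xf
  field_simp

end Q241.SC
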