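import Pool.Agent.Q276.UR.B1

/-! # The local theorem with weights -/

set_option autoImplicit false

open Filter Topology Set MeasureTheory FourierTransform

namespace Q241.SC

open H370.A2 (RR)
open H177.Lat (kI far_pairs)
open Pool.Agent.Q276.LR

/-- the weighted number of windows covering a point -/
noncomputable def NV (I : Finset ℕ) (y t : ℕ → ℝ) (x : ℝ) : ℝ :=
  ∑ n ∈ I, t n * (Icc (y n - 1) (y n + 1)).indicator (fun _ => (1 : ℝ)) x

lemma NV_sq (I I' : Finset ℕ) (hI : I' ⊆ I) (y t : ℕ → ℝ) (ht : ∀ n, 0 ≤ t n) :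
    Integrable (fun x => NV I' y t x ^ 2) ∧
    ∫ x, NV I' y t x ^ 2 ≤ 2 * ∑ n ∈ I, t n ^ 2 * (kI I y 2 n : ℝ) := by
  have e1 : ∀ x, NV I' y t x ^ 2 = ∑ n ∈ I', ∑ m ∈ I', t n * t m *
      ((Icc (y n - 1) (y n + 1)).indicator (fun _ => (1 : ℝ)) x *
      (Icc (y m - 1) (y m + 1)).indicator (fun _ => (1 : ℝ)) x) := by
    intro x
    unfold NV
    rw [sq, Finset.sum_mul_sum]
    refine Finset.sum_congr rfl fun n _ => Finset.sum_congr rfl fun m _ => ?_
    ring
  simp_rw [e1]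
  have i1 : ∀ n ∈ I', Integrable fun x => ∑ m ∈ I', t n * t m *
      ((Icc (y n - 1) (y n + 1)).indicator (fun _ => (1 : ℝ)) x *
      (Icc (y m - 1) (y m + 1)).indicator (fun _ => (1 : ℝ)) x) :=
    fun n _ => integrable_finsetSum _ fun m _ => (win_int2 _ _).const_mul _
  refine ⟨integrable_finsetSum _ i1, ?_⟩
  rw [integral_finsetSum _ i1]
  set c : ℕ → ℕ → ℝ := fun n m => if |y n - y m| ≤ 2 then 1 else 0 with hc
  have hc0 : ∀ n m, 0 ≤ c n m := fun n m => by simp only [hc]; split_ifs <;> norm_num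
  have hcs : ∀ n m, c n m = c m n := fun n m => by simp only [hc]; rw [abs_sub_comm]
  have h1 : ∀ n ∈ I', ∫ x, ∑ m ∈ I', t n * t m *
      ((Icc (y n - 1) (y n + 1)).indicator (fun _ => (1 : ℝ)) x *
      (Icc (y m - 1) (y m + 1)).indicator (fun _ => (1 : ℝ)) x) ≤
      ∑ m ∈ I', (t n ^ 2 * c n m + t m ^ 2 * c m n) := by
    intro n _
    rw [integral_finsetSum _ fun m _ => (win_int2 _ _).const_mul _]
    refine Finset.sum_le_sum fun m _ => ?_
    rw [integral_const_mul]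
    have h2 := mul_le_mul_of_nonneg_left (win_ov (y n) (y m)) (mul_nonneg (ht n) (ht m))
    refine h2.trans ?_
    have e : (if |y n - y m| ≤ 2 then (1 : ℝ) else 0) = c n m := rfl
    rw [e, hcs m n, ← add_mul]
    have h3 : t n * t m * 2 ≤ t n ^ 2 + t m ^ 2 := by nlinarith [sq_nonneg (t n - t m)]
    have h4 := mul_le_mul_of_nonneg_right h3 (hc0 n m)
    linarith
  refine (Finset.sum_le_sum h1).trans ?_
  have e2 : ∑ n ∈ I', ∑ m ∈ I', (t n ^ 2 * c n m + t m ^ 2 * c m n) =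
      2 * ∑ n ∈ I', t n ^ 2 * ∑ m ∈ I', c n m := by
    have e3 : ∑ n ∈ I', ∑ m ∈ I', t m ^ 2 * c m n = ∑ n ∈ I', ∑ m ∈ I', t n ^ 2 * c n m :=
      Finset.sum_comm
    simp_rw [Finset.sum_add_distrib]
    rw [e3]
    simp_rw [Finset.mul_sum]
    rw [← Finset.sum_add_distrib]
    refine Finset.sum_congr rfl fun n _ => ?_
    rw [← Finset.sum_add_distrib]
    refine Finset.sum_congr rfl fun m _ => ?_
    ring
  rw [e2]
  apply mul_le_mul_of_nonneg_left _ (by norm_num)
  have h5 : ∀ n ∈ I', t n ^ 2 * ∑ m ∈ I', c n m ≤ t n ^ 2 * (kI I y 2 n : ℝ) := by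
    intro n _
    apply mul_le_mul_of_nonneg_left _ (sq_nonneg _)
    unfold kI
    rw [Finset.card_filter]
    push_cast
    exact Finset.sum_le_sum_of_subset_of_nonneg hI fun m _ _ => hc0 n m
  refine (Finset.sum_le_sum h5).trans ?_
  exact Finset.sum_le_sum_of_subset_of_nonneg hI fun n _ _ => by positivity

/-- Cauchy-Schwarz for weighted sums over windows -/
lemma nv_amgm (I' : Finset ℕ) (y t : ℕ → ℝ) (hNW : Integrable (fun x => NV I' y t x ^ 2))
    {f : ℝ → ℝ} (hfm : AEStronglyMeasurable f) (hf2 : Integrable (fun x => f x ^ 2))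
    {s : ℝ} (hs : 0 < s) :
    ∑ n ∈ I', t n * ∫ x in (y n - 1)..(y n + 1), |f x| ≤
      s / 2 * (∫ x, f x ^ 2) + 1 / (2 * s) * ∫ x, NV I' y t x ^ 2 := by
  have e1 : ∀ n, ∫ x in (y n - 1)..(y n + 1), |f x| =
      ∫ x, (Icc (y n - 1) (y n + 1)).indicator (fun _ => (1 : ℝ)) x * |f x| := by
    intro n
    rw [intervalIntegral.integral_of_le (by linarith), ← integral_Icc_eq_integral_Ioc,
      ← integral_indicator measurableSet_Icc]
    refine integral_congr_ae (Eventually.of_forall fun x => ?_)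
    show (Icc (y n - 1) (y n + 1)).indicator (fun x => |f x|) x =
      (Icc (y n - 1) (y n + 1)).indicator (fun _ => (1 : ℝ)) x * |f x|
    by_cases h : x ∈ Icc (y n - 1) (y n + 1)
    · rw [indicator_of_mem h, indicator_of_mem h, one_mul]
    · rw [indicator_of_notMem h, indicator_of_notMem h, zero_mul]
  have i1 : ∀ n, Integrable fun x =>
      (Icc (y n - 1) (y n + 1)).indicator (fun _ => (1 : ℝ)) x * |f x| := by
    intro n
    refine ((win_int (y n)).add hf2).mono' ((win_int (y n)).1.mul hfm.norm)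
      (Eventually.of_forall fun x => ?_)
    rw [Real.norm_eq_abs]
    show abs ((Icc (y n - 1) (y n + 1)).indicator (fun _ => (1 : ℝ)) x * |f x|) ≤
      (Icc (y n - 1) (y n + 1)).indicator (fun _ => (1 : ℝ)) x + f x ^ 2
    have h0 : 0 ≤ |f x| := abs_nonneg _
    by_cases h : x ∈ Icc (y n - 1) (y n + 1)
    · rw [indicator_of_mem h, one_mul, abs_abs, ← sq_abs (f x)]
      nlinarith [sq_nonneg (|f x| - 1)]
    · rw [indicator_of_notMem h, zero_mul, abs_zero]
      positivity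
  simp_rw [e1, ← integral_const_mul]
  rw [← integral_finsetSum _ fun n _ => (i1 n).const_mul _, ← integral_add (hf2.const_mul _) (hNW.const_mul _)]
  apply integral_mono (integrable_finsetSum _ fun n _ => (i1 n).const_mul _)
    ((hf2.const_mul _).add (hNW.const_mul _))
  intro x
  show ∑ n ∈ I', t n * ((Icc (y n - 1) (y n + 1)).indicator (fun _ => (1 : ℝ)) x * |f x|) ≤
    s / 2 * f x ^ 2 + 1 / (2 * s) * NV I' y t x ^ 2
  have e3 : ∑ n ∈ I', t n * ((Icc (y n - 1) (y n + 1)).indicator (fun _ => (1 : ℝ)) x * |f x|) =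
      NV I' y t x * |f x| := by
    unfold NV
    rw [Finset.sum_mul]
    refine Finset.sum_congr rfl fun n _ => ?_
    ring
  rw [e3, ← sq_abs (f x)]
  have h2 : s / 2 * |f x| ^ 2 + 1 / (2 * s) * NV I' y t x ^ 2 - NV I' y t x * |f x| =
      1 / (2 * s) * (s * |f x| - NV I' y t x) ^ 2 := by
    field_simp
    ring
  have h3 : 0 ≤ 1 / (2 * s) * (s * |f x| - NV I' y t x) ^ 2 := by positivity
  linarith

theorem local_w (E0 : ℝ) (J : ℕ) (hJ : 1 ≤ J) (I I' : Finset ℕ) (hI' : I' ⊆ I) (y t : ℕ → ℝ)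
    (ht : ∀ n, 0 ≤ t n)
    (Y0 M ε C2 : ℝ) (hM : 0 < M) (hε : 0 ≤ ε) (hC2 : 0 ≤ C2)
    (hin : ∀ n ∈ I', Y0 + 1 ≤ y n ∧ y n ≤ Y0 + M - 1)
    (h1 : ∑ n ∈ I, ∑ m ∈ I, RR (Psi J) (1 / 2) (y n - y m) ≤ M * (mJ J ^ 2 + E0 / J + ε))
    (h2 : ∑ n ∈ I, (kI I y 2 n : ℝ) ≤ C2 * M) (h3 : ∑ n ∈ I, (kI I y 1 n : ℝ) ≤ C2 * M)
    (h4 : ∑ n ∈ I, t n ^ 2 * (kI I y 2 n : ℝ) ≤ C2 * M)
    (hN : (1 - ε) * M ≤
      ((I.filter (fun n => Y0 + 2 ^ J ≤ y n ∧ y n ≤ Y0 + M - 2 ^ J)).card : ℝ)) :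
    ∑ n ∈ I', t n * |FF J I y (y n) - mJ J| ≤
      M * ((E0 / 4 + 20000 * C2) / Real.sqrt J + Real.sqrt J * (ε * (1 + mJ J ^ 2))) := by
  have hpi := Real.pi_pos
  have hpi2 := Real.pi_lt_d2
  have hJ0 : (1 : ℝ) ≤ J := by exact_mod_cast hJ
  have hJpos : (0 : ℝ) < J := by linarith
  set m := mJ J with hm
  have hm0 : 0 ≤ m := mJ_nonneg J
  set E := ∑ n ∈ I, ∑ m ∈ I, Real.exp (-(2 * Real.pi) * |y n - y m|) with hE
  have hE1 : E ≤ 9 * C2 * M := by
    have := exp_pairs I y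
    rw [← hE] at this
    linarith
  obtain ⟨iF, hF⟩ := FF_sq J I y
  obtain ⟨iG, hG⟩ := GG_sq J I y
  obtain ⟨iN, hNW⟩ := NV_sq I I' hI' y t ht
  rw [← hE] at hF hG
  set F := FF J I y with hFdef
  have hFc : Continuous F := FF_cont J I y
  have hmean := FF_mean J I y Y0 M hM.le
  -- the mean square of `F - m`
  have hZ : ∫ x in Y0..(Y0 + M), (F x - m) ^ 2 ≤
      M * (E0 / J + ε + 2 * ε * m ^ 2) + 160 / J ^ 2 * (Real.pi * E) := by
    have e1 : ∫ x in Y0..(Y0 + M), (F x - m) ^ 2 =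
        (∫ x in Y0..(Y0 + M), F x ^ 2) - 2 * m * (∫ x in Y0..(Y0 + M), F x) + m ^ 2 * M := by
      have e2 : ∀ x, (F x - m) ^ 2 = F x ^ 2 - 2 * m * F x + m ^ 2 := fun x => by ring
      simp_rw [e2]
      have j1 : IntervalIntegrable (fun x => F x ^ 2) volume Y0 (Y0 + M) :=
        (by fun_prop : Continuous fun x => F x ^ 2).intervalIntegrable _ _
      have j2 : IntervalIntegrable (fun x => 2 * m * F x) volume Y0 (Y0 + M) :=
        (by fun_prop : Continuous fun x => 2 * m * F x).intervalIntegrable _ _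
      rw [intervalIntegral.integral_add (j1.sub j2) (by simp),
        intervalIntegral.integral_sub j1 j2, intervalIntegral.integral_const_mul,
        intervalIntegral.integral_const, smul_eq_mul]
      ring
    have e3 : ∫ x in Y0..(Y0 + M), F x ^ 2 ≤ ∫ x, F x ^ 2 := by
      rw [intervalIntegral.integral_of_le (by linarith)]
      exact setIntegral_le_integral iF (Eventually.of_forall fun x => by positivity)
    have e4 : m * ((1 - ε) * M) ≤ ∫ x in Y0..(Y0 + M), F x :=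
      (mul_le_mul_of_nonneg_left hN hm0).trans hmean
    have e5 : 2 * m * (m * ((1 - ε) * M)) ≤ 2 * m * (∫ x in Y0..(Y0 + M), F x) :=
      mul_le_mul_of_nonneg_left e4 (by positivity)
    rw [e1]
    nlinarith
  -- the sums over the windows
  set s := Real.sqrt J with hs
  have hs0 : 0 < s := Real.sqrt_pos.2 hJpos
  have hs1 : 1 ≤ s := by rw [hs]; exact Real.one_le_sqrt.2 hJ0
  have hs2 : s * s = J := Real.mul_self_sqrt hJpos.le
  have hA : ∑ n ∈ I', t n * ∫ x in (y n - 1)..(y n + 1), |F x - m| ≤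
      s / 2 * (∫ x in Y0..(Y0 + M), (F x - m) ^ 2) + 1 / (2 * s) * ∫ x, NV I' y t x ^ 2 := by
    set f : ℝ → ℝ := (Icc Y0 (Y0 + M)).indicator (fun x => F x - m) with hf
    have hf2 : (fun x => f x ^ 2) = (Icc Y0 (Y0 + M)).indicator (fun x => (F x - m) ^ 2) := by
      funext x
      rw [hf]
      by_cases h : x ∈ Icc Y0 (Y0 + M)
      · rw [indicator_of_mem h, indicator_of_mem h]
      · rw [indicator_of_notMem h, indicator_of_notMem h]; norm_num
    have hfi : Integrable (fun x => f x ^ 2) := by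
      rw [hf2, integrable_indicator_iff measurableSet_Icc]
      exact ((hFc.sub continuous_const).pow 2).continuousOn.integrableOn_Icc
    have hfm : AEStronglyMeasurable f :=
      ((hFc.sub continuous_const).measurable.indicator measurableSet_Icc).aestronglyMeasurable
    have h4 := nv_amgm I' y t iN hfm hfi hs0
    have h5 : ∫ x, f x ^ 2 = ∫ x in Y0..(Y0 + M), (F x - m) ^ 2 := by
      rw [hf2, integral_indicator measurableSet_Icc, integral_Icc_eq_integral_Ioc,
        intervalIntegral.integral_of_le (by linarith)]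
    rw [h5] at h4
    refine le_trans (le_of_eq ?_) h4
    refine Finset.sum_congr rfl fun n hn => ?_
    congr 1
    apply intervalIntegral.integral_congr
    intro x hx
    rw [uIcc_of_le (by linarith)] at hx
    obtain ⟨g1, g2⟩ := hin n hn
    have h6 : x ∈ Icc Y0 (Y0 + M) := ⟨by linarith [hx.1], by linarith [hx.2]⟩
    show |F x - m| = |f x|
    rw [hf, indicator_of_mem h6]
  have hB := nv_amgm I' y t iN (GG_meas J I y) iG hs0
  have hsum : 2 * ∑ n ∈ I', t n * |F (y n) - m| ≤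
      (∑ n ∈ I', t n * ∫ x in (y n - 1)..(y n + 1), |F x - m|) +
        2 * ∑ n ∈ I', t n * ∫ x in (y n - 1)..(y n + 1), |GG J I y x| := by
    rw [Finset.mul_sum, Finset.mul_sum, ← Finset.sum_add_distrib]
    refine Finset.sum_le_sum fun n _ => ?_
    have hsa := mul_le_mul_of_nonneg_left (sample J I y m (y n)) (ht n)
    linarith
  have hNW' : ∫ x, NV I' y t x ^ 2 ≤ 2 * (C2 * M) := by linarith
  have hc0 : 0 ≤ C2 * M := by positivity
  -- numerical bounds
  have q1 : 160 / (J : ℝ) ^ 2 * (Real.pi * E) ≤ 4600 * (C2 * M) / J := by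
    have : Real.pi * E ≤ 3.15 * (9 * (C2 * M)) := by
      have hEE : 0 ≤ E := by rw [hE]; positivity
      have : E ≤ 9 * (C2 * M) := by linarith
      nlinarith
    calc 160 / (J : ℝ) ^ 2 * (Real.pi * E) ≤ 160 / (J : ℝ) ^ 2 * (3.15 * (9 * (C2 * M))) :=
          mul_le_mul_of_nonneg_left this (by positivity)
      _ = 4536 * (C2 * M) / J * (1 / J) := by field_simp; ring
      _ ≤ 4536 * (C2 * M) / J * 1 := by
          apply mul_le_mul_of_nonneg_left _ (by positivity)
          rw [div_le_one hJpos]; exact hJ0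
      _ ≤ 4600 * (C2 * M) / J := by rw [mul_one]; gcongr; norm_num
  have q2 : 1000 / (J : ℝ) ^ 2 * (Real.pi * E) ≤ 28400 * (C2 * M) / J := by
    have : Real.pi * E ≤ 3.15 * (9 * (C2 * M)) := by
      have hEE : 0 ≤ E := by rw [hE]; positivity
      have : E ≤ 9 * (C2 * M) := by linarith
      nlinarith
    calc 1000 / (J : ℝ) ^ 2 * (Real.pi * E) ≤ 1000 / (J : ℝ) ^ 2 * (3.15 * (9 * (C2 * M))) :=
          mul_le_mul_of_nonneg_left this (by positivity)
      _ = 28350 * (C2 * M) / J * (1 / J) := by field_simp; ring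
      _ ≤ 28350 * (C2 * M) / J * 1 := by
          apply mul_le_mul_of_nonneg_left _ (by positivity)
          rw [div_le_one hJpos]; exact hJ0
      _ ≤ 28400 * (C2 * M) / J := by rw [mul_one]; gcongr; norm_num
  have q3 : s / J = 1 / s := by
    rw [← hs2]
    field_simp
  have r1 : s / 2 * (∫ x in Y0..(Y0 + M), (F x - m) ^ 2) ≤
      M * (E0 / 2 / s + s * (ε * (1 + m ^ 2))) + 2300 * (C2 * M) / s := by
    calc s / 2 * (∫ x in Y0..(Y0 + M), (F x - m) ^ 2) ≤
        s / 2 * (M * (E0 / J + ε + 2 * ε * m ^ 2) + 4600 * (C2 * M) / J) :=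
          mul_le_mul_of_nonneg_left (hZ.trans (by linarith)) (by positivity)
      _ = M * (E0 / 2 * (s / J) + s / 2 * (ε + 2 * ε * m ^ 2)) + 2300 * (C2 * M) * (s / J) := by ring
      _ ≤ M * (E0 / 2 * (s / J) + s * (ε * (1 + m ^ 2))) + 2300 * (C2 * M) * (s / J) := by
          have : s / 2 * (ε + 2 * ε * m ^ 2) ≤ s * (ε * (1 + m ^ 2)) := by
            have : 0 ≤ s * ε := by positivity
            nlinarith
          have h8 := mul_le_mul_of_nonneg_left this hM.le
          linarith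
      _ = _ := by rw [q3]; ring
  have r2 : 1 / (2 * s) * (∫ x, NV I' y t x ^ 2) ≤ (C2 * M) / s := by
    calc 1 / (2 * s) * (∫ x, NV I' y t x ^ 2) ≤ 1 / (2 * s) * (2 * (C2 * M)) :=
          mul_le_mul_of_nonneg_left hNW' (by positivity)
      _ = _ := by field_simp
  have r3 : s / 2 * (∫ x, GG J I y x ^ 2) ≤ 14200 * (C2 * M) / s := by
    calc s / 2 * (∫ x, GG J I y x ^ 2) ≤ s / 2 * (28400 * (C2 * M) / J) :=
          mul_le_mul_of_nonneg_left (hG.trans q2) (by positivity)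
      _ = 14200 * (C2 * M) * (s / J) := by ring
      _ = _ := by rw [q3]; ring
  have r4 : 2 * ∑ n ∈ I', t n * |F (y n) - m| ≤
      M * (E0 / 2 / s + s * (ε * (1 + m ^ 2))) + 2300 * (C2 * M) / s + (C2 * M) / s +
        2 * (14200 * (C2 * M) / s + (C2 * M) / s) := by linarith
  have r5 : M * (E0 / 2 / s + s * (ε * (1 + m ^ 2))) + 2300 * (C2 * M) / s + (C2 * M) / s +
        2 * (14200 * (C2 * M) / s + (C2 * M) / s) ≤
      2 * (M * ((E0 / 4 + 20000 * C2) / s + s * (ε * (1 + m ^ 2)))) := by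
    have t1 : 0 ≤ C2 * M / s := by positivity
    have t2 : 0 ≤ M * (s * (ε * (1 + m ^ 2))) := by positivity
    have t3 : 2 * (M * ((E0 / 4 + 20000 * C2) / s + s * (ε * (1 + m ^ 2)))) =
        M * (E0 / 2 / s) + 40000 * (C2 * M / s) + 2 * (M * (s * (ε * (1 + m ^ 2)))) := by
      field_simp
      ring
    rw [t3]
    have t4 : M * (E0 / 2 / s + s * (ε * (1 + m ^ 2))) + 2300 * (C2 * M) / s + (C2 * M) / s +
        2 * (14200 * (C2 * M) / s + (C2 * M) / s) = M * (E0 / 2 / s) + 30703 * (C2 * M / s) +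
        M * (s * (ε * (1 + m ^ 2))) := by ring
    rw [t4]
    nlinarith
  linarith

end Q241.SC
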