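import Pool.Agent.Q241.SC.B1
import Pool.Agent.Q241.SC.C1

/-! # Screening for the ordinates up to height `T`, with weights, without hypothesis -/

set_option autoImplicit false

open Filter Topology Set MeasureTheory FourierTransform

namespace Q241.SC

open Pool.Agent.Q276.LR
open Pool.Agent.Y744
open H177.Lat (yy kI)
open H370.A2 (RR)
open SG (ord NZ)
open Q241.KL (card_lim card_JZ)
open Q241.GL (card_JZ_NZ)

lemma kI_mono (I : Finset ℕ) (y : ℕ → ℝ) {ρ ρ' : ℝ} (h : ρ ≤ ρ') (n : ℕ) :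
    (kI I y ρ n : ℝ) ≤ kI I y ρ' n := by
  unfold kI
  have : I.filter (fun n' => |y n - y n'| ≤ ρ) ⊆ I.filter (fun n' => |y n - y n'| ≤ ρ') := by
    intro m hm
    rw [Finset.mem_filter] at hm ⊢
    exact ⟨hm.1, hm.2.trans h⟩
  exact_mod_cast Finset.card_le_card this

lemma one_le_kI {I : Finset ℕ} {y : ℕ → ℝ} {ρ : ℝ} (h : 0 ≤ ρ) {n : ℕ} (hn : n ∈ I) :
    (1 : ℝ) ≤ kI I y ρ n := by
  unfold kI
  have : 0 < (I.filter (fun n' => |y n - y n'| ≤ ρ)).card := by
    rw [Finset.card_pos]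
    exact ⟨n, Finset.mem_filter.2 ⟨hn, by rw [sub_self, abs_zero]; exact h⟩⟩
  exact_mod_cast this

lemma FF_le (J : ℕ) (hJ : 1 ≤ J) (I : Finset ℕ) (y : ℕ → ℝ) (n : ℕ) :
    FF J I y (y n) ≤ kI I y (2 ^ J) n := by
  unfold FF kI
  rw [Finset.card_filter]
  push_cast
  refine Finset.sum_le_sum fun m _ => ?_
  split_ifs with h
  · exact Ph_le_one hJ _
  · push Not at h
    exact (Ph_far h.le).le

/-- few ordinates close to the upper end -/
lemma edge_small {ε : ℝ} (hε : 0 < ε) : ∀ᶠ T : ℝ in atTop,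
    (((IT T).filter (fun n => T - 1 < ord n)).card : ℝ) ≤ ε * Xf T := by
  obtain ⟨V1, hV1, hN⟩ := near_bound
  filter_upwards [eventually_ge_atTop V1, eventually_ge_atTop (1 / ε ^ 2),
    Real.tendsto_log_atTop.eventually_ge_atTop (2 * Real.pi)] with T h1 h2 h3
  have hT20 : 20 ≤ T := hV1.trans h1
  have hpi := Real.pi_pos
  have hX : T ≤ Xf T := by
    unfold Xf
    rw [le_div_iff₀ (by positivity)]
    exact mul_le_mul_of_nonneg_left h3 (by linarith)
  have e1 : (((IT T).filter (fun n => T - 1 < ord n)).card : ℝ) =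
      ∑ s ∈ Zt T, mz s * (if T - 1 < s.im then 1 else 0) := by
    rw [sum_Zt_ord T (fun x => if T - 1 < x then (1 : ℝ) else 0), Finset.card_filter]
    push_cast
    rfl
  set c : ℝ := (((IT T).filter (fun n => T - 1 < ord n)).card : ℝ) with hc
  have hc0 : 0 ≤ c := Nat.cast_nonneg _
  have h4 : c ≤ ∑ s ∈ Zb (T - 1) (T - 1 + 3), mz s := by
    rw [e1]
    have e2 : ∑ s ∈ Zt T, mz s * (if T - 1 < s.im then 1 else 0) =
        ∑ s ∈ (Zt T).filter (fun s => T - 1 < s.im), mz s := by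
      rw [Finset.sum_filter]
      refine Finset.sum_congr rfl fun s _ => ?_
      split_ifs <;> simp
    rw [e2]
    refine Finset.sum_le_sum_of_subset_of_nonneg (fun s hs => ?_) fun s _ _ => mz_nonneg s
    rw [Finset.mem_filter, mem_Zt] at hs
    rw [mem_Zb (by linarith)]
    obtain ⟨⟨b1, b2, b3, b4, b5⟩, b6⟩ := hs
    exact ⟨b1, b2, b6, by linarith, b5⟩
  have h5 := hN T h1
  have h6 : c ^ 2 ≤ T := by
    have : c ^ 2 ≤ (∑ s ∈ Zb (T - 1) (T - 1 + 3), mz s) ^ 2 := pow_le_pow_left₀ hc0 h4 2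
    nlinarith [sq_nonneg c]
  have h7 : c ≤ ε * T := by
    by_contra hcon
    push Not at hcon
    have h8 : (ε * T) ^ 2 < c ^ 2 := pow_lt_pow_left₀ hcon (by positivity) (by norm_num)
    have h9 : 1 ≤ T * ε ^ 2 := by rwa [div_le_iff₀ (by positivity)] at h2
    have h10 : T ≤ (ε * T) ^ 2 := by
      have : (ε * T) ^ 2 = T * (T * ε ^ 2) := by ring
      rw [this]
      nlinarith
    linarith
  exact h7.trans (mul_le_mul_of_nonneg_left hX hε.le)

/-- the lower end -/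
lemma low_large (R : ℝ) : ∀ᶠ T : ℝ in atTop, ∀ n ∈ IT T, R ≤ yy T n := by
  have hm : 0 < ord 1 := SG.ord_pos le_rfl
  have hpi := Real.pi_pos
  filter_upwards [Real.tendsto_log_atTop.eventually_ge_atTop (max 1 (R * (2 * Real.pi) / ord 1))]
    with T h1 n hn
  have hl0 : 0 < Real.log T := by linarith [le_max_left 1 (R * (2 * Real.pi) / ord 1)]
  unfold IT at hn
  rw [Finset.mem_Ioc] at hn
  have h2 : ord 1 ≤ ord n := SG.ord_mono le_rfl (by omega)
  have h3 : R * (2 * Real.pi) / ord 1 ≤ Real.log T := (le_max_right _ _).trans h1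
  rw [div_le_iff₀ hm] at h3
  unfold yy
  rw [le_div_iff₀ (by positivity)]
  have h4 : Real.log T * ord 1 ≤ ord n * Real.log T := by
    rw [mul_comm]
    exact mul_le_mul_of_nonneg_right h2 hl0.le
  linarith

lemma NZ_low {ε : ℝ} (hε : 0 < ε) : ∀ᶠ T : ℝ in atTop, (1 - ε) * Xf T ≤ NZ T := by
  filter_upwards [(tendsto_order.1 card_lim).1 (1 - ε) (by linarith), eventually_gt_atTop 1]
    with T h1 h2
  have hX := Xf_pos h2
  rw [card_JZ_NZ, lt_div_iff₀ hX] at h1
  exact h1.le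

/-- the number of points in the middle -/
lemma mid_count (A : ℝ) {ε : ℝ} (hε : 0 < ε) : ∀ᶠ T : ℝ in atTop,
    (1 - ε) * Xf T ≤ (((IT T).filter (fun n => 0 + A ≤ yy T n ∧ yy T n ≤ 0 + Xf T - A)).card : ℝ) := by
  have hpi := Real.pi_pos
  filter_upwards [NZ_low (half_pos hε), edge_small (half_pos hε), low_large A,
    Real.tendsto_log_atTop.eventually_ge_atTop (max 1 (A * (2 * Real.pi)))] with T h1 h2 h3 h4
  have hl0 : 1 ≤ Real.log T := (le_max_left _ _).trans h4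
  have hA : A * (2 * Real.pi) ≤ Real.log T := (le_max_right _ _).trans h4
  have h5 : IT T ⊆ (IT T).filter (fun n => 0 + A ≤ yy T n ∧ yy T n ≤ 0 + Xf T - A) ∪
      (IT T).filter (fun n => T - 1 < ord n) := by
    intro n hn
    rw [Finset.mem_union, Finset.mem_filter, Finset.mem_filter]
    rcases le_or_gt (ord n) (T - 1) with h6 | h6
    · left
      refine ⟨hn, by linarith [h3 n hn], ?_⟩
      unfold yy Xf
      rw [zero_add, div_le_iff₀ (by positivity), sub_mul, div_mul_cancel₀ _ (by positivity)]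
      nlinarith
    · right
      exact ⟨hn, h6⟩
  have h6 := (Finset.card_le_card h5).trans (Finset.card_union_le _ _)
  have h7 : (IT T).card = NZ T := by unfold IT; rw [Nat.card_Ioc]; omega
  rw [h7] at h6
  have h8 : (NZ T : ℝ) ≤
      ((IT T).filter (fun n => 0 + A ≤ yy T n ∧ yy T n ≤ 0 + Xf T - A)).card +
      ((IT T).filter (fun n => T - 1 < ord n)).card := by exact_mod_cast h6
  linarith

lemma amgm1 (x : ℝ) {δ : ℝ} (hδ : 0 < δ) : x ≤ δ * x ^ 2 + 1 / (4 * δ) := by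
  have e : δ * x ^ 2 + 1 / (4 * δ) - x = (2 * δ * x - 1) ^ 2 / (4 * δ) := by
    field_simp
    ring
  have : 0 ≤ (2 * δ * x - 1) ^ 2 / (4 * δ) := by positivity
  linarith

/-- **screening with weights, without hypothesis** -/
theorem scr_yy (r ρ : ℕ) : ∃ C : ℝ, 0 < C ∧ ∀ J : ℕ, 1 ≤ J → ∀ ε : ℝ, 0 < ε → ∀ᶠ T : ℝ in atTop,
    ∑ n ∈ IT T, (kI (IT T) (yy T) ρ n : ℝ) ^ r * |FF J (IT T) (yy T) (yy T n) - mJ J| ≤
      (C / Real.sqrt J + ε) * Xf T := by
  obtain ⟨E0, hE0, hpair⟩ := pair_whole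
  obtain ⟨Ca, hCa, ha⟩ := kI_pow 0 2
  obtain ⟨Cb, hCb, hb⟩ := kI_pow 0 1
  obtain ⟨Cc, hCc, hc⟩ := kI_pow (2 * r) (max ρ 2)
  set C2 : ℝ := Ca + Cb + Cc with hC2
  have hC20 : 0 < C2 := by positivity
  have hpi := Real.pi_pos
  refine ⟨E0 / 4 + 20000 * C2, by positivity, fun J hJ ε hε => ?_⟩
  obtain ⟨Cd, hCd, hd⟩ := kI_pow (2 * r + 1) (max ρ (2 ^ J))
  set m := mJ J with hm
  have hm0 : 0 ≤ m := mJ_nonneg J
  have hJ1 : (1 : ℝ) ≤ J := by exact_mod_cast hJ
  have hJpos : (0 : ℝ) < J := by linarith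
  have hsJ : 0 < Real.sqrt J := Real.sqrt_pos.2 hJpos
  -- parameters
  set ε1 : ℝ := ε / (4 * (Real.sqrt J * (1 + m ^ 2))) with hε1
  have hε10 : 0 < ε1 := by positivity
  set δ : ℝ := ε / (4 * ((1 + m) * Cd)) with hδ
  have hδ0 : 0 < δ := by positivity
  set ε2 : ℝ := ε * δ / (1 + m) with hε2
  have hε20 : 0 < ε2 := by positivity
  filter_upwards [hpair J hJ ε1 hε10, ha, hb, hc, hd, mid_count (2 ^ J) hε10, edge_small hε20,
    low_large 1, eventually_gt_atTop 1,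
    Real.tendsto_log_atTop.eventually_ge_atTop (2 * Real.pi)] with T g1 g2 g3 g4 g5 g6 g7 g8 g9 g10
  have hX := Xf_pos g9
  set I := IT T with hI
  set y := yy T with hy
  set I' := I.filter (fun n => ord n ≤ T - 1) with hI'
  have hsub : I' ⊆ I := Finset.filter_subset _ _
  have hin : ∀ n ∈ I', (0 : ℝ) + 1 ≤ y n ∧ y n ≤ 0 + Xf T - 1 := by
    intro n hn
    rw [hI', Finset.mem_filter] at hn
    refine ⟨by linarith [g8 n hn.1], ?_⟩
    rw [hy]
    unfold yy Xf
    rw [zero_add, div_le_iff₀ (by positivity), sub_mul, div_mul_cancel₀ _ (by positivity)]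
    nlinarith [hn.2]
  have k2 : ∑ n ∈ I, (kI I y 2 n : ℝ) ≤ C2 * Xf T := by
    have : ∑ n ∈ I, (kI I y 2 n : ℝ) ≤ Ca * Xf T := by
      refine le_trans (le_of_eq ?_) g2
      refine Finset.sum_congr rfl fun n _ => ?_
      norm_num
    refine this.trans (mul_le_mul_of_nonneg_right ?_ hX.le)
    linarith
  have k3 : ∑ n ∈ I, (kI I y 1 n : ℝ) ≤ C2 * Xf T := by
    have : ∑ n ∈ I, (kI I y 1 n : ℝ) ≤ Cb * Xf T := by
      refine le_trans (le_of_eq ?_) g3
      refine Finset.sum_congr rfl fun n _ => ?_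
      norm_num
    refine this.trans (mul_le_mul_of_nonneg_right ?_ hX.le)
    linarith
  set t : ℕ → ℝ := fun n => (kI I y ρ n : ℝ) ^ r with ht
  have ht0 : ∀ n, 0 ≤ t n := fun n => by simp only [ht]; positivity
  have k4 : ∑ n ∈ I, t n ^ 2 * (kI I y 2 n : ℝ) ≤ C2 * Xf T := by
    have h1 : ∑ n ∈ I, t n ^ 2 * (kI I y 2 n : ℝ) ≤
        ∑ n ∈ I, (kI I y ((max ρ 2 : ℕ) : ℝ) n : ℝ) ^ (2 * r + 1) := by
      refine Finset.sum_le_sum fun n _ => ?_
      have a1 := kI_mono I y (show (ρ : ℝ) ≤ ((max ρ 2 : ℕ) : ℝ) by exact_mod_cast le_max_left _ _) n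
      have a2 := kI_mono I y (show (2 : ℝ) ≤ ((max ρ 2 : ℕ) : ℝ) by exact_mod_cast le_max_right _ _) n
      simp only [ht]
      rw [← pow_mul, mul_comm r 2, pow_succ]
      exact mul_le_mul (pow_le_pow_left₀ (Nat.cast_nonneg _) a1 _) a2 (Nat.cast_nonneg _) (by positivity)
    refine (h1.trans g4).trans (mul_le_mul_of_nonneg_right ?_ hX.le)
    linarith
  have g1' : ∑ n ∈ I, ∑ m ∈ I, RR (Psi J) (1 / 2) (y n - y m) ≤
      Xf T * (mJ J ^ 2 + E0 / J + ε1) := g1
  have hloc := local_w E0 J hJ I I' hsub y t ht0 0 (Xf T) ε1 C2 hX hε10.le hC20.le hin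
    g1' k2 k3 k4 g6
  rw [← hm] at hloc
  -- the edge
  have hedge : ∑ n ∈ I.filter (fun n => ¬ ord n ≤ T - 1), t n * |FF J I y (y n) - m| ≤
      ε / 2 * Xf T := by
    set K : ℕ → ℝ := fun n => (kI I y ((max ρ (2 ^ J) : ℕ) : ℝ) n : ℝ) with hK
    have h1 : ∀ n ∈ I.filter (fun n => ¬ ord n ≤ T - 1), t n * |FF J I y (y n) - m| ≤
        (1 + m) * (δ * K n ^ (2 * r + 2) + 1 / (4 * δ)) := by
      intro n hn
      rw [Finset.mem_filter] at hn
      have hK1 : 1 ≤ K n := one_le_kI (Nat.cast_nonneg _) hn.1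
      have a1 : (kI I y ρ n : ℝ) ≤ K n :=
        kI_mono I y (by exact_mod_cast le_max_left ρ (2 ^ J)) n
      have a2 : FF J I y (y n) ≤ K n := (FF_le J hJ I y n).trans
        (kI_mono I y (by
          have : ((2 ^ J : ℕ) : ℝ) ≤ ((max ρ (2 ^ J) : ℕ) : ℝ) := by
            exact_mod_cast le_max_right ρ (2 ^ J)
          push_cast at this ⊢
          exact this) n)
      have a3 := FF_nonneg J I y (y n)
      have a4 : |FF J I y (y n) - m| ≤ (1 + m) * K n := by
        rw [abs_le]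
        constructor
        · nlinarith
        · nlinarith
      have a5 : t n ≤ K n ^ r := pow_le_pow_left₀ (Nat.cast_nonneg _) a1 r
      calc t n * |FF J I y (y n) - m| ≤ K n ^ r * ((1 + m) * K n) :=
            mul_le_mul a5 a4 (abs_nonneg _) (by positivity)
        _ = (1 + m) * K n ^ (r + 1) := by ring
        _ ≤ (1 + m) * (δ * (K n ^ (r + 1)) ^ 2 + 1 / (4 * δ)) :=
            mul_le_mul_of_nonneg_left (amgm1 _ hδ0) (by linarith)
        _ = _ := by rw [← pow_mul]; congr 4; ring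
    refine (Finset.sum_le_sum h1).trans ?_
    rw [← Finset.mul_sum, Finset.sum_add_distrib, ← Finset.mul_sum, Finset.sum_const, nsmul_eq_mul]
    have h2 : ∑ n ∈ I.filter (fun n => ¬ ord n ≤ T - 1), K n ^ (2 * r + 2) ≤ Cd * Xf T := by
      refine le_trans (Finset.sum_le_sum_of_subset_of_nonneg (Finset.filter_subset _ _)
        fun n _ _ => by simp only [hK]; positivity) ?_
      exact g5
    have h3 : ((I.filter (fun n => ¬ ord n ≤ T - 1)).card : ℝ) ≤ ε2 * Xf T := by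
      refine le_trans (le_of_eq ?_) g7
      congr 2
      ext n
      rw [Finset.mem_filter, Finset.mem_filter, not_le]
    have h4 : (1 + m) * (δ * (Cd * Xf T)) = ε / 4 * Xf T := by
      rw [hδ]
      field_simp
    have h5 : (1 + m) * (ε2 * Xf T * (1 / (4 * δ))) = ε / 4 * Xf T := by
      rw [hε2]
      field_simp
    have h6 : (1 + m) * (δ * ∑ n ∈ I.filter (fun n => ¬ ord n ≤ T - 1), K n ^ (2 * r + 2)) ≤
        (1 + m) * (δ * (Cd * Xf T)) :=
      mul_le_mul_of_nonneg_left (mul_le_mul_of_nonneg_left h2 hδ0.le) (by linarith)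
    have h7 : (1 + m) * (((I.filter (fun n => ¬ ord n ≤ T - 1)).card : ℝ) * (1 / (4 * δ))) ≤
        (1 + m) * (ε2 * Xf T * (1 / (4 * δ))) :=
      mul_le_mul_of_nonneg_left (mul_le_mul_of_nonneg_right h3 (by positivity)) (by linarith)
    linarith
  rw [← Finset.sum_filter_add_sum_filter_not I (fun n => ord n ≤ T - 1)]
  have h9 : Xf T * ((E0 / 4 + 20000 * C2) / Real.sqrt J + Real.sqrt J * (ε1 * (1 + m ^ 2))) =
      (E0 / 4 + 20000 * C2) / Real.sqrt J * Xf T + ε / 4 * Xf T := by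
    rw [hε1]
    field_simp
  rw [h9] at hloc
  have h10 : 0 < ε * Xf T := by positivity
  have h11 : ((E0 / 4 + 20000 * C2) / Real.sqrt J + ε) * Xf T =
      (E0 / 4 + 20000 * C2) / Real.sqrt J * Xf T + ε * Xf T := by ring
  rw [h11]
  linarith

end Q241.SC
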