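import Pool.Agent.Q276.LR.A6
import Pool.Agent.Q241.KL.K7

/-! # Averages of windows and averages of triangles -/

set_option autoImplicit false

open Finset

namespace Q241.SC

open Pool.Agent.Q276.LR (Ph mJ)
open H177.Lat (tri tri_nonneg tri_zero)
open Q241.KL (w nb mem_nb psi)

/-- the number of steps below a given height -/
lemma cnt_lt (M : ℕ) {v : ℝ} (hv : 0 ≤ v) (hvM : v ≤ M) :
    v - 1 ≤ (((range M).filter (fun i : ℕ => (i : ℝ) + 1 < v)).card : ℝ) ∧
      (((range M).filter (fun i : ℕ => (i : ℝ) + 1 < v)).card : ℝ) ≤ v := by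
  have h1 : (range M).filter (fun i : ℕ => (i : ℝ) + 1 < v) = range (⌈v⌉₊ - 1) := by
    ext i
    rw [mem_filter, mem_range, mem_range]
    have h2 : (i : ℝ) + 1 < v ↔ i + 1 < ⌈v⌉₊ := by
      rw [Nat.lt_ceil]
      push_cast
      rfl
    rw [h2]
    have h3 : ⌈v⌉₊ ≤ M := Nat.ceil_le.2 hvM
    omega
  rw [h1, card_range]
  have h4 := Nat.le_ceil v
  have h5 := Nat.ceil_lt_add_one hv
  rcases Nat.eq_zero_or_pos ⌈v⌉₊ with h6 | h6
  · rw [h6] at h4 ⊢
    simp only [Nat.cast_zero] at h4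
    simp
    constructor <;> linarith
  · have h7 : ((⌈v⌉₊ - 1 : ℕ) : ℝ) = (⌈v⌉₊ : ℝ) - 1 := by
      rw [Nat.cast_sub h6]
      simp
    rw [h7]
    constructor <;> linarith

/-- one triangle as an average of windows -/
lemma tri_avg {M : ℕ} (hM : 0 < M) {e : ℝ} (he : 0 < e) (u : ℝ) :
    0 ≤ (∑ i ∈ range M, if |u| ≤ e * ((i : ℝ) + 1) / M then (1 : ℝ) else 0) / M - tri e u ∧
      (∑ i ∈ range M, if |u| ≤ e * ((i : ℝ) + 1) / M then (1 : ℝ) else 0) / M - tri e u ≤
        (if |u| ≤ e then 1 else 0) / M := by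
  have hM0 : (0 : ℝ) < M := by exact_mod_cast hM
  have hu := abs_nonneg u
  by_cases h : |u| ≤ e
  · rw [if_pos h]
    set v : ℝ := |u| * M / e with hv
    have hv0 : 0 ≤ v := by positivity
    have hvM : v ≤ M := by
      rw [hv, div_le_iff₀ he]
      nlinarith
    obtain ⟨h1, h2⟩ := cnt_lt M hv0 hvM
    have h3 : ∀ i : ℕ, (|u| ≤ e * ((i : ℝ) + 1) / M) ↔ ¬ ((i : ℝ) + 1 < v) := by
      intro i
      rw [not_lt, hv, div_le_iff₀ he, le_div_iff₀ hM0]
      constructor <;> intro h4 <;> linarith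
    have h4 : (∑ i ∈ range M, if |u| ≤ e * ((i : ℝ) + 1) / M then (1 : ℝ) else 0) =
        M - (((range M).filter (fun i : ℕ => (i : ℝ) + 1 < v)).card : ℝ) := by
      have h5 : ∀ i ∈ range M, (if |u| ≤ e * ((i : ℝ) + 1) / M then (1 : ℝ) else 0) =
          1 - (if (i : ℝ) + 1 < v then 1 else 0) := by
        intro i _
        by_cases h6 : (i : ℝ) + 1 < v
        · rw [if_pos h6, if_neg (by rw [h3]; exact not_not.2 h6)]
          ring
        · rw [if_neg h6, if_pos ((h3 i).2 h6)]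
          ring
      rw [Finset.sum_congr rfl h5, Finset.sum_sub_distrib, Finset.sum_boole, sum_const, card_range,
        nsmul_eq_mul, mul_one]
    rw [h4]
    have h5 : tri e u = 1 - v / M := by
      unfold tri
      rw [max_eq_right]
      · rw [hv]
        field_simp
      · have : |u| / e ≤ 1 := by rw [div_le_one he]; exact h
        linarith
    rw [h5]
    have h6 : ∀ c : ℝ, (M - c) / M - (1 - v / M) = (v - c) / M := by
      intro c
      field_simp
      ring
    rw [h6]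
    constructor
    · apply div_nonneg _ hM0.le
      linarith
    · apply div_le_div_of_nonneg_right _ hM0.le
      linarith
  · have h1 : ∀ i ∈ range M, (if |u| ≤ e * ((i : ℝ) + 1) / M then (1 : ℝ) else 0) = 0 := by
      intro i hi
      rw [if_neg]
      rw [mem_range] at hi
      push Not at h ⊢
      refine lt_of_le_of_lt ?_ h
      rw [div_le_iff₀ hM0]
      have : (i : ℝ) + 1 ≤ M := by exact_mod_cast hi
      nlinarith
    push Not at h
    rw [Finset.sum_congr rfl h1, sum_const_zero, tri_zero he h.le, if_neg (by push Not; exact h)]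
    simp

variable {ι : Type*} [DecidableEq ι]

/-- the number of points in a window, including the centre -/
noncomputable def cc (J : Finset ι) (x : ι → ℝ) (j : ι) (ρ : ℝ) : ℝ :=
  ∑ i ∈ J, if |x j - x i| ≤ ρ then 1 else 0

lemma cc_eq (J : Finset ι) (x : ι → ℝ) {j : ι} (hj : j ∈ J) {ρ : ℝ} (hρ : 0 ≤ ρ) :
    cc J x j ρ = (w J x ρ j : ℝ) + 1 := by
  unfold cc
  rw [Finset.sum_boole]
  have h : J.filter (fun i => |x j - x i| ≤ ρ) = insert j (nb J x ρ j) := by
    ext i
    rw [mem_filter, mem_insert, mem_nb]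
    constructor
    · rintro ⟨h1, h2⟩
      by_cases h3 : i = j
      · exact Or.inl h3
      · right
        rw [abs_sub_comm] at h2
        exact ⟨h1, h3, h2⟩
    · rintro (h1 | h1)
      · subst h1
        exact ⟨hj, by rw [sub_self, abs_zero]; exact hρ⟩
      · refine ⟨h1.1, ?_⟩
        rw [abs_sub_comm]
        exact h1.2.2
  rw [h, card_insert_of_notMem (by rw [mem_nb]; tauto)]
  push_cast
  rfl

omit [DecidableEq ι] in
lemma cc_nonneg (J : Finset ι) (x : ι → ℝ) (j : ι) (ρ : ℝ) : 0 ≤ cc J x j ρ :=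
  Finset.sum_nonneg fun i _ => by split_ifs <;> norm_num

omit [DecidableEq ι] in
lemma cc_mono (J : Finset ι) (x : ι → ℝ) (j : ι) {ρ ρ' : ℝ} (h : ρ ≤ ρ') : cc J x j ρ ≤ cc J x j ρ' := by
  unfold cc
  refine Finset.sum_le_sum fun i _ => ?_
  split_ifs with h1 h2
  · exact le_rfl
  · exact absurd (h1.trans h) h2
  · norm_num
  · exact le_rfl

/-- the smoothed count at a point -/
noncomputable def FP (J : Finset ι) (x : ι → ℝ) (J0 : ℕ) (j : ι) : ℝ := ∑ i ∈ J, Ph J0 (x j - x i)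

/-- the radii -/
noncomputable def rd (M : ℕ) (m : ℕ) : ℝ := 2 ^ (m / M + 1) * (((m % M : ℕ) : ℝ) + 1) / M

lemma rd_nonneg (M m : ℕ) : 0 ≤ rd M m := by unfold rd; positivity

/-- double sums -/
lemma sum_mul_range (f : ℕ → ℝ) {M : ℕ} (J0 : ℕ) :
    ∑ m ∈ range (J0 * M), f m = ∑ k ∈ range J0, ∑ i ∈ range M, f (k * M + i) := by
  induction J0 with
  | zero => simp
  | succ n ih => rw [Nat.succ_mul, Finset.sum_range_add, ih, Finset.sum_range_succ]

lemma rd_eq {M : ℕ} (k : ℕ) {i : ℕ} (hi : i < M) : rd M (k * M + i) = 2 ^ (k + 1) * ((i : ℝ) + 1) / M := by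
  unfold rd
  have hM : 0 < M := by omega
  have h1 : (k * M + i) / M = k := by
    rw [Nat.add_comm, Nat.add_mul_div_right _ _ hM, Nat.div_eq_of_lt hi, zero_add]
  have h2 : (k * M + i) % M = i := by
    rw [Nat.add_comm, Nat.add_mul_mod_self_right, Nat.mod_eq_of_lt hi]
  rw [h1, h2]

omit [DecidableEq ι] in
/-- the average of the windows against the smoothed count -/
lemma avg_close (J : Finset ι) (x : ι → ℝ) (j : ι) {J0 M : ℕ} (hJ0 : 0 < J0) (hM : 0 < M) :
    |(∑ m ∈ range (J0 * M), (cc J x j (rd M m) - 2 * rd M m)) / ((J0 * M : ℕ) : ℝ) -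
      (FP J x J0 j - mJ J0)| ≤ (cc J x j (2 ^ J0) + 2 ^ J0) / M := by
  have hM0 : (0 : ℝ) < M := by exact_mod_cast hM
  have hJ00 : (0 : ℝ) < J0 := by exact_mod_cast hJ0
  have hMne := hM0.ne'
  have hJne := hJ00.ne'
  rw [sum_mul_range]
  -- one dyadic scale
  have key : ∀ k ∈ range J0,
      |(∑ i ∈ range M, (cc J x j (rd M (k * M + i)) - 2 * rd M (k * M + i))) / M -
        (∑ i ∈ J, tri (2 ^ (k + 1)) (x j - x i) - 2 ^ (k + 1))| ≤
        (cc J x j (2 ^ J0) + 2 ^ J0) / M := by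
    intro k hk
    rw [mem_range] at hk
    set e : ℝ := 2 ^ (k + 1) with he
    have he0 : 0 < e := by positivity
    have heJ : e ≤ 2 ^ J0 := pow_le_pow_right₀ (by norm_num) (by omega)
    have h1 : ∑ i ∈ range M, (cc J x j (rd M (k * M + i)) - 2 * rd M (k * M + i)) =
        (∑ i ∈ range M, cc J x j (e * ((i : ℝ) + 1) / M)) - e * (M + 1) := by
      rw [Finset.sum_sub_distrib]
      have h2 : ∀ i ∈ range M, rd M (k * M + i) = e * ((i : ℝ) + 1) / M := fun i hi =>
        rd_eq k (mem_range.1 hi)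
      have h2a : ∑ i ∈ range M, cc J x j (rd M (k * M + i)) =
          ∑ i ∈ range M, cc J x j (e * ((i : ℝ) + 1) / M) :=
        Finset.sum_congr rfl fun i hi => by rw [h2 i hi]
      have h2b : ∑ i ∈ range M, 2 * rd M (k * M + i) =
          ∑ i ∈ range M, 2 * (e * ((i : ℝ) + 1) / M) :=
        Finset.sum_congr rfl fun i hi => by rw [h2 i hi]
      rw [h2a, h2b]
      congr 1
      have h3 : ∀ n : ℕ, ∑ i ∈ range n, ((i : ℝ) + 1) = n * (n + 1) / 2 := by
        intro n
        induction n with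
        | zero => simp
        | succ n ih => rw [Finset.sum_range_succ, ih]; push_cast; ring
      have h4 : ∑ i ∈ range M, 2 * (e * ((i : ℝ) + 1) / M) =
          2 * e / M * ∑ i ∈ range M, ((i : ℝ) + 1) := by
        rw [Finset.mul_sum]
        refine Finset.sum_congr rfl fun i _ => ?_
        ring
      rw [h4, h3]
      field_simp
    have h5 : (∑ i ∈ range M, cc J x j (e * ((i : ℝ) + 1) / M)) / M =
        ∑ i' ∈ J, (∑ i ∈ range M, if |x j - x i'| ≤ e * ((i : ℝ) + 1) / M then (1 : ℝ) else 0) / M := by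
      unfold cc
      rw [Finset.sum_comm, Finset.sum_div]
    have h6 : 0 ≤ (∑ i ∈ range M, cc J x j (e * ((i : ℝ) + 1) / M)) / M -
        ∑ i ∈ J, tri e (x j - x i) := by
      rw [h5, ← Finset.sum_sub_distrib]
      exact Finset.sum_nonneg fun i _ => (tri_avg hM he0 _).1
    have h7 : (∑ i ∈ range M, cc J x j (e * ((i : ℝ) + 1) / M)) / M -
        ∑ i ∈ J, tri e (x j - x i) ≤ cc J x j (2 ^ J0) / M := by
      rw [h5, ← Finset.sum_sub_distrib]
      refine (Finset.sum_le_sum fun i _ => (tri_avg hM he0 _).2).trans ?_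
      rw [← Finset.sum_div]
      apply div_le_div_of_nonneg_right _ hM0.le
      exact cc_mono J x j heJ
    rw [h1, sub_div]
    have h8 : e * (M + 1) / M = e + e / M := by field_simp
    rw [h8, add_div]
    have h9 : e / M ≤ 2 ^ J0 / M := div_le_div_of_nonneg_right heJ hM0.le
    have h10 : 0 ≤ e / M := by positivity
    have h11 : 0 ≤ cc J x j (2 ^ J0) / M := div_nonneg (cc_nonneg _ _ _ _) hM0.le
    rw [abs_le]
    constructor <;> linarith
  -- the average over the scales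
  have e1 : (∑ k ∈ range J0, ∑ i ∈ range M, (cc J x j (rd M (k * M + i)) - 2 * rd M (k * M + i))) /
      ((J0 * M : ℕ) : ℝ) - (FP J x J0 j - mJ J0) = (J0 : ℝ)⁻¹ * ∑ k ∈ range J0,
      ((∑ i ∈ range M, (cc J x j (rd M (k * M + i)) - 2 * rd M (k * M + i))) / M -
        (∑ i ∈ J, tri (2 ^ (k + 1)) (x j - x i) - 2 ^ (k + 1))) := by
    have e2 : FP J x J0 j = (J0 : ℝ)⁻¹ * ∑ k ∈ range J0, ∑ i ∈ J, tri (2 ^ (k + 1)) (x j - x i) := by
      unfold FP Ph
      rw [← Finset.mul_sum, Finset.sum_comm]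
    rw [e2]
    unfold mJ
    rw [Finset.sum_sub_distrib, Finset.sum_sub_distrib, ← Finset.sum_div]
    push_cast
    field_simp
  rw [e1, abs_mul, abs_of_pos (by positivity : 0 < (J0 : ℝ)⁻¹), inv_mul_le_iff₀ hJ00]
  refine (Finset.abs_sum_le_sum_abs _ _).trans ((Finset.sum_le_sum key).trans (le_of_eq ?_))
  rw [sum_const, card_range, nsmul_eq_mul]

lemma geo_half : ∀ n : ℕ, ∑ k ∈ range n, (1 : ℝ) / 2 ^ (k + 1) ≤ 1 := by
  have h : ∀ n : ℕ, ∑ j ∈ Finset.range n, (1 : ℝ) / 2 ^ (j + 1) = 1 - 1 / 2 ^ n := by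
    intro n
    induction n with
    | zero => simp
    | succ n ih => rw [Finset.sum_range_succ, ih]; field_simp; ring
  intro n
  rw [h n]
  have : (0 : ℝ) < 1 / 2 ^ n := by positivity
  linarith

/-- few small windows -/
lemma few_small {J0 M : ℕ} {R1 : ℝ} (hR1 : 0 ≤ R1) (hJ0 : 0 < J0) (hM : 0 < M) :
    (∑ m ∈ range (J0 * M), if rd M m < R1 then (1 : ℝ) else 0) / ((J0 * M : ℕ) : ℝ) ≤ R1 / J0 := by
  have hM0 : (0 : ℝ) < M := by exact_mod_cast hM
  have hJ00 : (0 : ℝ) < J0 := by exact_mod_cast hJ0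
  rw [sum_mul_range]
  have key : ∀ k ∈ range J0, ∑ i ∈ range M, (if rd M (k * M + i) < R1 then (1 : ℝ) else 0) ≤
      R1 * M * (1 / 2 ^ (k + 1)) := by
    intro k _
    have he0 : (0 : ℝ) < 2 ^ (k + 1) := by positivity
    have h1 : ∀ i ∈ range M, (if rd M (k * M + i) < R1 then (1 : ℝ) else 0) ≤
        if (i : ℝ) + 1 < R1 * M / 2 ^ (k + 1) then 1 else 0 := by
      intro i hi
      rw [rd_eq k (mem_range.1 hi)]
      split_ifs with h2 h3
      · exact le_rfl
      · exfalso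
        apply h3
        rw [lt_div_iff₀ he0]
        rw [div_lt_iff₀ hM0] at h2
        linarith
      · norm_num
      · exact le_rfl
    refine (Finset.sum_le_sum h1).trans ?_
    rw [Finset.sum_boole]
    have h4 : (range M).filter (fun i : ℕ => (i : ℝ) + 1 < R1 * M / 2 ^ (k + 1)) ⊆
        range ⌊R1 * M / 2 ^ (k + 1)⌋₊ := by
      intro i hi
      rw [mem_filter] at hi
      rw [mem_range]
      have : i + 1 ≤ ⌊R1 * M / 2 ^ (k + 1)⌋₊ := by
        apply Nat.le_floor
        push_cast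
        exact hi.2.le
      omega
    have h5 := card_le_card h4
    rw [card_range] at h5
    have h6 : ((⌊R1 * M / 2 ^ (k + 1)⌋₊ : ℕ) : ℝ) ≤ R1 * M / 2 ^ (k + 1) := Nat.floor_le (by positivity)
    have h7 : (((range M).filter (fun i : ℕ => (i : ℝ) + 1 < R1 * M / 2 ^ (k + 1))).card : ℝ) ≤
        (⌊R1 * M / 2 ^ (k + 1)⌋₊ : ℕ) := by exact_mod_cast h5
    refine (h7.trans h6).trans (le_of_eq ?_)
    ring
  have h2 := Finset.sum_le_sum key
  rw [← Finset.mul_sum] at h2
  have h3 : R1 * M * ∑ k ∈ range J0, (1 : ℝ) / 2 ^ (k + 1) ≤ R1 * M * 1 :=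
    mul_le_mul_of_nonneg_left (geo_half J0) (by positivity)
  push_cast
  rw [div_le_div_iff₀ (by positivity) hJ00]
  nlinarith

/-- **the average over large windows** -/
theorem psi_close (J : Finset ι) (x : ι → ℝ) {j : ι} (hj : j ∈ J) {J0 M : ℕ} (hJ0 : 0 < J0)
    (hM : 0 < M) {R1 : ℝ} (hR1 : 0 ≤ R1) :
    |psi J x (J0 * M) (fun m => max R1 (rd M m)) j| ≤ |FP J x J0 j - mJ J0| +
      (cc J x j (2 ^ J0) + 2 ^ J0) / M + R1 / J0 * (cc J x j R1 + 2 * R1) := by
  have hMJ : 0 < J0 * M := Nat.mul_pos hJ0 hM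
  have hMJ0 : (0 : ℝ) < ((J0 * M : ℕ) : ℝ) := by exact_mod_cast hMJ
  have h1 := avg_close J x j hJ0 hM
  have h2 := few_small hR1 hJ0 hM
  have e1 : psi J x (J0 * M) (fun m => max R1 (rd M m)) j =
      (∑ m ∈ range (J0 * M), (cc J x j (max R1 (rd M m)) - 2 * max R1 (rd M m))) /
        ((J0 * M : ℕ) : ℝ) := by
    unfold psi
    congr 1
    refine Finset.sum_congr rfl fun m _ => ?_
    rw [cc_eq J x hj (hR1.trans (le_max_left _ _))]
  have e2 : |(∑ m ∈ range (J0 * M), (cc J x j (max R1 (rd M m)) - 2 * max R1 (rd M m))) /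
        ((J0 * M : ℕ) : ℝ) -
      (∑ m ∈ range (J0 * M), (cc J x j (rd M m) - 2 * rd M m)) / ((J0 * M : ℕ) : ℝ)| ≤
      R1 / J0 * (cc J x j R1 + 2 * R1) := by
    rw [← sub_div, ← Finset.sum_sub_distrib, abs_div, abs_of_pos hMJ0]
    have hc0 := cc_nonneg J x j R1
    have h3 : ∀ m ∈ range (J0 * M), |(cc J x j (max R1 (rd M m)) - 2 * max R1 (rd M m)) -
        (cc J x j (rd M m) - 2 * rd M m)| ≤
        (if rd M m < R1 then (1 : ℝ) else 0) * (cc J x j R1 + 2 * R1) := by
      intro m _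
      by_cases h4 : rd M m < R1
      · rw [if_pos h4, max_eq_left h4.le, one_mul]
        have h5 := cc_mono J x j h4.le
        have h6 := cc_nonneg J x j (rd M m)
        have h7 := rd_nonneg M m
        rw [abs_le]
        constructor <;> linarith
      · rw [if_neg h4, max_eq_right (not_lt.1 h4), sub_self, abs_zero, zero_mul]
    have h4 := (Finset.abs_sum_le_sum_abs _ _).trans (Finset.sum_le_sum h3)
    rw [← Finset.sum_mul] at h4
    have h5 := div_le_div_of_nonneg_right h4 hMJ0.le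
    refine h5.trans ?_
    rw [mul_div_right_comm]
    exact mul_le_mul_of_nonneg_right h2 (by positivity)
  rw [e1]
  have h3 := abs_sub_abs_le_abs_sub
    ((∑ m ∈ range (J0 * M), (cc J x j (max R1 (rd M m)) - 2 * max R1 (rd M m))) /
        ((J0 * M : ℕ) : ℝ))
      ((∑ m ∈ range (J0 * M), (cc J x j (rd M m) - 2 * rd M m)) / ((J0 * M : ℕ) : ℝ))
  have h4 := abs_sub_abs_le_abs_sub
      ((∑ m ∈ range (J0 * M), (cc J x j (rd M m) - 2 * rd M m)) / ((J0 * M : ℕ) : ℝ))
      (FP J x J0 j - mJ J0)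
  linarith

end Q241.SC
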