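import Pool.Agent.Q241.SC.D1
import Pool.Agent.Q241.SC.C2

/-! # Screening for families -/

set_option autoImplicit false

open Finset Filter Topology

namespace Q241.SC

open Pool.Agent.Q276.LR (Ph mJ FF)
open Q241.KL (w nb mem_nb psi Fam JZ xz FZ)
open Q241.GL (sum_ord)
open H177.Lat (yy kI)
open SG (ord NZ)
open Pool.Agent.Y744

variable {ι : Type*} [DecidableEq ι]

/-- the moments of the local counts are bounded -/
def Mom (F : Fam ι) : Prop := ∀ q ρ : ℕ, ∃ C : ℝ, 0 < C ∧ ∀ᶠ T : ℝ in atTop,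
  ∑ j ∈ F.J T, cc (F.J T) (F.x T) j ρ ^ q ≤ C * F.X T

/-- screening with weights -/
def Scr0 (F : Fam ι) : Prop := ∀ r ρ : ℕ, ∃ C : ℝ, 0 < C ∧ ∀ J : ℕ, 1 ≤ J → ∀ ε : ℝ, 0 < ε →
  ∀ᶠ T : ℝ in atTop, ∑ j ∈ F.J T, cc (F.J T) (F.x T) j ρ ^ r *
    |FP (F.J T) (F.x T) J j - mJ J| ≤ (C / Real.sqrt J + ε) * F.X T

variable (F : Fam ι)

/-- **averages over large windows, with weights** -/
theorem scr_win (hM : Mom F) (hS : Scr0 F) (t : ℕ) (R R0 : ℝ) {ε : ℝ} (hε : 0 < ε) :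
    ∃ N : ℕ, 0 < N ∧ ∃ r : ℕ → ℝ, (∀ m, R ≤ r m) ∧ (∀ m, R0 ≤ r m) ∧ (∀ m, 0 ≤ r m) ∧
      ∀ᶠ T : ℝ in atTop, ∑ j ∈ F.J T, cc (F.J T) (F.x T) j R ^ t *
        |psi (F.J T) (F.x T) N r j| ≤ ε * F.X T := by
  set R1 : ℝ := max (max R R0) 0 with hR1
  have hR10 : 0 ≤ R1 := le_max_right _ _
  obtain ⟨ρ, hρ⟩ := exists_nat_ge R1
  have hRρ : R ≤ ρ := ((le_max_left _ _).trans (le_max_left _ _)).trans hρ
  obtain ⟨C, hC, hscr⟩ := hS t ρ
  obtain ⟨K2, hK2, hmom2⟩ := hM (t + 1) ρ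
  obtain ⟨K0, hK0, hmom0⟩ := hM t ρ
  set B : ℝ := R1 * (K2 + 2 * R1 * K0) with hB
  have hB0 : 0 ≤ B := by positivity
  -- the number of scales
  obtain ⟨J0, hJ01, hJ0⟩ : ∃ J0 : ℕ, 1 ≤ J0 ∧ C / Real.sqrt J0 + B / J0 ≤ ε / 4 := by
    have h1 : Tendsto (fun J : ℕ => C / Real.sqrt J + B / J) atTop (𝓝 (0 + 0)) := by
      refine Tendsto.add ?_ (tendsto_const_div_atTop_nhds_zero_nat B)
      refine Tendsto.div_atTop tendsto_const_nhds ?_
      exact Real.tendsto_sqrt_atTop.comp tendsto_natCast_atTop_atTop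
    rw [add_zero] at h1
    obtain ⟨J0, h2, h3⟩ := (((tendsto_order.1 h1).2 (ε / 4) (by positivity)).and
      (eventually_ge_atTop 1)).exists
    exact ⟨J0, h3, h2.le⟩
  have hJ00 : (0 : ℝ) < J0 := by exact_mod_cast hJ01
  obtain ⟨K1, hK1, hmom1⟩ := hM (t + 1) (max ρ (2 ^ J0))
  obtain ⟨M, hM1, hMs⟩ : ∃ M : ℕ, 1 ≤ M ∧ (K1 + 2 ^ J0 * K0) / M ≤ ε / 4 := by
    have h1 := tendsto_const_div_atTop_nhds_zero_nat (K1 + 2 ^ J0 * K0)
    obtain ⟨M, h2, h3⟩ := (((tendsto_order.1 h1).2 (ε / 4) (by positivity)).and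
      (eventually_ge_atTop 1)).exists
    exact ⟨M, h3, h2.le⟩
  have hM00 : (0 : ℝ) < M := by exact_mod_cast hM1
  refine ⟨J0 * M, Nat.mul_pos (by omega) (by omega), fun m => max R1 (rd M m), ?_, ?_, ?_, ?_⟩
  · exact fun m => ((le_max_left _ _).trans (le_max_left _ _)).trans (le_max_left _ _)
  · exact fun m => ((le_max_right _ _).trans (le_max_left _ _)).trans (le_max_left _ _)
  · exact fun m => hR10.trans (le_max_left _ _)
  filter_upwards [hscr J0 hJ01 (ε / 4) (by positivity), hmom0, hmom1, hmom2, F.pos]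
    with T g1 g2 g3 g4 g5
  have hX : 0 < F.X T := by linarith
  set J := F.J T with hJ
  set x := F.x T with hx
  have h1 : ∀ j ∈ J, cc J x j R ^ t * |psi J x (J0 * M) (fun m => max R1 (rd M m)) j| ≤
      cc J x j ρ ^ t * |FP J x J0 j - mJ J0| +
      (cc J x j ((max ρ (2 ^ J0) : ℕ) : ℝ) ^ (t + 1) / M + 2 ^ J0 / M * cc J x j ρ ^ t) +
      (R1 / J0 * cc J x j ρ ^ (t + 1) + R1 / J0 * (2 * R1) * cc J x j ρ ^ t) := by
    intro j hj
    have h2 := psi_close J x hj (J0 := J0) (M := M) (by omega) (by omega) hR10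
    have h3 : cc J x j R ≤ cc J x j ρ := cc_mono J x j hRρ
    have h4 := cc_nonneg J x j R
    have h5 := cc_nonneg J x j ρ
    have h6 : cc J x j R1 ≤ cc J x j ρ := cc_mono J x j hρ
    have h7 : cc J x j (2 ^ J0) ≤ cc J x j ((max ρ (2 ^ J0) : ℕ) : ℝ) := by
      apply cc_mono
      have : ((2 ^ J0 : ℕ) : ℝ) ≤ ((max ρ (2 ^ J0) : ℕ) : ℝ) := by exact_mod_cast le_max_right _ _
      push_cast at this ⊢
      exact this
    have h8 : cc J x j ρ ≤ cc J x j ((max ρ (2 ^ J0) : ℕ) : ℝ) := by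
      apply cc_mono
      exact_mod_cast le_max_left _ _
    have h9 := cc_nonneg J x j ((max ρ (2 ^ J0) : ℕ) : ℝ)
    have h10 : cc J x j R ^ t ≤ cc J x j ρ ^ t := pow_le_pow_left₀ h4 h3 t
    have h11 : cc J x j ρ ^ t ≤ cc J x j ((max ρ (2 ^ J0) : ℕ) : ℝ) ^ t := pow_le_pow_left₀ h5 h8 t
    have h12 : cc J x j R ^ t * |psi J x (J0 * M) (fun m => max R1 (rd M m)) j| ≤
        cc J x j ρ ^ t * (|FP J x J0 j - mJ J0| +
      (cc J x j (2 ^ J0) + 2 ^ J0) / M + R1 / J0 * (cc J x j R1 + 2 * R1)) :=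
      mul_le_mul h10 h2 (abs_nonneg _) (by positivity)
    refine h12.trans ?_
    have h13 : cc J x j ρ ^ t * (cc J x j (2 ^ J0) / M) ≤
        cc J x j ((max ρ (2 ^ J0) : ℕ) : ℝ) ^ (t + 1) / M := by
      rw [pow_succ, mul_div_assoc]
      apply mul_le_mul h11 (div_le_div_of_nonneg_right h7 hM00.le)
        (div_nonneg (cc_nonneg _ _ _ _) hM00.le) (by positivity)
    have h14 : cc J x j ρ ^ t * (R1 / J0 * cc J x j R1) ≤ R1 / J0 * cc J x j ρ ^ (t + 1) := by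
      have h15 : R1 / J0 * cc J x j R1 ≤ R1 / J0 * cc J x j ρ :=
        mul_le_mul_of_nonneg_left h6 (by positivity)
      calc cc J x j ρ ^ t * (R1 / J0 * cc J x j R1) ≤ cc J x j ρ ^ t * (R1 / J0 * cc J x j ρ) :=
            mul_le_mul_of_nonneg_left h15 (by positivity)
        _ = _ := by ring
    have e : cc J x j ρ ^ t * (|FP J x J0 j - mJ J0| +
      (cc J x j (2 ^ J0) + 2 ^ J0) / M + R1 / J0 * (cc J x j R1 + 2 * R1)) =
      cc J x j ρ ^ t * |FP J x J0 j - mJ J0| + (cc J x j ρ ^ t * (cc J x j (2 ^ J0) / M) +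
        2 ^ J0 / M * cc J x j ρ ^ t) + (cc J x j ρ ^ t * (R1 / J0 * cc J x j R1) +
        R1 / J0 * (2 * R1) * cc J x j ρ ^ t) := by ring
    rw [e]
    linarith
  refine (Finset.sum_le_sum h1).trans ?_
  simp only [Finset.sum_add_distrib]
  rw [← Finset.sum_div, ← Finset.mul_sum, ← Finset.mul_sum, ← Finset.mul_sum]
  have a1 : (∑ j ∈ J, cc J x j ((max ρ (2 ^ J0) : ℕ) : ℝ) ^ (t + 1)) / M ≤ K1 * F.X T / M :=
    div_le_div_of_nonneg_right g3 hM00.le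
  have a2 : 2 ^ J0 / (M : ℝ) * ∑ j ∈ J, cc J x j ρ ^ t ≤ 2 ^ J0 / M * (K0 * F.X T) :=
    mul_le_mul_of_nonneg_left g2 (by positivity)
  have a3 : R1 / J0 * ∑ j ∈ J, cc J x j ρ ^ (t + 1) ≤ R1 / J0 * (K2 * F.X T) :=
    mul_le_mul_of_nonneg_left g4 (by positivity)
  have a4 : R1 / J0 * (2 * R1) * ∑ j ∈ J, cc J x j ρ ^ t ≤ R1 / J0 * (2 * R1) * (K0 * F.X T) :=
    mul_le_mul_of_nonneg_left g2 (by positivity)
  have b1 : K1 * F.X T / M + 2 ^ J0 / M * (K0 * F.X T) = (K1 + 2 ^ J0 * K0) / M * F.X T := by ring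
  have b2 : R1 / J0 * (K2 * F.X T) + R1 / J0 * (2 * R1) * (K0 * F.X T) = B / J0 * F.X T := by
    rw [hB]; ring
  have c1 := mul_le_mul_of_nonneg_right hMs hX.le
  have c2 := mul_le_mul_of_nonneg_right hJ0 hX.le
  have c3 : (C / Real.sqrt J0 + ε / 4) * F.X T + B / J0 * F.X T =
      (C / Real.sqrt J0 + B / J0) * F.X T + ε / 4 * F.X T := by ring
  have c4 : 0 < ε * F.X T := by positivity
  linarith

/-! ### the zeros of zeta -/

/-- a sum over the labelled zeros of a function of the ordinate and the local structure -/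
lemma conv_sum (T : ℝ) (ρ : ℝ) (r J : ℕ) :
    ∑ j ∈ JZ T, cc (JZ T) (xz T) j ρ ^ r * |FP (JZ T) (xz T) J j - mJ J| =
      ∑ n ∈ IT T, (kI (IT T) (yy T) ρ n : ℝ) ^ r * |FF J (IT T) (yy T) (yy T n) - mJ J| := by
  have h1 := sum_ord T (fun z => (∑ i ∈ JZ T, if |z * Real.log T / (2 * Real.pi) -
      i.1.im * Real.log T / (2 * Real.pi)| ≤ ρ then (1 : ℝ) else 0) ^ r *
    |(∑ i ∈ JZ T, Ph J (z * Real.log T / (2 * Real.pi) - i.1.im * Real.log T / (2 * Real.pi))) - mJ J|)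
  have e1 : ∀ z : ℝ, (∑ i ∈ JZ T, if |z * Real.log T / (2 * Real.pi) -
      i.1.im * Real.log T / (2 * Real.pi)| ≤ ρ then (1 : ℝ) else 0) =
      ∑ n ∈ IT T, if |z * Real.log T / (2 * Real.pi) - yy T n| ≤ ρ then (1 : ℝ) else 0 := fun z =>
    sum_ord T (fun u => if |z * Real.log T / (2 * Real.pi) - u * Real.log T / (2 * Real.pi)| ≤ ρ
      then (1 : ℝ) else 0)
  have e2 : ∀ z : ℝ, (∑ i ∈ JZ T, Ph J (z * Real.log T / (2 * Real.pi) -
      i.1.im * Real.log T / (2 * Real.pi))) =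
      ∑ n ∈ IT T, Ph J (z * Real.log T / (2 * Real.pi) - yy T n) := fun z =>
    sum_ord T (fun u => Ph J (z * Real.log T / (2 * Real.pi) - u * Real.log T / (2 * Real.pi)))
  have e3 : ∑ j ∈ JZ T, cc (JZ T) (xz T) j ρ ^ r * |FP (JZ T) (xz T) J j - mJ J| =
      ∑ n ∈ Finset.Ioc 0 (NZ T), (∑ i ∈ JZ T, if |ord n * Real.log T / (2 * Real.pi) -
      i.1.im * Real.log T / (2 * Real.pi)| ≤ ρ then (1 : ℝ) else 0) ^ r *
    |(∑ i ∈ JZ T, Ph J (ord n * Real.log T / (2 * Real.pi) - i.1.im * Real.log T / (2 * Real.pi))) -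
      mJ J| := h1
  rw [e3]
  refine Finset.sum_congr rfl fun n _ => ?_
  rw [e1, e2]
  congr 2
  unfold kI
  rw [Finset.card_filter]
  push_cast
  rfl

lemma conv_cc (T : ℝ) (ρ : ℝ) (q : ℕ) :
    ∑ j ∈ JZ T, cc (JZ T) (xz T) j ρ ^ q = ∑ n ∈ IT T, (kI (IT T) (yy T) ρ n : ℝ) ^ q := by
  have h1 := sum_ord T (fun z => (∑ i ∈ JZ T, if |z * Real.log T / (2 * Real.pi) -
      i.1.im * Real.log T / (2 * Real.pi)| ≤ ρ then (1 : ℝ) else 0) ^ q)
  have e1 : ∀ z : ℝ, (∑ i ∈ JZ T, if |z * Real.log T / (2 * Real.pi) -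
      i.1.im * Real.log T / (2 * Real.pi)| ≤ ρ then (1 : ℝ) else 0) =
      ∑ n ∈ IT T, if |z * Real.log T / (2 * Real.pi) - yy T n| ≤ ρ then (1 : ℝ) else 0 := fun z =>
    sum_ord T (fun u => if |z * Real.log T / (2 * Real.pi) - u * Real.log T / (2 * Real.pi)| ≤ ρ
      then (1 : ℝ) else 0)
  have e3 : ∑ j ∈ JZ T, cc (JZ T) (xz T) j ρ ^ q =
      ∑ n ∈ Finset.Ioc 0 (NZ T), (∑ i ∈ JZ T, if |ord n * Real.log T / (2 * Real.pi) -
      i.1.im * Real.log T / (2 * Real.pi)| ≤ ρ then (1 : ℝ) else 0) ^ q := h1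
  rw [e3]
  refine Finset.sum_congr rfl fun n _ => ?_
  rw [e1]
  congr 1
  unfold kI
  rw [Finset.card_filter]
  push_cast
  rfl

theorem mom_FZ : Mom FZ := by
  intro q ρ
  rcases Nat.eq_zero_or_pos q with h | h
  · subst h
    refine ⟨2, two_pos, ?_⟩
    filter_upwards [(tendsto_order.1 FZ.hJ).2 2 (by norm_num), FZ.pos] with T h1 h2
    rw [div_lt_iff₀ (by linarith)] at h1
    simp only [pow_zero, sum_const, nsmul_eq_mul, mul_one]
    exact h1.le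
  · obtain ⟨s, rfl⟩ : ∃ s, q = s + 1 := ⟨q - 1, by omega⟩
    obtain ⟨C, hC, h1⟩ := kI_pow s ρ
    refine ⟨C, hC, ?_⟩
    filter_upwards [h1] with T hT
    have := conv_cc T ρ (s + 1)
    rw [← this] at hT
    exact hT

theorem scr_FZ : Scr0 FZ := by
  intro r ρ
  obtain ⟨C, hC, h⟩ := scr_yy r ρ
  refine ⟨C, hC, fun J hJ ε hε => ?_⟩
  filter_upwards [h J hJ ε hε] with T hT
  rw [← conv_sum] at hT
  exact hT

end Q241.SC
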