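import Pool.Agent.Q241.SC.D2
import Pool.Agent.Q241.KL.K8

/-! # Either half implies the full statement, at every level -/

set_option autoImplicit false

open Finset Filter Topology

namespace Q241.SC

open Q241.KL

variable {ι : Type*} [DecidableEq ι] (F : Fam ι)

/-- the lower half at level `r + 1` -/
def Low (I : (r : ℕ) → (Fin r → ℝ) → (Fin r → ℝ) → ℝ) (r : ℕ) : Prop :=
  ∀ a b : Fin r → ℝ, (∀ l, a l < b l) → ∀ ε : ℝ, 0 < ε → ∀ᶠ T : ℝ in atTop,
    I r a b - ε ≤ F.n r a b T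

lemma bound_ab {s : ℕ} (a b : Fin s → ℝ) : ∃ R : ℝ, 1 ≤ R ∧ (∀ l, -R ≤ a l) ∧ (∀ l, b l ≤ R) := by
  have hs : 0 ≤ ∑ l, (|a l| + |b l|) := Finset.sum_nonneg fun l _ => by positivity
  refine ⟨1 + ∑ l, (|a l| + |b l|), by linarith, ?_, ?_⟩
  · intro l
    have h1 : |a l| + |b l| ≤ ∑ l, (|a l| + |b l|) :=
      Finset.single_le_sum (f := fun l => |a l| + |b l|) (fun l _ => by positivity) (mem_univ l)
    have := neg_abs_le (a l)
    have := abs_nonneg (b l)
    linarith
  · intro l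
    have h1 : |a l| + |b l| ≤ ∑ l, (|a l| + |b l|) :=
      Finset.single_le_sum (f := fun l => |a l| + |b l|) (fun l _ => by positivity) (mem_univ l)
    have := le_abs_self (b l)
    have := abs_nonneg (a l)
    linarith

/-- **integrating out one point** -/
theorem star (hM : Mom F) (hS : Scr0 F) {s : ℕ} (a b : Fin s → ℝ) (R0 : ℝ) {ε : ℝ} (hε : 0 < ε) :
    ∃ N : ℕ, 0 < N ∧ ∃ r : ℕ → ℝ, (∀ m, R0 ≤ r m) ∧ (∀ m, 1 ≤ r m) ∧
      ∀ᶠ T : ℝ in atTop,
        |(∑ m ∈ range N, F.n (s + 1) (Fin.cons (-(r m)) a) (Fin.cons (r m) b) T) / N -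
          ((∑ m ∈ range N, 2 * r m) / N - ((s + 1 : ℕ) : ℝ)) * F.n s a b T| ≤ ε := by
  obtain ⟨R, hR1, hRa, hRb⟩ := bound_ab a b
  obtain ⟨N, hN, r, hr, hr0, -, hev⟩ := scr_win F hM hS s R R0 hε
  refine ⟨N, hN, r, hr0, fun m => hR1.trans (hr m), ?_⟩
  filter_upwards [hev, F.pos] with T h1 h2
  have hX : 0 < F.X T := by linarith
  rw [avg_n F a b hRa hRb hN hr T, add_sub_cancel_right, abs_div, abs_of_pos hX, div_le_iff₀ hX]
  refine (Finset.abs_sum_le_sum_abs _ _).trans (le_trans ?_ h1)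
  refine Finset.sum_le_sum fun j hj => ?_
  rw [abs_mul, abs_of_nonneg (Nat.cast_nonneg _)]
  refine mul_le_mul_of_nonneg_right ?_ (abs_nonneg _)
  have h3 := E_le_pow (F.J T) (F.x T) j s a b R hRa hRb
  have h4 : ((E (F.J T) (F.x T) j s a b).card : ℝ) ≤ (w (F.J T) (F.x T) R j : ℝ) ^ s := by
    exact_mod_cast h3
  refine h4.trans (pow_le_pow_left₀ (Nat.cast_nonneg _) ?_ s)
  rw [cc_eq (F.J T) (F.x T) hj (by linarith)]
  linarith

lemma SI_nonneg (r : ℕ) (a b : Fin r → ℝ) : 0 ≤ SI r a b := by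
  unfold SI
  exact MeasureTheory.integral_nonneg fun u => SA_det_nonneg _

/-- the average of the intensities of the windows -/
lemma SI_avg {s : ℕ} (a b : Fin s → ℝ) {N : ℕ} (hN : 0 < N) (r : ℕ → ℝ) :
    (∑ m ∈ range N, SI (s + 1) (Fin.cons (-(r m)) a) (Fin.cons (r m) b)) / N =
      (∑ m ∈ range N, SB s a b (r m)) / N +
        ((∑ m ∈ range N, 2 * r m) / N - ((s + 1 : ℕ) : ℝ)) * SI s a b := by
  have hN0 : (0 : ℝ) < N := by exact_mod_cast hN
  unfold SB
  rw [Finset.sum_add_distrib, ← Finset.sum_mul, Finset.sum_sub_distrib, sum_const, card_range,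
    nsmul_eq_mul]
  field_simp
  ring

lemma avg_le {N : ℕ} (hN : 0 < N) {f : ℕ → ℝ} {c : ℝ} (h : ∀ m, f m ≤ c) :
    (∑ m ∈ range N, f m) / N ≤ c := by
  have hN0 : (0 : ℝ) < N := by exact_mod_cast hN
  rw [div_le_iff₀ hN0]
  refine (Finset.sum_le_sum fun m _ => h m).trans (le_of_eq ?_)
  rw [sum_const, card_range, nsmul_eq_mul, mul_comm]

lemma le_avg {N : ℕ} (hN : 0 < N) {f : ℕ → ℝ} {c : ℝ} (h : ∀ m, c ≤ f m) :
    c ≤ (∑ m ∈ range N, f m) / N := by
  have hN0 : (0 : ℝ) < N := by exact_mod_cast hN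
  rw [le_div_iff₀ hN0]
  refine le_trans (le_of_eq ?_) (Finset.sum_le_sum fun m _ => h m)
  rw [sum_const, card_range, nsmul_eq_mul, mul_comm]

lemma ev_all {N : ℕ} {p : ℕ → ℝ → Prop} (h : ∀ m, ∀ᶠ T : ℝ in atTop, p m T) :
    ∀ᶠ T : ℝ in atTop, ∀ m ∈ range N, p m T :=
  (Filter.eventually_all_finset _).2 fun m _ => h m

/-- **the lower half descends** -/
theorem low_desc (hM : Mom F) (hS : Scr0 F) {s : ℕ} (h : Low F SI (s + 1)) : Low F SI s := by
  intro a b hab ε hε
  obtain ⟨N, hN, r, hr0, hr1, hev⟩ := star F hM hS a b ((s : ℝ) + 2) (ε := ε / 2) (by positivity)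
  have hN0 : (0 : ℝ) < N := by exact_mod_cast hN
  have hall : ∀ᶠ T : ℝ in atTop, ∀ m ∈ range N,
      SI (s + 1) (Fin.cons (-(r m)) a) (Fin.cons (r m) b) - ε / 2 ≤
        F.n (s + 1) (Fin.cons (-(r m)) a) (Fin.cons (r m) b) T :=
    ev_all fun m => h _ _ (cons_lt hab (by linarith [hr1 m])) (ε / 2) (by positivity)
  filter_upwards [hev, hall] with T h1 h2
  set M : ℝ := (∑ m ∈ range N, 2 * r m) / N with hMd
  have hM2 : (s : ℝ) + 2 ≤ M := le_avg hN fun m => by
    have := hr0 m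
    have := hr1 m
    linarith
  have h3 : (∑ m ∈ range N, SI (s + 1) (Fin.cons (-(r m)) a) (Fin.cons (r m) b)) / N - ε / 2 ≤
      (∑ m ∈ range N, F.n (s + 1) (Fin.cons (-(r m)) a) (Fin.cons (r m) b) T) / N := by
    have h4 := Finset.sum_le_sum h2
    rw [Finset.sum_sub_distrib, sum_const, card_range, nsmul_eq_mul] at h4
    rw [le_div_iff₀ hN0, sub_mul, div_mul_cancel₀ _ hN0.ne']
    linarith
  rw [SI_avg a b hN r, ← hMd] at h3
  have h4 : 0 ≤ (∑ m ∈ range N, SB s a b (r m)) / N :=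
    le_avg hN fun m => SB_nonneg s a b (by linarith [hr1 m])
  have h5 := (abs_le.1 h1).2
  have h6 : (M - ((s + 1 : ℕ) : ℝ)) * (SI s a b - F.n s a b T) ≤ ε := by
    rw [mul_sub]
    linarith
  push_cast at h6
  by_contra hcon
  push Not at hcon
  have h7 : 1 ≤ M - ((s : ℝ) + 1) := by linarith
  have h8 : 0 < SI s a b - F.n s a b T := by linarith
  nlinarith

/-- **the upper half descends** -/
theorem up_desc' (hM : Mom F) (hS : Scr0 F) {s : ℕ} (h : F.Up SI (s + 1)) : F.Up SI s := by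
  intro a b hab ε hε
  obtain ⟨R1, hR1⟩ : ∃ R1 : ℝ, ∀ ρ, R1 ≤ ρ → SB s a b ρ ≤ ε / 4 := by
    obtain ⟨R1, h4⟩ := eventually_atTop.1 ((tendsto_order.1 (SB_lim s a b)).2 (ε / 4)
      (by positivity))
    exact ⟨R1, fun ρ hρ => (h4 ρ hρ).le⟩
  obtain ⟨N, hN, r, hr0, hr1, hev⟩ := star F hM hS a b (max ((s : ℝ) + 2) R1) (ε := ε / 4)
    (by positivity)
  have hN0 : (0 : ℝ) < N := by exact_mod_cast hN
  have hall : ∀ᶠ T : ℝ in atTop, ∀ m ∈ range N,
      F.n (s + 1) (Fin.cons (-(r m)) a) (Fin.cons (r m) b) T ≤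
        SI (s + 1) (Fin.cons (-(r m)) a) (Fin.cons (r m) b) + ε / 4 :=
    ev_all fun m => h _ _ (cons_lt hab (by linarith [hr1 m])) (ε / 4) (by positivity)
  filter_upwards [hev, hall] with T h1 h2
  set M : ℝ := (∑ m ∈ range N, 2 * r m) / N with hMd
  have hM2 : (s : ℝ) + 2 ≤ M := le_avg hN fun m => by
    have := (le_max_left _ _).trans (hr0 m)
    have := hr1 m
    linarith
  have h3 : (∑ m ∈ range N, F.n (s + 1) (Fin.cons (-(r m)) a) (Fin.cons (r m) b) T) / N ≤
      (∑ m ∈ range N, SI (s + 1) (Fin.cons (-(r m)) a) (Fin.cons (r m) b)) / N + ε / 4 := by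
    have h4 := Finset.sum_le_sum h2
    rw [Finset.sum_add_distrib, sum_const, card_range, nsmul_eq_mul] at h4
    rw [div_le_iff₀ hN0, add_mul, div_mul_cancel₀ _ hN0.ne']
    linarith
  rw [SI_avg a b hN r, ← hMd] at h3
  have h4 : (∑ m ∈ range N, SB s a b (r m)) / N ≤ ε / 4 :=
    avg_le hN fun m => hR1 _ ((le_max_right _ _).trans (hr0 m))
  have h5 := (abs_le.1 h1).1
  have h6 : (M - ((s + 1 : ℕ) : ℝ)) * (F.n s a b T - SI s a b) ≤ ε := by
    rw [mul_sub]
    linarith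
  push_cast at h6
  by_contra hcon
  push Not at hcon
  have h7 : 1 ≤ M - ((s : ℝ) + 1) := by linarith
  have h8 : 0 < F.n s a b T - SI s a b := by linarith
  nlinarith

/-- **the upper half at a level implies the full statement**, if the level below is known -/
theorem full_up (hM : Mom F) (hS : Scr0 F) {s : ℕ} (h1 : F.Up SI (s + 1)) (h0 : F.Full SI s) :
    F.Full SI (s + 1) := by
  intro A B hAB
  obtain ⟨c, a, rfl⟩ : ∃ c a, A = Fin.cons c a := ⟨A 0, Fin.tail A, (Fin.cons_self_tail A).symm⟩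
  obtain ⟨d, b, rfl⟩ : ∃ d b, B = Fin.cons d b := ⟨B 0, Fin.tail B, (Fin.cons_self_tail B).symm⟩
  have hcd : c < d := by
    have := hAB 0
    simpa using this
  have hab : ∀ l, a l < b l := by
    intro l
    have := hAB l.succ
    simpa using this
  rw [tendsto_order]
  refine ⟨fun y hy => ?_, fun y hy => ?_⟩
  · set ε : ℝ := SI (s + 1) (Fin.cons c a) (Fin.cons d b) - y with hε
    have hε0 : 0 < ε := by
      have : y < SI (s + 1) (Fin.cons c a) (Fin.cons d b) := hy
      linarith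
    obtain ⟨R1, hR1⟩ : ∃ R1 : ℝ, ∀ ρ, R1 ≤ ρ → SB s a b ρ ≤ ε / 8 := by
      obtain ⟨R1, h4⟩ := eventually_atTop.1 ((tendsto_order.1 (SB_lim s a b)).2 (ε / 8)
        (by positivity))
      exact ⟨R1, fun ρ hρ => (h4 ρ hρ).le⟩
    obtain ⟨N, hN, r, hr0, hr1, hev⟩ := star F hM hS a b (max (|c| + |d| + 1) R1) (ε := ε / 8)
      (by positivity)
    have hN0 : (0 : ℝ) < N := by exact_mod_cast hN
    have hrc : ∀ m, -(r m) < c := fun m => by
      have := (le_max_left _ _).trans (hr0 m)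
      have := neg_abs_le c
      have := abs_nonneg d
      linarith
    have hrd : ∀ m, d < r m := fun m => by
      have := (le_max_left _ _).trans (hr0 m)
      have := le_abs_self d
      have := abs_nonneg c
      linarith
    have hout : ∀ᶠ T : ℝ in atTop, ∀ m ∈ range N,
        F.n (s + 1) (Fin.cons (-(r m)) a) (Fin.cons c b) T +
          F.n (s + 1) (Fin.cons d a) (Fin.cons (r m) b) T ≤
        SI (s + 1) (Fin.cons (-(r m)) a) (Fin.cons c b) +
          SI (s + 1) (Fin.cons d a) (Fin.cons (r m) b) + ε / 8 := by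
      refine ev_all fun m => ?_
      have k1 := h1 (Fin.cons (-(r m)) a) (Fin.cons c b) (fun l => by
        refine Fin.cases ?_ (fun l => ?_) l
        · simp only [Fin.cons_zero]; exact hrc m
        · simp only [Fin.cons_succ]; exact hab l) (ε / 16) (by positivity)
      have k2 := h1 (Fin.cons d a) (Fin.cons (r m) b) (fun l => by
        refine Fin.cases ?_ (fun l => ?_) l
        · simp only [Fin.cons_zero]; exact hrd m
        · simp only [Fin.cons_succ]; exact hab l) (ε / 16) (by positivity)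
      filter_upwards [k1, k2] with T b1 b2
      linarith
    set M : ℝ := (∑ m ∈ range N, 2 * r m) / N with hMd
    have hmid : Tendsto (fun T => (M - ((s + 1 : ℕ) : ℝ)) * F.n s a b T) atTop
        (𝓝 ((M - ((s + 1 : ℕ) : ℝ)) * SI s a b)) := (h0 a b hab).const_mul _
    filter_upwards [F.pos, hev, hout,
      (tendsto_order.1 hmid).1 ((M - ((s + 1 : ℕ) : ℝ)) * SI s a b - ε / 8) (by linarith)]
      with T hT b1 b2 b3
    have hX0 : 0 < F.X T := by linarith
    have e3 := cut_n F a b c d N r hX0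
    have e5 : ∀ m ∈ range N, SI (s + 1) (Fin.cons (-(r m)) a) (Fin.cons c b) +
          SI (s + 1) (Fin.cons d a) (Fin.cons (r m) b) =
        SI (s + 1) (Fin.cons (-(r m)) a) (Fin.cons (r m) b) -
          SI (s + 1) (Fin.cons c a) (Fin.cons d b) := by
      intro m _
      rw [SI_split s a b (c := -(r m)) (d := c) (e := r m) (hrc m).le (by linarith [hrd m]),
        SI_split s a b (c := c) (d := d) (e := r m) hcd.le (hrd m).le]
      ring
    have e4 : ∑ m ∈ range N, (F.n (s + 1) (Fin.cons (-(r m)) a) (Fin.cons c b) T +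
          F.n (s + 1) (Fin.cons d a) (Fin.cons (r m) b) T) ≤
        ∑ m ∈ range N, SI (s + 1) (Fin.cons (-(r m)) a) (Fin.cons (r m) b) -
          N * SI (s + 1) (Fin.cons c a) (Fin.cons d b) + N * (ε / 8) := by
      refine (Finset.sum_le_sum fun m hm => (b2 m hm).trans (le_of_eq (by rw [e5 m hm]))).trans
        (le_of_eq ?_)
      rw [Finset.sum_add_distrib, Finset.sum_sub_distrib, sum_const, sum_const, card_range,
        nsmul_eq_mul, nsmul_eq_mul]
    have e6 := SI_avg a b hN r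
    rw [← hMd] at e6
    have e7 : (∑ m ∈ range N, SB s a b (r m)) / N ≤ ε / 8 :=
      avg_le hN fun m => hR1 _ ((le_max_right _ _).trans (hr0 m))
    have b4 := (abs_le.1 b1).1
    generalize F.n (s + 1) (Fin.cons c a) (Fin.cons d b) T = Z at *
    have e8 : (∑ m ∈ range N, F.n (s + 1) (Fin.cons (-(r m)) a) (Fin.cons (r m) b) T) / N ≤
        (∑ m ∈ range N, SI (s + 1) (Fin.cons (-(r m)) a) (Fin.cons (r m) b)) / N -
          SI (s + 1) (Fin.cons c a) (Fin.cons d b) + ε / 8 + Z := by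
      rw [div_le_iff₀ hN0, add_mul, add_mul, sub_mul, div_mul_cancel₀ _ hN0.ne']
      linarith
    rw [e6] at e8
    have e9 : y = SI (s + 1) (Fin.cons c a) (Fin.cons d b) - ε := by rw [hε]; ring
    rw [e9]
    linarith
  · set ε : ℝ := y - SI (s + 1) (Fin.cons c a) (Fin.cons d b) with hε
    have hε0 : 0 < ε := by
      have : SI (s + 1) (Fin.cons c a) (Fin.cons d b) < y := hy
      linarith
    filter_upwards [h1 _ _ hAB (ε / 2) (by positivity)] with T hT
    linarith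

end Q241.SC
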