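import Pool.Agent.Q241.SC.E1

/-! # The lower half implies the full statement, at every level -/

set_option autoImplicit false

open Finset Filter Topology

namespace Q241.SC

open Q241.KL MeasureTheory

theorem SI_slab {s : ℕ} (a b : Fin s → ℝ) {p q : ℝ} (hpq : p ≤ q) :
    SI (s + 1) (Fin.cons p a) (Fin.cons q b) ≤ (q - p) * volume.real (Set.Icc a b) := by
  rw [SI_one_more]
  have hfin : volume (Set.Icc a b) ≠ ⊤ := isCompact_Icc.measure_ne_top
  have hin : ∀ u : Fin s → ℝ, ∫ v in Set.Icc p q,
      (SA (Fin.cons v (Fin.snoc u 0 : Fin (s + 1) → ℝ) : Fin (s + 2) → ℝ)).det ≤ q - p := by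
    intro u
    have h1 : ‖∫ v in Set.Icc p q,
      (SA (Fin.cons v (Fin.snoc u 0 : Fin (s + 1) → ℝ) : Fin (s + 2) → ℝ)).det‖ ≤
        1 * volume.real (Set.Icc p q) := by
      refine norm_setIntegral_le_of_norm_le_const isCompact_Icc.measure_lt_top fun v _ => ?_
      exact SA_det_abs _
    rw [one_mul, Measure.real, Real.volume_Icc, ENNReal.toReal_ofReal (by linarith)] at h1
    exact (le_abs_self _).trans h1
  have hc : Continuous fun u : Fin s → ℝ => ∫ v in Set.Icc p q,
      (SA (Fin.cons v (Fin.snoc u 0 : Fin (s + 1) → ℝ) : Fin (s + 2) → ℝ)).det := by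
    refine continuous_parametric_integral_of_continuous
      (f := fun (u : Fin s → ℝ) (v : ℝ) =>
        (SA (Fin.cons v (Fin.snoc u 0 : Fin (s + 1) → ℝ) : Fin (s + 2) → ℝ)).det) ?_ isCompact_Icc
    exact SA_cont (cons_cont.comp ((snoc_cont.comp continuous_fst).prodMk continuous_snd))
  have h2 := setIntegral_mono_on (hc.continuousOn.integrableOn_compact isCompact_Icc)
    (integrableOn_const hfin (C := q - p)) measurableSet_Icc
    (fun (u : Fin s → ℝ) (_ : u ∈ Set.Icc a b) => hin u)
  refine h2.trans (le_of_eq ?_)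
  rw [setIntegral_const, smul_eq_mul, mul_comm]

variable {ι : Type*} [DecidableEq ι]

theorem cnt_cut' (J : Finset ι) (x : ι → ℝ) {r : ℕ} (a b : Fin r → ℝ) {p c' c d d' q : ℝ}
    (h1 : c' < c) (h2 : d < d') (hcd : c ≤ d) (hp : p ≤ c') (hq : d' ≤ q) :
    (cnt J x (r + 1) (Fin.cons p a) (Fin.cons c' b) : ℝ) + cnt J x (r + 1) (Fin.cons c a) (Fin.cons d b) +
        cnt J x (r + 1) (Fin.cons d' a) (Fin.cons q b) ≤
      cnt J x (r + 1) (Fin.cons p a) (Fin.cons q b) := by
  classical
  unfold cnt
  push_cast
  rw [← Finset.sum_add_distrib, ← Finset.sum_add_distrib]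
  refine Finset.sum_le_sum fun j _ => ?_
  have hfirst : ∀ p q : ℝ, ∀ s, s ∈ E J x j (r + 1) (Fin.cons p a) (Fin.cons q b) →
      p ≤ x (s 0) - x j ∧ x (s 0) - x j ≤ q := by
    intro p q s hs
    rw [mem_E] at hs
    have := hs.2.2.2 0
    simpa using this
  have hmono : ∀ p q p' q' : ℝ, p' ≤ p → q ≤ q' →
      E J x j (r + 1) (Fin.cons p a) (Fin.cons q b) ⊆ E J x j (r + 1) (Fin.cons p' a) (Fin.cons q' b) := by
    intro p q p' q' hp hq
    refine E_mono J x j (fun l => ?_) (fun l => ?_)
    · refine Fin.cases ?_ (fun l => ?_) l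
      · simp only [Fin.cons_zero]; exact hp
      · simp only [Fin.cons_succ]; exact le_rfl
    · refine Fin.cases ?_ (fun l => ?_) l
      · simp only [Fin.cons_zero]; exact hq
      · simp only [Fin.cons_succ]; exact le_rfl
  have d1 : Disjoint (E J x j (r + 1) (Fin.cons p a) (Fin.cons c' b))
      (E J x j (r + 1) (Fin.cons c a) (Fin.cons d b)) := by
    rw [Finset.disjoint_left]
    intro s hs hs'
    have g1 := hfirst _ _ s hs
    have g2 := hfirst _ _ s hs'
    linarith
  have d2 : Disjoint (E J x j (r + 1) (Fin.cons p a) (Fin.cons c' b) ∪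
      E J x j (r + 1) (Fin.cons c a) (Fin.cons d b)) (E J x j (r + 1) (Fin.cons d' a) (Fin.cons q b)) := by
    rw [Finset.disjoint_left]
    intro s hs hs'
    have g2 := hfirst _ _ s hs'
    rw [mem_union] at hs
    rcases hs with hs | hs
    · have g1 := hfirst _ _ s hs
      linarith
    · have g1 := hfirst _ _ s hs
      linarith
  have hsub : E J x j (r + 1) (Fin.cons p a) (Fin.cons c' b) ∪
      E J x j (r + 1) (Fin.cons c a) (Fin.cons d b) ∪ E J x j (r + 1) (Fin.cons d' a) (Fin.cons q b) ⊆
      E J x j (r + 1) (Fin.cons p a) (Fin.cons q b) :=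
    union_subset (union_subset (hmono _ _ _ _ le_rfl (by linarith)) (hmono _ _ _ _ (by linarith)
      (by linarith))) (hmono _ _ _ _ (by linarith) le_rfl)
  have h3 := card_le_card hsub
  rw [card_union_of_disjoint d2, card_union_of_disjoint d1] at h3
  exact_mod_cast h3

variable (F : Fam ι)

/-- **the lower half at a level implies the full statement**, if the level below is known -/
theorem full_low (hM : Mom F) (hS : Scr0 F) {s : ℕ} (h1 : Low F SI (s + 1)) (h0 : F.Full SI s) :
    F.Full SI (s + 1) := by
  intro A B hAB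
  obtain ⟨c, a, rfl⟩ : ∃ c a, A = Fin.cons c a := ⟨A 0, Fin.tail A, (Fin.cons_self_tail A).symm⟩
  obtain ⟨d, b, rfl⟩ : ∃ d b, B = Fin.cons d b := ⟨B 0, Fin.tail B, (Fin.cons_self_tail B).symm⟩
  have hcd : c < d := by
    have := hAB 0
    simpa using this
  have hab : ∀ l, a l < b l := by
    intro l
    have := hAB l.succ
    simpa using this
  rw [tendsto_order]
  refine ⟨fun y hy => ?_, fun y hy => ?_⟩
  · set ε : ℝ := SI (s + 1) (Fin.cons c a) (Fin.cons d b) - y with hε
    have hε0 : 0 < ε := by
      have : y < SI (s + 1) (Fin.cons c a) (Fin.cons d b) := hy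
      linarith
    filter_upwards [h1 _ _ hAB (ε / 2) (by positivity)] with T hT
    linarith
  · set ε : ℝ := y - SI (s + 1) (Fin.cons c a) (Fin.cons d b) with hε
    have hε0 : 0 < ε := by
      have : SI (s + 1) (Fin.cons c a) (Fin.cons d b) < y := hy
      linarith
    set v : ℝ := volume.real (Set.Icc a b) with hv
    have hv0 : 0 ≤ v := measureReal_nonneg
    set η : ℝ := ε / (16 * (v + 1)) with hη
    have hη0 : 0 < η := by positivity
    have hηv : η * v ≤ ε / 16 := by
      rw [hη, div_mul_eq_mul_div, div_le_div_iff₀ (by positivity) (by norm_num)]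
      nlinarith
    obtain ⟨N, hN, r, hr0, hr1, hev⟩ := star F hM hS a b (|c| + |d| + 2 * η + 1) (ε := ε / 8)
      (by positivity)
    have hN0 : (0 : ℝ) < N := by exact_mod_cast hN
    have hrc : ∀ m, -(r m) < c - η := fun m => by
      have := hr0 m
      have := neg_abs_le c
      have := abs_nonneg d
      linarith
    have hrd : ∀ m, d + η < r m := fun m => by
      have := hr0 m
      have := le_abs_self d
      have := abs_nonneg c
      linarith
    have hout : ∀ᶠ T : ℝ in atTop, ∀ m ∈ range N,
        SI (s + 1) (Fin.cons (-(r m)) a) (Fin.cons (c - η) b) +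
          SI (s + 1) (Fin.cons (d + η) a) (Fin.cons (r m) b) - ε / 8 ≤
        F.n (s + 1) (Fin.cons (-(r m)) a) (Fin.cons (c - η) b) T +
          F.n (s + 1) (Fin.cons (d + η) a) (Fin.cons (r m) b) T := by
      refine ev_all fun m => ?_
      have k1 := h1 (Fin.cons (-(r m)) a) (Fin.cons (c - η) b) (fun l => by
        refine Fin.cases ?_ (fun l => ?_) l
        · simp only [Fin.cons_zero]; exact hrc m
        · simp only [Fin.cons_succ]; exact hab l) (ε / 16) (by positivity)
      have k2 := h1 (Fin.cons (d + η) a) (Fin.cons (r m) b) (fun l => by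
        refine Fin.cases ?_ (fun l => ?_) l
        · simp only [Fin.cons_zero]; exact hrd m
        · simp only [Fin.cons_succ]; exact hab l) (ε / 16) (by positivity)
      filter_upwards [k1, k2] with T b1 b2
      linarith
    set M : ℝ := (∑ m ∈ range N, 2 * r m) / N with hMd
    have hmid : Tendsto (fun T => (M - ((s + 1 : ℕ) : ℝ)) * F.n s a b T) atTop
        (𝓝 ((M - ((s + 1 : ℕ) : ℝ)) * SI s a b)) := (h0 a b hab).const_mul _
    filter_upwards [F.pos, hev, hout,
      (tendsto_order.1 hmid).2 ((M - ((s + 1 : ℕ) : ℝ)) * SI s a b + ε / 8) (by linarith)]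
      with T hT b1 b2 b3
    have hX0 : 0 < F.X T := by linarith
    have e3 : ∀ m ∈ range N, F.n (s + 1) (Fin.cons (-(r m)) a) (Fin.cons (c - η) b) T +
          F.n (s + 1) (Fin.cons (d + η) a) (Fin.cons (r m) b) T +
          F.n (s + 1) (Fin.cons c a) (Fin.cons d b) T ≤
        F.n (s + 1) (Fin.cons (-(r m)) a) (Fin.cons (r m) b) T := by
      intro m _
      have h4 := cnt_cut' (F.J T) (F.x T) a b (p := -(r m)) (c' := c - η) (c := c) (d := d)
        (d' := d + η) (q := r m) (by linarith) (by linarith) hcd.le (hrc m).le (hrd m).le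
      unfold Fam.n
      rw [← add_div, ← add_div]
      refine div_le_div_of_nonneg_right ?_ hX0.le
      linarith
    have e5 : ∀ m ∈ range N, SI (s + 1) (Fin.cons (-(r m)) a) (Fin.cons (r m) b) -
          SI (s + 1) (Fin.cons c a) (Fin.cons d b) - ε / 8 ≤
        SI (s + 1) (Fin.cons (-(r m)) a) (Fin.cons (c - η) b) +
          SI (s + 1) (Fin.cons (d + η) a) (Fin.cons (r m) b) := by
      intro m _
      rw [SI_split s a b (c := -(r m)) (d := c - η) (e := r m) (hrc m).le (by linarith [hrd m]),
        SI_split s a b (c := c - η) (d := c) (e := r m) (by linarith) (by linarith [hrd m]),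
        SI_split s a b (c := c) (d := d) (e := r m) hcd.le (by linarith [hrd m]),
        SI_split s a b (c := d) (d := d + η) (e := r m) (by linarith) (hrd m).le]
      have g1 := SI_slab a b (p := c - η) (q := c) (by linarith)
      have g2 := SI_slab a b (p := d) (q := d + η) (by linarith)
      rw [← hv] at g1 g2
      have g3 : (c - (c - η)) * v = η * v := by ring
      have g4 : (d + η - d) * v = η * v := by ring
      rw [g3] at g1
      rw [g4] at g2
      linarith
    have e4 : ∀ m ∈ range N, F.n (s + 1) (Fin.cons c a) (Fin.cons d b) T ≤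
        F.n (s + 1) (Fin.cons (-(r m)) a) (Fin.cons (r m) b) T -
        SI (s + 1) (Fin.cons (-(r m)) a) (Fin.cons (r m) b) +
          (SI (s + 1) (Fin.cons c a) (Fin.cons d b) + ε / 4) := by
      intro m hm
      have := e3 m hm
      have := e5 m hm
      have := b2 m hm
      linarith
    have e6 := Finset.sum_le_sum e4
    rw [sum_const, Finset.sum_add_distrib, Finset.sum_sub_distrib, sum_const, card_range,
      nsmul_eq_mul, nsmul_eq_mul] at e6
    have e7 := SI_avg a b hN r
    rw [← hMd] at e7
    have e8 : 0 ≤ (∑ m ∈ range N, SB s a b (r m)) / N :=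
      le_avg hN fun m => SB_nonneg s a b (by linarith [hr1 m])
    have b4 := (abs_le.1 b1).2
    generalize F.n (s + 1) (Fin.cons c a) (Fin.cons d b) T = Z at *
    have e9 : Z ≤ (∑ m ∈ range N, F.n (s + 1) (Fin.cons (-(r m)) a) (Fin.cons (r m) b) T) / N -
        (∑ m ∈ range N, SI (s + 1) (Fin.cons (-(r m)) a) (Fin.cons (r m) b)) / N +
        (SI (s + 1) (Fin.cons c a) (Fin.cons d b) + ε / 4) := by
      rw [← sub_div, div_add' _ _ _ hN0.ne', le_div_iff₀ hN0]
      linarith
    rw [e7] at e9
    have e10 : y = SI (s + 1) (Fin.cons c a) (Fin.cons d b) + ε := by rw [hε]; ring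
    rw [e10]
    linarith

/-- **either half implies the full statement, at every level** -/
theorem full_of_low_all (hM : Mom F) (hS : Scr0 F) : ∀ r : ℕ, Low F SI r → F.Full SI r := by
  intro r
  induction r with
  | zero => exact fun _ => full_zero F
  | succ r ih => exact fun h => full_low F hM hS h (ih (low_desc F hM hS h))

theorem full_of_up_all' (hM : Mom F) (hS : Scr0 F) : ∀ r : ℕ, F.Up SI r → F.Full SI r := by
  intro r
  induction r with
  | zero => exact fun _ => full_zero F
  | succ r ih => exact fun h => full_up F hM hS h (ih (up_desc' F hM hS h))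

end Q241.SC
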