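import Pool.Agent.Q241.DT.Fin
import Pool.Agent.Q241.KL.S

/-! # Correlation functions of mixtures of stationary determinantal processes -/

set_option autoImplicit false

open Filter Topology MeasureTheory

namespace Q241.SC

open Q241.DT (Sy KF Mix RR)

/-- the matrix of the kernel with symbol `φ` -/
noncomputable def DK (φ : ℝ → ℝ) {n : ℕ} (p : Fin n → ℝ) : Matrix (Fin n) (Fin n) ℂ :=
  Matrix.of fun i j => KF φ (p i - p j)

lemma DK_bound {φ : ℝ → ℝ} (h : Sy φ) {n : ℕ} (p : Fin n → ℝ) :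
    ‖(DK φ p).det‖ ≤ (n.factorial : ℝ) * (∫ t, φ t) ^ n := by
  rw [Matrix.det_apply]
  refine (norm_sum_le _ _).trans ?_
  have h1 : ∀ σ ∈ (Finset.univ : Finset (Equiv.Perm (Fin n))),
      ‖Equiv.Perm.sign σ • ∏ i, DK φ p (σ i) i‖ ≤ (∫ t, φ t) ^ n := by
    intro σ _
    have h2 : ‖Equiv.Perm.sign σ • ∏ i, DK φ p (σ i) i‖ = ∏ i, ‖DK φ p (σ i) i‖ := by
      rcases Int.units_eq_one_or (Equiv.Perm.sign σ) with h3 | h3
      · rw [h3, one_smul, norm_prod]
      · rw [h3, Units.neg_smul, one_smul, norm_neg, norm_prod]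
    rw [h2]
    have h3 : ∏ i, ‖DK φ p (σ i) i‖ ≤ ∏ _i : Fin n, (∫ t, φ t) :=
      Finset.prod_le_prod (fun _ _ => norm_nonneg _) fun i _ => h.KF_le _
    rw [Finset.prod_const, Finset.card_univ, Fintype.card_fin] at h3
    exact h3
  refine (Finset.sum_le_sum h1).trans (le_of_eq ?_)
  rw [Finset.sum_const, Finset.card_univ, Fintype.card_perm, Fintype.card_fin, nsmul_eq_mul]

lemma DK_cont {φ : ℝ → ℝ} (h : Sy φ) {n : ℕ} : Continuous fun p : Fin n → ℝ => (DK φ p).det := by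
  refine Continuous.matrix_det ?_
  refine continuous_matrix fun i j => ?_
  unfold DK
  simp only [Matrix.of_apply]
  exact h.KF_cont.comp ((continuous_apply i).sub (continuous_apply j))

/-- Riemann-Lebesgue -/
lemma KF_lim (φ : ℝ → ℝ) : Tendsto (KF φ) (cocompact ℝ) (𝓝 0) := by
  have h1 := Real.tendsto_integral_exp_smul_cocompact (fun t : ℝ => (φ t : ℂ))
  have h2 : Tendsto (fun u : ℝ => -u) (cocompact ℝ) (cocompact ℝ) :=
    (Homeomorph.neg ℝ).isClosedEmbedding.tendsto_cocompact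
  have h3 := h1.comp h2
  refine h3.congr fun u => ?_
  unfold KF
  refine integral_congr_ae (Eventually.of_forall fun t => ?_)
  show Real.fourierChar (-(t * -u)) • (φ t : ℂ) = (φ t : ℂ) * Complex.exp (2 * Real.pi * u * t * Complex.I)
  rw [Circle.smul_def, Real.fourierChar_apply, smul_eq_mul, mul_comm]
  congr 2
  push_cast
  ring

/-- far away points decouple -/
lemma DK_lim (φ : ℝ → ℝ) {n : ℕ} (q : Fin n → ℝ) :
    Tendsto (fun v : ℝ => (DK φ (Fin.cons v q : Fin (n + 1) → ℝ)).det) (cocompact ℝ)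
      (𝓝 (KF φ 0 * (DK φ q).det)) := by
  set B : Matrix (Fin (n + 1)) (Fin (n + 1)) ℂ :=
    Matrix.of (Fin.cons (Fin.cons (KF φ 0) 0) (fun i => Fin.cons 0 (DK φ q i))) with hBdef
  have hB : B.det = KF φ 0 * (DK φ q).det := by
    rw [Matrix.det_succ_row_zero, Fin.sum_univ_succ]
    have h0 : ∑ i : Fin n, (-1 : ℂ) ^ ((i.succ : Fin (n + 1)) : ℕ) * B 0 i.succ *
        (B.submatrix Fin.succ (Fin.succAbove i.succ)).det = 0 := by
      refine Finset.sum_eq_zero fun i _ => ?_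
      have : B 0 i.succ = 0 := by simp [hBdef]
      rw [this]
      ring
    rw [h0, add_zero]
    have h1 : B 0 0 = KF φ 0 := by simp [hBdef]
    have h2 : B.submatrix Fin.succ (Fin.succAbove 0) = DK φ q := by
      ext i j
      simp [hBdef]
    rw [h1, h2]
    simp
  rw [← hB]
  have hlim : ∀ c : ℝ, Tendsto (fun v : ℝ => KF φ (v - c)) (cocompact ℝ) (𝓝 0) := by
    intro c
    refine (KF_lim φ).comp ?_
    exact (Homeomorph.subRight c).isClosedEmbedding.tendsto_cocompact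
  have hlim' : ∀ c : ℝ, Tendsto (fun v : ℝ => KF φ (c - v)) (cocompact ℝ) (𝓝 0) := by
    intro c
    refine (KF_lim φ).comp ?_
    exact (Homeomorph.subLeft c).isClosedEmbedding.tendsto_cocompact
  have h : Tendsto (fun v : ℝ => DK φ (Fin.cons v q : Fin (n + 1) → ℝ)) (cocompact ℝ) (𝓝 B) := by
    refine tendsto_pi_nhds.mpr fun i => tendsto_pi_nhds.mpr fun j => ?_
    refine Fin.cases ?_ (fun i => ?_) i
    · refine Fin.cases ?_ (fun j => ?_) j
      · have e : B 0 0 = KF φ 0 := by simp [hBdef]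
        rw [e]
        have : (fun v : ℝ => DK φ (Fin.cons v q : Fin (n + 1) → ℝ) 0 0) = fun _ => KF φ 0 := by
          funext v
          simp [DK]
        rw [this]
        exact tendsto_const_nhds
      · have e : B 0 j.succ = 0 := by simp [hBdef]
        rw [e]
        have : (fun v : ℝ => DK φ (Fin.cons v q : Fin (n + 1) → ℝ) 0 j.succ) =
            fun v => KF φ (v - q j) := by
          funext v
          simp [DK]
        rw [this]
        exact hlim _
    · refine Fin.cases ?_ (fun j => ?_) j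
      · have e : B i.succ 0 = 0 := by simp [hBdef]
        rw [e]
        have : (fun v : ℝ => DK φ (Fin.cons v q : Fin (n + 1) → ℝ) i.succ 0) =
            fun v => KF φ (q i - v) := by
          funext v
          simp [DK]
        rw [this]
        exact hlim' _
      · have e : B i.succ j.succ = DK φ q i j := by simp [hBdef]
        rw [e]
        have : (fun v : ℝ => DK φ (Fin.cons v q : Fin (n + 1) → ℝ) i.succ j.succ) =
            fun _ => DK φ q i j := by
          funext v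
          simp [DK]
        rw [this]
        exact tendsto_const_nhds
  exact ((continuous_id.matrix_det).tendsto B).comp h

lemma KF_zero (φ : ℝ → ℝ) : KF φ 0 = ((∫ t, φ t : ℝ) : ℂ) := by
  unfold KF
  rw [← integral_complex_ofReal]
  refine integral_congr_ae (Eventually.of_forall fun t => ?_)
  simp

/-- the symbols of a mixture with finite correlation functions up to order `k + 1` -/
structure MixK {Ω : Type*} [MeasurableSpace Ω] (k : ℕ) (μ : Measure Ω) (φ : Ω → ℝ → ℝ) : Prop where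
  meas : Measurable (Function.uncurry φ)
  nonneg : ∀ ω t, 0 ≤ φ ω t
  le_one : ∀ ω t, φ ω t ≤ 1
  int : ∀ ω, Integrable (φ ω)
  mean : ∫ ω, ∫ t, φ ω t ∂volume ∂μ = 1
  pow : Integrable (fun ω => (∫ t, φ ω t) ^ (k + 1)) μ

variable {Ω : Type*} [MeasurableSpace Ω] {μ : Measure Ω} {φ : Ω → ℝ → ℝ} {k : ℕ}

/-- weighted correlation functions -/
noncomputable def RD (μ : Measure Ω) (φ : Ω → ℝ → ℝ) (m n : ℕ) (p : Fin n → ℝ) : ℝ :=
  ∫ ω, (∫ t, φ ω t) ^ m * ((DK (φ ω) p).det).re ∂μ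

lemma MixK.sy (h : MixK k μ φ) (ω : Ω) : Sy (φ ω) :=
  ⟨h.meas.comp measurable_prodMk_left, h.nonneg ω, h.le_one ω, h.int ω⟩

lemma MixK.c_nonneg (h : MixK k μ φ) (ω : Ω) : 0 ≤ ∫ t, φ ω t := integral_nonneg fun t => h.nonneg ω t

lemma MixK.c_meas (h : MixK k μ φ) : Measurable fun ω => ∫ t, φ ω t :=
  (h.meas.stronglyMeasurable.integral_prod_right' (ν := (volume : Measure ℝ))).measurable

lemma MixK.KF_meas (h : MixK k μ φ) (u : ℝ) : Measurable fun ω => KF (φ ω) u := by
  have h0 := h.meas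
  have h1 : Measurable fun p : Ω × ℝ => ((φ p.1 p.2 : ℝ) : ℂ) *
      Complex.exp (2 * Real.pi * u * p.2 * Complex.I) := by
    have h2 : Measurable fun p : Ω × ℝ => φ p.1 p.2 := h0
    fun_prop
  exact (h1.stronglyMeasurable.integral_prod_right' (ν := (volume : Measure ℝ))).measurable

lemma MixK.DK_meas (h : MixK k μ φ) {n : ℕ} (p : Fin n → ℝ) :
    Measurable fun ω => ((DK (φ ω) p).det).re := by
  refine Complex.measurable_re.comp ?_
  simp_rw [Matrix.det_apply']
  refine Finset.measurable_sum _ fun σ _ => ?_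
  refine measurable_const.mul ?_
  refine Finset.measurable_prod _ fun i _ => ?_
  exact h.KF_meas _

lemma pow_le_one_add {c : ℝ} (hc : 0 ≤ c) {a b : ℕ} (hab : a ≤ b) : c ^ a ≤ 1 + c ^ b := by
  rcases le_total c 1 with h | h
  · have h1 : c ^ a ≤ 1 := pow_le_one₀ hc h
    have h2 : 0 ≤ c ^ b := by positivity
    linarith
  · have h1 : c ^ a ≤ c ^ b := pow_le_pow_right₀ h hab
    linarith

lemma MixK.bound (h : MixK k μ φ) {m n : ℕ} (hmn : m + n ≤ k + 1) (p : Fin n → ℝ) (ω : Ω) :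
    ‖(∫ t, φ ω t) ^ m * ((DK (φ ω) p).det).re‖ ≤
      (n.factorial : ℝ) * (1 + (∫ t, φ ω t) ^ (k + 1)) := by
  have hc := h.c_nonneg ω
  have h1 := DK_bound (h.sy ω) p
  have h2 : |((DK (φ ω) p).det).re| ≤ ‖(DK (φ ω) p).det‖ := Complex.abs_re_le_norm _
  rw [Real.norm_eq_abs, abs_mul, abs_of_nonneg (pow_nonneg hc m)]
  calc (∫ t, φ ω t) ^ m * |((DK (φ ω) p).det).re| ≤
      (∫ t, φ ω t) ^ m * ((n.factorial : ℝ) * (∫ t, φ ω t) ^ n) :=
        mul_le_mul_of_nonneg_left (h2.trans h1) (pow_nonneg hc m)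
    _ = (n.factorial : ℝ) * (∫ t, φ ω t) ^ (m + n) := by rw [pow_add]; ring
    _ ≤ _ := mul_le_mul_of_nonneg_left (pow_le_one_add hc hmn) (Nat.cast_nonneg _)

lemma MixK.bd_int [IsFiniteMeasure μ] (h : MixK k μ φ) (n : ℕ) :
    Integrable (fun ω => (n.factorial : ℝ) * (1 + (∫ t, φ ω t) ^ (k + 1))) μ :=
  ((integrable_const 1).add h.pow).const_mul _

lemma MixK.aes (h : MixK k μ φ) {m n : ℕ} (p : Fin n → ℝ) :
    AEStronglyMeasurable (fun ω => (∫ t, φ ω t) ^ m * ((DK (φ ω) p).det).re) μ :=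
  ((h.c_meas.pow_const m).mul (h.DK_meas p)).aestronglyMeasurable

lemma MixK.RD_cont [IsFiniteMeasure μ] (h : MixK k μ φ) {m n : ℕ} (hmn : m + n ≤ k + 1) :
    Continuous (RD μ φ m n) := by
  unfold RD
  refine continuous_of_dominated (bound := fun ω => (n.factorial : ℝ) * (1 + (∫ t, φ ω t) ^ (k + 1)))
    (fun p => h.aes p) (fun p => ae_of_all _ fun ω => h.bound hmn p ω) (h.bd_int n) ?_
  exact ae_of_all _ fun ω => continuous_const.mul (Complex.continuous_re.comp (DK_cont (h.sy ω)))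

/-- the bound of the correlation functions -/
noncomputable def Bd (μ : Measure Ω) (φ : Ω → ℝ → ℝ) (k n : ℕ) : ℝ :=
  ∫ ω, (n.factorial : ℝ) * (1 + (∫ t, φ ω t) ^ (k + 1)) ∂μ

lemma MixK.RD_abs [IsFiniteMeasure μ] (h : MixK k μ φ) {m n : ℕ} (hmn : m + n ≤ k + 1)
    (p : Fin n → ℝ) : |RD μ φ m n p| ≤ Bd μ φ k n := by
  unfold RD Bd
  exact norm_integral_le_of_norm_le (h.bd_int n) (ae_of_all _ fun ω => h.bound hmn p ω)

lemma MixK.RD_lim [IsFiniteMeasure μ] (h : MixK k μ φ) {m n : ℕ} (hmn : m + (n + 1) ≤ k + 1)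
    (q : Fin n → ℝ) :
    Tendsto (fun v : ℝ => RD μ φ m (n + 1) (Fin.cons v q)) (cocompact ℝ)
      (𝓝 (RD μ φ (m + 1) n q)) := by
  have hcg : (cocompact ℝ).IsCountablyGenerated := by
    rw [cocompact_eq_atBot_atTop]
    infer_instance
  unfold RD
  refine tendsto_integral_filter_of_dominated_convergence
    (fun ω => ((n + 1).factorial : ℝ) * (1 + (∫ t, φ ω t) ^ (k + 1)))
    (Eventually.of_forall fun v => h.aes _)
    (Eventually.of_forall fun v => ae_of_all _ fun ω => h.bound hmn _ ω) (h.bd_int (n + 1)) ?_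
  refine ae_of_all _ fun ω => ?_
  have h1 := ((Complex.continuous_re.tendsto _).comp (DK_lim (φ ω) q)).const_mul
    ((∫ t, φ ω t) ^ m)
  have e : (∫ t, φ ω t) ^ m * (KF (φ ω) 0 * (DK (φ ω) q).det).re =
      (∫ t, φ ω t) ^ (m + 1) * ((DK (φ ω) q).det).re := by
    rw [KF_zero, Complex.re_ofReal_mul, pow_succ]
    ring
  rw [e] at h1
  exact h1

end Q241.SC
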