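import Pool.Agent.Q241.SC.G1
import Pool.Agent.Q241.SC.E2

/-! # Lower bounds by a density descend -/

set_option autoImplicit false

open Filter Topology MeasureTheory

namespace Q241.SC

open Q241.KL

/-- the intensity of a box -/
noncomputable def DI {r : ℕ} (D : (Fin (r + 1) → ℝ) → ℝ) (a b : Fin r → ℝ) : ℝ :=
  ∫ u in Set.Icc a b, D (Fin.snoc u 0 : Fin (r + 1) → ℝ)

theorem DI_lim (r : ℕ) {D1 : (Fin (r + 2) → ℝ) → ℝ} {D0 : (Fin (r + 1) → ℝ) → ℝ}
    (hc : Continuous D1) {C : ℝ} (hb : ∀ p, |D1 p| ≤ C)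
    (hlim : ∀ p : Fin (r + 1) → ℝ, Tendsto (fun v : ℝ => D1 (Fin.cons v p)) (cocompact ℝ)
      (𝓝 (D0 p))) (a b : Fin r → ℝ) : Tendsto
    (fun L : ℝ => DI D1 (Fin.cons (-L) a) (Fin.cons L b) / (2 * L)) atTop (𝓝 (DI D0 a b)) := by
  set G : ℝ → ℝ := fun v => ∫ u in Set.Icc a b, D1 (Fin.cons v (Fin.snoc u 0 : Fin (r + 1) → ℝ) :
    Fin (r + 2) → ℝ) with hG
  have hcc : Continuous fun p : ℝ × (Fin r → ℝ) =>
      D1 (Fin.cons p.1 (Fin.snoc p.2 0 : Fin (r + 1) → ℝ) : Fin (r + 2) → ℝ) := by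
    refine hc.comp (continuous_pi fun i => ?_)
    refine Fin.cases ?_ (fun i => ?_) i
    · simp only [Fin.cons_zero]
      exact continuous_fst
    · simp only [Fin.cons_succ]
      exact (continuous_apply i).comp (snoc_cont.comp continuous_snd)
  have hGc : Continuous G := continuous_parametric_integral_of_continuous hcc isCompact_Icc
  have hfin : volume (Set.Icc a b) < ⊤ := isCompact_Icc.measure_lt_top
  have hGb : ∀ v, |G v| ≤ C * volume.real (Set.Icc a b) := by
    intro v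
    exact norm_setIntegral_le_of_norm_le_const (μ := volume) (s := Set.Icc a b) (C := C)
      (f := fun u => D1 (Fin.cons v (Fin.snoc u 0 : Fin (r + 1) → ℝ) : Fin (r + 2) → ℝ))
      hfin fun u _ => hb _
  have hco : ∀ t : ℝ, t ≠ 0 → Tendsto (fun L : ℝ => L * t) atTop (cocompact ℝ) := by
    intro t ht
    rw [cocompact_eq_atBot_atTop]
    rcases lt_or_gt_of_ne ht with h | h
    · exact (tendsto_id.atTop_mul_const_of_neg h).mono_right le_sup_left
    · exact (tendsto_id.atTop_mul_const h).mono_right le_sup_right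
  have hGlim : ∀ t : ℝ, t ≠ 0 → Tendsto (fun L : ℝ => G (L * t)) atTop (𝓝 (DI D0 a b)) := by
    intro t ht
    refine tendsto_integral_filter_of_dominated_convergence (fun _ => C) ?_ ?_ ?_ ?_
    · refine Eventually.of_forall fun L => ?_
      exact (hcc.comp (continuous_const.prodMk continuous_id)).aestronglyMeasurable
    · exact Eventually.of_forall fun L => Eventually.of_forall fun u => hb _
    · exact integrableOn_const hfin.ne
    · exact Eventually.of_forall fun u => (hlim _).comp (hco t ht)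
  have hmain : Tendsto (fun L : ℝ => ∫ t in (-1 : ℝ)..1, G (L * t)) atTop
      (𝓝 (∫ t in (-1 : ℝ)..1, DI D0 a b)) := by
    refine intervalIntegral.tendsto_integral_filter_of_dominated_convergence
      (fun _ => C * volume.real (Set.Icc a b)) ?_ ?_ ?_ ?_
    · exact Eventually.of_forall fun L =>
        (hGc.comp (continuous_const.mul continuous_id)).aestronglyMeasurable
    · exact Eventually.of_forall fun L => Eventually.of_forall fun t _ => hGb _
    · exact intervalIntegrable_const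
    · have h0 : ∀ᵐ t : ℝ, t ≠ 0 := by
        have : volume ({0} : Set ℝ) = 0 := Real.volume_singleton
        exact measure_eq_zero_iff_ae_notMem.mp this
      filter_upwards [h0] with t ht _
      exact hGlim t ht
  rw [intervalIntegral.integral_const, smul_eq_mul] at hmain
  have h2 := hmain.const_mul (1 / 2)
  have e1 : 1 / 2 * ((1 - -1) * DI D0 a b) = DI D0 a b := by ring
  rw [e1] at h2
  refine h2.congr' ?_
  filter_upwards [eventually_gt_atTop (0 : ℝ)] with L hL
  rw [intervalIntegral.integral_comp_mul_left G hL.ne']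
  have e2 : DI D1 (Fin.cons (-L) a) (Fin.cons L b) = ∫ v in (-L)..L, G v := by
    unfold DI
    have hcs : Continuous fun u : Fin (r + 1) → ℝ => D1 (Fin.snoc u 0 : Fin (r + 2) → ℝ) :=
      hc.comp snoc_cont
    rw [fub a b L hcs, intervalIntegral.integral_of_le (by linarith),
      integral_Icc_eq_integral_Ioc]
    refine setIntegral_congr_fun measurableSet_Ioc fun v _ => ?_
    rw [hG]
    refine setIntegral_congr_fun measurableSet_Icc fun u _ => ?_
    simp only [Fin.cons_snoc_eq_snoc_cons]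
  rw [e2, smul_eq_mul]
  have e3 : L * -1 = -L := by ring
  rw [e3, mul_one]
  field_simp

variable {ι : Type*} [DecidableEq ι] (F : Fam ι)

/-- the counts are asymptotically at least those of the density -/
def LowD {r : ℕ} (D : (Fin (r + 1) → ℝ) → ℝ) : Prop :=
  ∀ a b : Fin r → ℝ, (∀ l, a l < b l) → ∀ ε : ℝ, 0 < ε → ∀ᶠ T : ℝ in atTop,
    DI D a b - ε ≤ F.n r a b T

/-- **lower bounds descend** -/
theorem lowD_desc (hM : Mom F) (hS : Scr0 F) {s : ℕ} {D1 : (Fin (s + 2) → ℝ) → ℝ}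
    {D0 : (Fin (s + 1) → ℝ) → ℝ}
    (hlim : ∀ a b : Fin s → ℝ, Tendsto
      (fun L : ℝ => DI D1 (Fin.cons (-L) a) (Fin.cons L b) / (2 * L)) atTop (𝓝 (DI D0 a b)))
    (h : LowD F D1) : LowD F D0 := by
  intro a b hab ε hε
  set I0 := DI D0 a b with hI0
  obtain ⟨R1, hR1⟩ : ∃ R1 : ℝ, ∀ ρ, R1 ≤ ρ → 1 ≤ ρ →
      2 * ρ * (I0 - ε / 8) ≤ DI D1 (Fin.cons (-ρ) a) (Fin.cons ρ b) := by
    obtain ⟨R1, h4⟩ := eventually_atTop.1 ((tendsto_order.1 (hlim a b)).1 (I0 - ε / 8)
      (by linarith))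
    refine ⟨R1, fun ρ hρ hρ1 => ?_⟩
    have h5 := h4 ρ hρ
    rw [lt_div_iff₀ (by linarith)] at h5
    linarith
  set Q : ℝ := 2 * (s + 1) + 2 + 8 * (s + 1) * |I0| / ε with hQ
  obtain ⟨N, hN, r, hr0, hr1, hev⟩ := star F hM hS a b (max Q R1) (ε := ε / 8) (by positivity)
  have hN0 : (0 : ℝ) < N := by exact_mod_cast hN
  have hall : ∀ᶠ T : ℝ in atTop, ∀ m ∈ Finset.range N,
      DI D1 (Fin.cons (-(r m)) a) (Fin.cons (r m) b) - ε / 8 ≤
        F.n (s + 1) (Fin.cons (-(r m)) a) (Fin.cons (r m) b) T :=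
    ev_all fun m => h _ _ (cons_lt hab (by linarith [hr1 m])) (ε / 8) (by positivity)
  filter_upwards [hev, hall] with T h1 h2
  set M : ℝ := (∑ m ∈ Finset.range N, 2 * r m) / N with hMd
  have hMQ : Q ≤ M := le_avg hN fun m => by
    have := (le_max_left _ _).trans (hr0 m)
    have := hr1 m
    linarith
  have h3 : M * (I0 - ε / 8) - ε / 8 ≤
      (∑ m ∈ Finset.range N, F.n (s + 1) (Fin.cons (-(r m)) a) (Fin.cons (r m) b) T) / N := by
    have h4 : ∀ m ∈ Finset.range N, 2 * r m * (I0 - ε / 8) - ε / 8 ≤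
        F.n (s + 1) (Fin.cons (-(r m)) a) (Fin.cons (r m) b) T := by
      intro m hm
      have h5 := hR1 (r m) ((le_max_right _ _).trans (hr0 m)) (hr1 m)
      have h6 := h2 m hm
      linarith
    have h5 := Finset.sum_le_sum h4
    rw [Finset.sum_sub_distrib, ← Finset.sum_mul, Finset.sum_const, Finset.card_range,
      nsmul_eq_mul] at h5
    rw [le_div_iff₀ hN0, sub_mul, hMd]
    have e : (∑ m ∈ Finset.range N, 2 * r m) / N * (I0 - ε / 8) * N =
        (∑ m ∈ Finset.range N, 2 * r m) * (I0 - ε / 8) := by field_simp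
    rw [e]
    linarith
  have h5 := (abs_le.1 h1).2
  have hs0 : (0 : ℝ) ≤ s := Nat.cast_nonneg s
  have hI := neg_abs_le I0
  have hQ2 : 8 * ((s : ℝ) + 1) * |I0| ≤ ε * (M - (s + 1)) := by
    have h6 : 8 * ((s : ℝ) + 1) * |I0| / ε ≤ M - (s + 1) := by
      have : 0 ≤ 8 * ((s : ℝ) + 1) * |I0| / ε := by positivity
      linarith
    rw [div_le_iff₀ hε] at h6
    linarith
  have hM1 : 2 * ((s : ℝ) + 1) + 2 ≤ M := by
    have : 0 ≤ 8 * ((s : ℝ) + 1) * |I0| / ε := by positivity
    linarith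
  push_cast at h5
  by_contra hcon
  push Not at hcon
  have h7 : F.n s a b T < I0 - ε := by linarith
  have h8 : (M - ((s : ℝ) + 1)) * F.n s a b T ≤ (M - ((s : ℝ) + 1)) * (I0 - ε) :=
    mul_le_mul_of_nonneg_left h7.le (by linarith)
  have h9 : M * (I0 - ε / 8) - ε / 8 ≤ (M - ((s : ℝ) + 1)) * (I0 - ε) + ε / 8 := by linarith
  have h10 : ((s : ℝ) + 1) * I0 ≤ ε / 8 * (M - (s + 1)) := by
    have h11 : I0 ≤ |I0| := le_abs_self _
    nlinarith
  nlinarith

end Q241.SC
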