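import Pool.Agent.Q241.SC.G2
import Pool.Agent.Q241.KL.Fin2

/-! # One determinantal lower bound at one level -/

set_option autoImplicit false

open Filter Topology MeasureTheory

namespace Q241.SC

open Q241.KL
open Q241.DT (Sy KF Mix RR Ivl VV)
open H370 TH803TW Pool.Agent.Y744

variable {Ω : Type*} [MeasurableSpace Ω] {μ : Measure Ω} {φ : Ω → ℝ → ℝ} {k : ℕ}

/-- all weighted lower bounds -/
theorem lowD_all [IsFiniteMeasure μ] (h : MixK k μ φ) (h0 : LowD FZ (RD μ φ 0 (k + 1))) :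
    ∀ j r : ℕ, j + r = k → LowD FZ (RD μ φ j (r + 1)) := by
  intro j
  induction j with
  | zero =>
    intro r hr
    have e : r = k := by omega
    rw [e]
    exact h0
  | succ j ih =>
    intro r hr
    have h1 := ih (r + 1) (by omega)
    refine lowD_desc FZ mom_FZ scr_FZ (D1 := RD μ φ j (r + 2)) ?_ h1
    intro a b
    exact DI_lim r (h.RD_cont (by omega)) (fun p => h.RD_abs (by omega) p)
      (fun p => h.RD_lim (by omega) p) a b

lemma DI_zero (D : (Fin 1 → ℝ) → ℝ) (a b : Fin 0 → ℝ) : DI D a b = D (fun _ => 0) := by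
  unfold DI
  have e : ∀ u : Fin 0 → ℝ, D (Fin.snoc u 0 : Fin (0 + 1) → ℝ) = D (fun _ => 0) := by
    intro u
    congr 1
  simp_rw [e]
  have hI : Set.Icc a b = Set.univ := by
    ext u
    simp [Subsingleton.elim a u, Subsingleton.elim b u]
  rw [hI, MeasureTheory.Measure.restrict_univ, MeasureTheory.integral_const, smul_eq_mul,
    MeasureTheory.volume_pi, MeasureTheory.Measure.pi_of_empty _ a]
  rw [MeasureTheory.probReal_univ, one_mul]

lemma RD_one (m : ℕ) : RD μ φ m 1 (fun _ => 0) = ∫ ω, (∫ t, φ ω t) ^ (m + 1) ∂μ := by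
  unfold RD
  refine integral_congr_ae (Eventually.of_forall fun ω => ?_)
  show (∫ t, φ ω t) ^ m * ((DK (φ ω) (fun _ : Fin 1 => (0 : ℝ))).det).re = (∫ t, φ ω t) ^ (m + 1)
  rw [Matrix.det_fin_one]
  unfold DK
  rw [Matrix.of_apply, sub_self, KF_zero, Complex.ofReal_re, pow_succ]

/-- the moment of the intensity is at most one -/
theorem mom_le [IsFiniteMeasure μ] (h : MixK k μ φ) (h0 : LowD FZ (RD μ φ 0 (k + 1))) :
    ∫ ω, (∫ t, φ ω t) ^ (k + 1) ∂μ ≤ 1 := by
  have h1 := lowD_all h h0 k 0 (by omega)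
  refine le_of_forall_pos_le_add fun ε hε => ?_
  have h2 := h1 (fun _ => 0) (fun _ => 1) (fun l => l.elim0) (ε / 2) (by positivity)
  have h3 : Tendsto (fun T => FZ.n 0 (fun _ => 0) (fun _ => 1) T) atTop (𝓝 1) := by
    have h4 := full_zero FZ (fun _ => 0) (fun _ => 1) (fun l => l.elim0)
    have h5 : SI 0 (fun _ => 0) (fun _ => 1) = 1 := by
      have h6 := FZ.hJ
      refine tendsto_nhds_unique h4 (h6.congr fun T => ?_)
      unfold Fam.n cnt
      congr 2
      rw [Finset.card_eq_sum_ones]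
      refine Finset.sum_congr rfl fun j _ => ?_
      symm
      rw [Finset.card_eq_one]
      refine ⟨Fin.elim0, ?_⟩
      ext s
      rw [mem_E, Finset.mem_singleton]
      constructor
      · intro _
        funext l
        exact l.elim0
      · intro _
        exact ⟨fun l => l.elim0, fun l => l.elim0, fun l => l.elim0, fun l => l.elim0⟩
    rw [h5] at h4
    exact h4
  obtain ⟨T, h4, h5⟩ := (h2.and ((tendsto_order.1 h3).2 (1 + ε / 2) (by linarith))).exists
  rw [DI_zero, RD_one] at h4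
  linarith

lemma pow_ge {c : ℝ} (hc : 0 ≤ c) {n : ℕ} (hn : 2 ≤ n) :
    1 + n * (c - 1) + (c - 1) ^ 2 ≤ c ^ n := by
  induction n, hn using Nat.le_induction with
  | base => push_cast; nlinarith
  | succ n hn ih =>
    have hn2 : (2 : ℝ) ≤ n := by exact_mod_cast hn
    have e : c ^ (n + 1) = c ^ n * c := pow_succ c n
    rw [e]
    push_cast
    have h1 : (1 + n * (c - 1) + (c - 1) ^ 2) * c ≤ c ^ n * c := mul_le_mul_of_nonneg_right ih hc
    have h2 : 0 ≤ (c - 1) ^ 2 * c := by positivity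
    have h3 : (c - 1) ^ 2 ≤ n * (c - 1) ^ 2 :=
      le_mul_of_one_le_left (sq_nonneg _) (by linarith)
    nlinarith

/-- the intensity is one -/
theorem c_one [IsProbabilityMeasure μ] (hk : 1 ≤ k) (h : MixK k μ φ)
    (h0 : LowD FZ (RD μ φ 0 (k + 1))) : ∀ᵐ ω ∂μ, ∫ t, φ ω t = 1 := by
  have h1 := mom_le h h0
  have hc1 : Integrable (fun ω => ∫ t, φ ω t) μ := by
    by_contra hc
    have h2 := h.mean
    rw [integral_undef hc] at h2
    exact zero_ne_one h2
  have hc2 : Integrable (fun ω => (∫ t, φ ω t) ^ 2) μ := by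
    refine ((integrable_const (1 : ℝ)).add h.pow).mono' (h.c_meas.pow_const 2).aestronglyMeasurable
      (ae_of_all _ fun ω => ?_)
    rw [Real.norm_eq_abs, abs_of_nonneg (sq_nonneg _)]
    exact pow_le_one_add (h.c_nonneg ω) (by omega)
  have hsq : Integrable (fun ω => ((∫ t, φ ω t) - 1) ^ 2) μ := by
    have : (fun ω => ((∫ t, φ ω t) - 1) ^ 2) =
        fun ω => (∫ t, φ ω t) ^ 2 - 2 * (∫ t, φ ω t) + 1 := by
      funext ω
      ring
    rw [this]
    exact (hc2.sub (hc1.const_mul 2)).add (integrable_const 1)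
  have h2 : ∫ ω, (1 + ((k + 1 : ℕ) : ℝ) * ((∫ t, φ ω t) - 1) + ((∫ t, φ ω t) - 1) ^ 2) ∂μ ≤ 1 := by
    refine le_trans (integral_mono ?_ h.pow fun ω => pow_ge (h.c_nonneg ω) (by omega)) h1
    exact ((integrable_const 1).add ((hc1.sub (integrable_const 1)).const_mul _)).add hsq
  have h3 : ∫ ω, ((∫ t, φ ω t) - 1) ^ 2 ∂μ ≤ 0 := by
    have i1 : Integrable (fun ω => ((k + 1 : ℕ) : ℝ) * ((∫ t, φ ω t) - 1)) μ :=
      (hc1.sub (integrable_const 1)).const_mul _
    have i2 : Integrable (fun ω => 1 + ((k + 1 : ℕ) : ℝ) * ((∫ t, φ ω t) - 1)) μ :=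
      (integrable_const 1).add i1
    rw [integral_add i2 hsq, integral_add (integrable_const 1) i1, integral_const_mul,
      integral_sub hc1 (integrable_const 1), h.mean] at h2
    simp only [integral_const, probReal_univ, smul_eq_mul, mul_one, sub_self, mul_zero,
      add_zero] at h2
    linarith
  have h4 : (fun ω => ((∫ t, φ ω t) - 1) ^ 2) =ᵐ[μ] 0 :=
    (integral_eq_zero_iff_of_nonneg (fun ω => sq_nonneg _) hsq).1
      (le_antisymm h3 (integral_nonneg fun ω => sq_nonneg _))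
  filter_upwards [h4] with ω hω
  have h5 : ((∫ t, φ ω t) - 1) ^ 2 = 0 := hω
  have h6 := pow_eq_zero_iff (two_ne_zero) |>.1 h5
  linarith

lemma MixK.mix [IsFiniteMeasure μ] (hk : 1 ≤ k) (h : MixK k μ φ) : Mix μ φ where
  meas := h.meas
  nonneg := h.nonneg
  le_one := h.le_one
  int := h.int
  mean := h.mean
  sq := by
    refine ((integrable_const (1 : ℝ)).add h.pow).mono' (h.c_meas.pow_const 2).aestronglyMeasurable
      (ae_of_all _ fun ω => ?_)
    rw [Real.norm_eq_abs, abs_of_nonneg (sq_nonneg _)]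
    exact pow_le_one_add (h.c_nonneg ω) (by omega)

lemma KF_neg (φ : ℝ → ℝ) (u : ℝ) : KF φ (-u) = (starRingEnd ℂ) (KF φ u) := by
  unfold KF
  rw [← integral_conj]
  refine integral_congr_ae (Eventually.of_forall fun t => ?_)
  show (φ t : ℂ) * Complex.exp (2 * Real.pi * ((-u : ℝ) : ℂ) * t * Complex.I) =
    (starRingEnd ℂ) ((φ t : ℂ) * Complex.exp (2 * Real.pi * u * t * Complex.I))
  rw [map_mul, Complex.conj_ofReal, ← Complex.exp_conj]
  congr 2
  simp only [map_mul, Complex.conj_I, Complex.conj_ofReal, map_ofNat, Complex.ofReal_neg]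
  ring

lemma det_two (φ : ℝ → ℝ) (u : ℝ) :
    (DK φ ![u, 0]).det = ((((∫ t, φ t) ^ 2 - ‖KF φ u‖ ^ 2 : ℝ)) : ℂ) := by
  rw [Matrix.det_fin_two]
  unfold DK
  simp only [Matrix.of_apply, Matrix.cons_val_zero, Matrix.cons_val_one, sub_self, sub_zero,
    zero_sub, KF_zero, KF_neg]
  have h1 : KF φ u * (starRingEnd ℂ) (KF φ u) = ((‖KF φ u‖ ^ 2 : ℝ) : ℂ) := by
    rw [Complex.mul_conj, Complex.normSq_eq_norm_sq]
  rw [h1]
  push_cast
  ring

/-- the pair density -/
lemma RD_two [IsProbabilityMeasure μ] (hc : ∀ᵐ ω ∂μ, ∫ t, φ ω t = 1) (m : ℕ) (u : ℝ) :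
    RD μ φ m 2 ![u, 0] = RR μ φ u := by
  unfold RD RR
  refine integral_congr_ae ?_
  filter_upwards [hc] with ω hω
  rw [det_two, Complex.ofReal_re, hω, one_pow, one_mul]

lemma DI_one (D : (Fin 2 → ℝ) → ℝ) (a b : Fin 1 → ℝ) (h : a 0 ≤ b 0) :
    DI D a b = ∫ y in (a 0)..(b 0), D ![y, 0] := by
  unfold DI
  have hmp := (volume_preserving_funUnique (Fin 1) ℝ).symm (MeasurableEquiv.funUnique (Fin 1) ℝ)
  have hint := hmp.setIntegral_preimage_emb
    (MeasurableEquiv.funUnique (Fin 1) ℝ).symm.measurableEmbedding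
    (fun u : Fin 1 → ℝ => D (Fin.snoc u 0 : Fin (1 + 1) → ℝ)) (Set.Icc a b)
  refine hint.symm.trans ?_
  have hpre : (MeasurableEquiv.funUnique (Fin 1) ℝ).symm ⁻¹' Set.Icc a b = Set.Icc (a 0) (b 0) := by
    ext y
    rw [Set.mem_preimage, Set.mem_Icc, Set.mem_Icc, Pi.le_def, Pi.le_def]
    simp
  rw [hpre, intervalIntegral.integral_of_le h, integral_Icc_eq_integral_Ioc]
  refine setIntegral_congr_fun measurableSet_Ioc fun y _ => ?_
  have e : (Fin.snoc ((MeasurableEquiv.funUnique (Fin 1) ℝ).symm y) 0 : Fin 2 → ℝ) = ![y, 0] := by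
    funext i
    fin_cases i
    · rfl
    · rfl
  show D (Fin.snoc ((MeasurableEquiv.funUnique (Fin 1) ℝ).symm y) 0 : Fin 2 → ℝ) = D ![y, 0]
  rw [e]

/-- **the pair correlation is bounded below by that of the mixture** -/
theorem lowBy_of [IsProbabilityMeasure μ] (hk : 1 ≤ k) (h : MixK k μ φ)
    (h0 : LowD FZ (RD μ φ 0 (k + 1))) : Q241.DT.LowBy μ φ := by
  have hc := c_one hk h h0
  have hM := h.mix hk
  obtain ⟨j, rfl⟩ : ∃ j, k = j + 1 := ⟨k - 1, by omega⟩
  have h1 := lowD_all h h0 j 1 (by omega)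
  refine ⟨0, 1, 1, one_pos, fun β hβ ε hε => ?_⟩
  set V := VV μ φ with hV
  have hV0 : 0 ≤ V := Q241.DT.VV_nonneg
  obtain ⟨η, hη0, hη1, hηε⟩ : ∃ η : ℝ, 0 < η ∧ η < 1 ∧ V * η ≤ ε / 2 := by
    refine ⟨min (1 / 2) (ε / (2 * (V + 1))), by positivity, ?_, ?_⟩
    · exact (min_le_left _ _).trans_lt (by norm_num)
    · calc V * min (1 / 2) (ε / (2 * (V + 1))) ≤ (V + 1) * (ε / (2 * (V + 1))) :=
          mul_le_mul (by linarith) (min_le_right _ _) (by positivity) (by positivity)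
        _ = ε / 2 := by field_simp
  have h2 := h1 (fun _ => η) (fun _ => β) (fun _ => by linarith) (ε / 2) (by positivity)
  obtain ⟨m, hm0, hm⟩ := Q241.OP.low_zero
  have h3 : Tendsto (fun T : ℝ => 2 * Real.pi * β / Real.log T) atTop (𝓝 0) :=
    Tendsto.div_atTop tendsto_const_nhds Real.tendsto_log_atTop
  filter_upwards [h2, (tendsto_order.1 h3).2 m hm0, eventually_gt_atTop (1 : ℝ)] with T h4 h5 hT
  have hX : 0 < Q241.OP.G.X T := Xf_pos hT
  rw [Q241.HF.N0_eq hm hT h5, zero_mul, sub_zero]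
  have e1 : FZ.n 1 (fun _ => η) (fun _ => β) T =
      (cnt (JZ T) (xz T) 1 (fun _ => η) (fun _ => β) : ℝ) / Xf T := rfl
  have e2 : (Set.Icc η β).indicator (fun _ => (1 : ℝ)) 0 = 0 :=
    Set.indicator_of_notMem (fun h => absurd h.1 (not_le.2 hη0)) _
  rw [e1, cnt_one, e2, zero_mul, sub_zero, DI_one _ _ _ (by show η ≤ β; linarith)] at h4
  have e3 : ∫ y in η..β, RD μ φ j (1 + 1) ![y, 0] = ∫ y in η..β, RR μ φ y :=
    intervalIntegral.integral_congr fun y _ => RD_two hc j y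
  rw [e3, le_div_iff₀ (Xf_pos hT)] at h4
  have e4 : (∫ u in (0 : ℝ)..β, RR μ φ u) - ε ≤ (∫ y in η..β, RR μ φ y) - ε / 2 := by
    have h6 := intervalIntegral.integral_add_adjacent_intervals (μ := volume)
      (hM.R_cont.intervalIntegrable 0 η) (hM.R_cont.intervalIntegrable η β)
    have h7 := hM.P_le hη0.le
    unfold Q241.DT.PP at h7
    linarith
  calc ((∫ u in (0 : ℝ)..β, RR μ φ u) - ε) * Q241.OP.G.X T ≤
      ((∫ y in η..β, RR μ φ y) - ε / 2) * Xf T := mul_le_mul_of_nonneg_right e4 hX.le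
    _ ≤ PC T (Set.Icc η β) := h4
    _ ≤ PC T (Set.Ioc 0 β) := PC_mono T fun x hx => ⟨hη0.trans_le hx.1, hx.2⟩

end Q241.SC
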