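import Pool.Agent.Q241.SC.G3

/-! # Either half of the correlations at one level -/

set_option autoImplicit false

open Filter Topology MeasureTheory

namespace Q241.SC

open Q241.KL
open Q241.DT (Sy KF Mix RR Ivl VV sn)

/-- the kernel of an interval -/
theorem Ivl_KF {φ : ℝ → ℝ} (h : Ivl φ) : ∃ c : ℝ, ∀ u : ℝ,
    KF φ u = Complex.exp (((c * u : ℝ) : ℂ) * Complex.I) * ((Real.sinc (Real.pi * u) : ℝ) : ℂ) := by
  obtain ⟨a, ha⟩ := h
  refine ⟨Real.pi * (2 * a + 1), fun u => ?_⟩
  have e1 : KF φ u = ∫ t in (a : ℝ)..(a + 1), Complex.exp (2 * Real.pi * u * t * Complex.I) := by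
    unfold KF
    rw [intervalIntegral.integral_of_le (by linarith), integral_Ioc_eq_integral_Ioo,
      ← integral_indicator measurableSet_Ioo]
    refine integral_congr_ae ?_
    filter_upwards [ha] with t ht
    rw [ht]
    by_cases h1 : t ∈ Set.Ioo a (a + 1)
    · rw [Set.indicator_of_mem h1, Set.indicator_of_mem h1]
      push_cast
      ring
    · rw [Set.indicator_of_notMem h1, Set.indicator_of_notMem h1]
      push_cast
      ring
  by_cases hu : u = 0
  · subst hu
    rw [e1]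
    simp
  · have hc : (2 * Real.pi * u * Complex.I : ℂ) ≠ 0 := by
      simp [hu, Real.pi_ne_zero]
    have e2 : ∀ t : ℝ, Complex.exp (2 * Real.pi * u * t * Complex.I) =
        Complex.exp ((2 * Real.pi * u * Complex.I : ℂ) * t) := by
      intro t
      congr 1
      ring
    simp_rw [e2] at e1
    rw [integral_exp_mul_complex hc] at e1
    set θ : ℝ := Real.pi * (2 * a + 1) * u with hθ
    have e3 : Complex.exp ((2 * Real.pi * u * Complex.I : ℂ) * ((a + 1 : ℝ) : ℂ)) -
        Complex.exp ((2 * Real.pi * u * Complex.I : ℂ) * (a : ℂ)) =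
        Complex.exp ((θ : ℂ) * Complex.I) * (2 * Complex.I * ((Real.sin (Real.pi * u) : ℝ) : ℂ)) := by
      have h1 : (2 * Real.pi * u * Complex.I : ℂ) * ((a + 1 : ℝ) : ℂ) =
          (θ : ℂ) * Complex.I + ((Real.pi * u : ℝ) : ℂ) * Complex.I := by
        rw [hθ]
        push_cast
        ring
      have h2 : (2 * Real.pi * u * Complex.I : ℂ) * (a : ℂ) =
          (θ : ℂ) * Complex.I + -(((Real.pi * u : ℝ) : ℂ) * Complex.I) := by
        rw [hθ]
        push_cast
        ring
      rw [h1, h2, Complex.exp_add, Complex.exp_add, Complex.ofReal_sin, Complex.sin, ← mul_sub]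
      congr 1
      rw [neg_mul]
      have hI : Complex.I * Complex.I = -1 := Complex.I_mul_I
      linear_combination (-Complex.exp (-(((Real.pi * u : ℝ) : ℂ) * Complex.I)) +
        Complex.exp (((Real.pi * u : ℝ) : ℂ) * Complex.I)) * hI
    rw [e3] at e1
    have hx : Real.pi * u ≠ 0 := mul_ne_zero Real.pi_ne_zero hu
    rw [e1, Real.sinc_of_ne_zero hx, mul_div_assoc]
    congr 1
    have hx' : ((Real.pi * u : ℝ) : ℂ) ≠ 0 := by exact_mod_cast hx
    have e5 : (2 * Real.pi * u * Complex.I : ℂ) = 2 * Complex.I * ((Real.pi * u : ℝ) : ℂ) := by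
      push_cast
      ring
    rw [e5, Complex.ofReal_div, mul_div_mul_left]
    exact mul_ne_zero two_ne_zero Complex.I_ne_zero

/-- the determinants of an interval are those of the sine kernel -/
theorem Ivl_det {φ : ℝ → ℝ} (h : Ivl φ) {n : ℕ} (p : Fin n → ℝ) :
    (DK φ p).det = (((SA p).det : ℝ) : ℂ) := by
  obtain ⟨c, hc⟩ := Ivl_KF h
  set S : Matrix (Fin n) (Fin n) ℂ := (SA p).map (Complex.ofRealHom : ℝ → ℂ) with hS
  have e1 : DK φ p = Matrix.of fun i j => Complex.exp (((c * p i : ℝ) : ℂ) * Complex.I) *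
      (Matrix.of fun i j => Complex.exp (-(((c * p j : ℝ) : ℂ) * Complex.I)) * S i j) i j := by
    ext i j
    unfold DK
    rw [Matrix.of_apply, Matrix.of_apply, Matrix.of_apply, hc, ← mul_assoc, ← Complex.exp_add]
    congr 2
    push_cast
    ring
  rw [e1, Matrix.det_mul_column, Matrix.det_mul_row, ← mul_assoc, ← Finset.prod_mul_distrib]
  have e2 : ∏ i, Complex.exp (((c * p i : ℝ) : ℂ) * Complex.I) *
      Complex.exp (-(((c * p i : ℝ) : ℂ) * Complex.I)) = 1 := by
    refine Finset.prod_eq_one fun i _ => ?_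
    rw [← Complex.exp_add, add_neg_cancel, Complex.exp_zero]
  rw [e2, one_mul, hS]
  exact (Complex.ofRealHom.map_det (SA p)).symm

variable {Ω : Type*} [MeasurableSpace Ω] {μ : Measure Ω} {φ : Ω → ℝ → ℝ} {k : ℕ}

lemma RD_sine [IsProbabilityMeasure μ] (h : ∀ᵐ ω ∂μ, Ivl (φ ω)) {n : ℕ} (p : Fin n → ℝ) :
    RD μ φ 0 n p = (SA p).det := by
  unfold RD
  have e : ∫ ω, (∫ t, φ ω t) ^ 0 * ((DK (φ ω) p).det).re ∂μ = ∫ _ω, (SA p).det ∂μ := by
    refine integral_congr_ae ?_
    filter_upwards [h] with ω hω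
    rw [pow_zero, one_mul, Ivl_det hω, Complex.ofReal_re]
  rw [e, integral_const, probReal_univ, one_smul]

lemma DI_sine [IsProbabilityMeasure μ] (h : ∀ᵐ ω ∂μ, Ivl (φ ω)) {r : ℕ} (a b : Fin r → ℝ) :
    DI (RD μ φ 0 (r + 1)) a b = SI r a b := by
  unfold DI SI
  simp_rw [RD_sine h]

/-- **the lower half implies the conjecture** -/
theorem conj_of_low {r : ℕ} (h : Low FZ SI r) : Conj r :=
  (Conj_iff r).2 (full_of_low_all FZ mom_FZ scr_FZ r h)

/-- **one determinantal lower bound implies the conjecture** -/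
theorem conj_of_det [IsProbabilityMeasure μ] (hk : 1 ≤ k) (h : MixK k μ φ)
    (h0 : LowD FZ (RD μ φ 0 (k + 1))) : Conj k ∧ ∀ᵐ ω ∂μ, Ivl (φ ω) := by
  have h1 := (Q241.DT.mont_of (h.mix hk) (lowBy_of hk h h0)).2
  refine ⟨conj_of_low ?_, h1⟩
  intro a b hab ε hε
  have h2 := h0 a b hab ε hε
  rwa [DI_sine h1] at h2

lemma sn_ivl : ∀ᵐ ω ∂(Measure.dirac ()), Ivl (sn ω) := by
  rw [ae_dirac_eq]
  exact ⟨0, Filter.EventuallyEq.rfl⟩

lemma sn_mixK (k : ℕ) : MixK k (Measure.dirac ()) sn where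
  meas := Q241.DT.sn_mix.meas
  nonneg := Q241.DT.sn_mix.nonneg
  le_one := Q241.DT.sn_mix.le_one
  int := Q241.DT.sn_mix.int
  mean := Q241.DT.sn_mix.mean
  pow := integrable_dirac (by simp)

theorem det_of_conj (h : Conj k) : LowD FZ (RD (Measure.dirac ()) sn 0 (k + 1)) := by
  intro a b hab ε hε
  rw [DI_sine sn_ivl]
  have h1 := (Conj_iff k).1 h a b hab
  filter_upwards [(tendsto_order.1 h1).1 (SI k a b - ε) (by linarith)] with T hT
  exact hT.le

end Q241.SC
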